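import Pool.Agent.Run7.h483.P15.Ds

/-!
# P15 (helper483): C2A and C2B, evaluation of the divisor sums
-/

set_option autoImplicit false

namespace Pool.Agent.Run7.h483.P15

open Finset
open Pool.Agent.Z700 (hh fac)
open Pool.Agent.N969.P15 (psp WW loc3 lrest tw ep2 Cls0 S_C2A S_C2B)

/-! ### symbols -/

theorem jac_neg {n l : ℕ} (hn : n % 4 = 3) (hl : l % 2 = 1) :
    jacobiSym (-(n : ℤ)) l = jacobiSym (l : ℤ) n := by
  have hlo : Odd l := Nat.odd_iff.2 hl
  have hno : Odd n := Nat.odd_iff.2 (by omega)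
  rw [jacobiSym.neg _ hlo]
  have h4 : l % 4 = 1 ∨ l % 4 = 3 := by omega
  rcases h4 with h | h
  · rw [ZMod.χ₄_nat_one_mod_four h, one_mul, jacobiSym.quadratic_reciprocity_one_mod_four h hno]
  · rw [ZMod.χ₄_nat_three_mod_four h, jacobiSym.quadratic_reciprocity_three_mod_four h hn]
    ring

theorem jac3 {n : ℕ} (hn : n % 4 = 3) (h3 : n % 3 = 2) : jacobiSym ((3 : ℕ) : ℤ) n = 1 := by
  rw [← jac_neg hn (by norm_num : 3 % 2 = 1),
    jacobiSym.mod_left' (a₂ := 1) (b := 3) (by push_cast; omega)]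
  exact jacobiSym.one_left 3

theorem jac5 {n : ℕ} (hn : n % 4 = 3) (h5 : n % 5 = 2 ∨ n % 5 = 3) :
    jacobiSym ((5 : ℕ) : ℤ) n = -1 := by
  rw [← jac_neg hn (by norm_num : 5 % 2 = 1)]
  rcases h5 with h | h
  · rw [jacobiSym.mod_left' (a₂ := 3) (b := 5) (by push_cast; omega)]
    norm_num
  · rw [jacobiSym.mod_left' (a₂ := 2) (b := 5) (by push_cast; omega)]
    norm_num

theorem jac2 {n : ℕ} (hn : n % 4 = 3) : jacobiSym ((2 : ℕ) : ℤ) n = if n % 8 = 7 then 1 else -1 := by
  have hno : Odd n := Nat.odd_iff.2 (by omega)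
  have h2 : jacobiSym (2 : ℤ) n = ZMod.χ₈ n := jacobiSym.at_two hno
  have h8 : n % 8 = 3 ∨ n % 8 = 7 := by omega
  rw [Nat.cast_ofNat, h2]
  rcases h8 with h | h
  · rw [if_neg (by omega), ZMod.χ₈_nat_eq_if_mod_eight, if_neg (by omega), if_neg (by omega)]
  · rw [if_pos h, ZMod.χ₈_nat_eq_if_mod_eight, if_neg (by omega), if_pos (by omega)]

/-! ### the divisor sum as a double sum -/

theorem sumk {k m : ℕ} (hk : 0 < k) (f : ℕ → ℤ) :
    ∑ a ∈ (k * m).divisors.filter (k ∣ ·), f a = ∑ b ∈ m.divisors, f (k * b) := by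
  symm
  refine sum_nbij' (fun b => k * b) (fun a => a / k) ?_ ?_ ?_ ?_ ?_
  · intro b hb
    rw [Nat.mem_divisors] at hb
    rw [mem_filter, Nat.mem_divisors]
    exact ⟨⟨mul_dvd_mul_left k hb.1, mul_ne_zero hk.ne' hb.2⟩, dvd_mul_right _ _⟩
  · intro a ha
    rw [mem_filter, Nat.mem_divisors] at ha
    obtain ⟨⟨h1, h2⟩, c, rfl⟩ := ha
    rw [Nat.mem_divisors, Nat.mul_div_cancel_left _ hk]
    exact ⟨Nat.dvd_of_mul_dvd_mul_left hk h1, right_ne_zero_of_mul h2⟩
  · intro b _
    exact Nat.mul_div_cancel_left _ hk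
  · intro a ha
    rw [mem_filter] at ha
    exact Nat.mul_div_cancel' ha.2
  · intro b _
    rfl

theorem WW_eq {n S T : ℕ} (hn3 : ¬ 3 ∣ n) (hT : 0 < T) :
    WW n (3 * S) (5 * T) =
      ∑ a ∈ S.divisors, ∑ X ∈ T.divisors, ∏ p ∈ n.primeFactors, Ph 3 5 S T p a X := by
  unfold WW
  rw [sumk (by norm_num)]
  refine sum_congr rfl fun a _ => ?_
  rw [sumk (by norm_num), ← Nat.sum_div_divisors T]
  refine sum_congr rfl fun b hb => ?_
  have hb' := Nat.mem_divisors.1 hb
  refine prod_congr rfl fun p hp => ?_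
  have hpp := Nat.prime_of_mem_primeFactors hp
  have hp3 : p ∣ 3 * a ↔ p ∣ a := by
    rw [hpp.dvd_mul]
    refine or_iff_right fun h => ?_
    rw [Nat.prime_dvd_prime_iff_eq hpp Nat.prime_three] at h
    exact hn3 (h ▸ Nat.dvd_of_mem_primeFactors hp)
  have e1 : 5 * T / (5 * (T / b)) = T / (T / b) := Nat.mul_div_mul_left _ _ (by norm_num)
  have e2 : 3 * S / (3 * a) = S / a := Nat.mul_div_mul_left _ _ (by norm_num)
  have e3 : T / (T / b) = b := Nat.div_div_self hb'.1 hT.ne'
  unfold psp Ph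
  rw [e1, e2, e3]
  by_cases h : p ∣ a ∧ p ∣ b
  · rw [if_pos h, if_pos ⟨hp3.2 h.1, h.2⟩]
  · rw [if_neg h, if_neg (fun h' => h ⟨hp3.1 h'.1, h'.2⟩)]

/-! ### the local factors -/

/-- the primes different from `2`, `3`, `5` -/
def core (D : ℕ) : Finset ℕ := ((D.primeFactors.erase 2).erase 3).erase 5

theorem mem_core {D l : ℕ} : l ∈ core D ↔ l ≠ 5 ∧ l ≠ 3 ∧ l ≠ 2 ∧ l ∈ D.primeFactors := by
  unfold core
  rw [mem_erase, mem_erase, mem_erase]

theorem hh_four {n m l : ℕ} (hl : l.Prime) (hl2 : l ≠ 2) (hm : m ≠ 0) :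
    hh n (4 * m) l = hh n m l := by
  have h2l : ¬ l ∣ 2 := fun h => hl2 ((Nat.prime_dvd_prime_iff_eq hl Nat.prime_two).1 h)
  have hl4 : ¬ l ∣ 4 := by
    intro h
    have h1 : l ∣ 2 ^ 2 := by simpa using h
    exact h2l (hl.dvd_of_dvd_pow h1)
  have hf : (4 * m).factorization l = m.factorization l := by
    rw [Nat.factorization_mul (by norm_num) hm, Finsupp.add_apply,
      Nat.factorization_eq_zero_of_not_dvd hl4, zero_add]
  have hd : 4 * m / l ^ m.factorization l = 4 * (m / l ^ m.factorization l) :=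
    Nat.mul_div_assoc _ (Nat.ordProj_dvd m l)
  have h4 : jacobiSym ((4 : ℕ) : ℤ) l = 1 := by
    have := jacobiSym.at_four (b := l) (hl.odd_of_ne_two hl2)
    exact_mod_cast this
  unfold hh
  rw [hf, hd]
  split_ifs with h
  · have : (-((4 * (m / l ^ m.factorization l) : ℕ) : ℤ)) =
        ((4 : ℕ) : ℤ) * (-((m / l ^ m.factorization l : ℕ) : ℤ)) := by push_cast; ring
    rw [this, jacobiSym.mul_left, h4, one_mul]
  · have : (-((n / l * (4 * (m / l ^ m.factorization l)) : ℕ) : ℤ)) =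
        ((4 : ℕ) : ℤ) * (-((n / l * (m / l ^ m.factorization l) : ℕ) : ℤ)) := by push_cast; ring
    rw [this, jacobiSym.mul_left, h4, one_mul]

theorem fact_four {m l : ℕ} (hl : l.Prime) (hl2 : l ≠ 2) (hm : m ≠ 0) :
    (4 * m).factorization l = m.factorization l := by
  have h2l : ¬ l ∣ 2 := fun h => hl2 ((Nat.prime_dvd_prime_iff_eq hl Nat.prime_two).1 h)
  have hl4 : ¬ l ∣ 4 := by
    intro h
    have h1 : l ∣ 2 ^ 2 := by simpa using h
    exact h2l (hl.dvd_of_dvd_pow h1)
  rw [Nat.factorization_mul (by norm_num) hm, Finsupp.add_apply,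
    Nat.factorization_eq_zero_of_not_dvd hl4, zero_add]

theorem core_four {n m : ℕ} (hm : m ≠ 0) :
    ∏ l ∈ core (4 * m), fac n (4 * m) l = ∏ l ∈ core m, fac n m l := by
  have hc : core (4 * m) = core m := by
    ext l
    rw [mem_core, mem_core]
    refine and_congr_right fun _ => and_congr_right fun _ => and_congr_right fun h2 => ?_
    rw [Nat.mem_primeFactors, Nat.mem_primeFactors]
    constructor
    · rintro ⟨h3, h4, -⟩
      refine ⟨h3, ?_, hm⟩
      rcases (h3.dvd_mul).1 h4 with h5 | h5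
      · exfalso
        have h1 : l ∣ 2 ^ 2 := by simpa using h5
        exact h2 ((Nat.prime_dvd_prime_iff_eq h3 Nat.prime_two).1 (h3.dvd_of_dvd_pow h1))
      · exact h5
    · rintro ⟨h3, h4, -⟩
      exact ⟨h3, Dvd.dvd.mul_left h4 _, by omega⟩
  rw [hc]
  refine prod_congr rfl fun l hl => ?_
  obtain ⟨_, _, h2, hl'⟩ := mem_core.1 hl
  have hlp := Nat.prime_of_mem_primeFactors hl'
  unfold fac
  rw [hh_four hlp h2 hm, fact_four hlp h2 hm]

/-- the factor of a common prime -/
theorem cq_eq {n S T q : ℕ} (hsq : Squarefree n) (hn : n % 4 = 3) (hS : S ≠ 0) (hT : T ≠ 0)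
    (hq : q ∈ n.primeFactors) (hq3 : q ≠ 3) (hq5 : q ≠ 5) :
    cq n 3 5 S T q = hh n (3 * S * (5 * T)) q := by
  have hqp := Nat.prime_of_mem_primeFactors hq
  have hqn := Nat.dvd_of_mem_primeFactors hq
  obtain ⟨r, hr⟩ := hqn
  have hnq : n / q = r := Nat.div_eq_of_eq_mul_right hqp.pos hr
  have h3 : ¬ q ∣ 3 := fun h => hq3 ((Nat.prime_dvd_prime_iff_eq hqp Nat.prime_three).1 h)
  have h5 : ¬ q ∣ 5 := fun h => hq5 ((Nat.prime_dvd_prime_iff_eq hqp (by norm_num)).1 h)
  have hf : (3 * S * (5 * T)).factorization q = S.factorization q + T.factorization q := by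
    rw [Nat.factorization_mul (by omega) (by omega), Nat.factorization_mul (by norm_num) hS,
      Nat.factorization_mul (by norm_num) hT, Finsupp.add_apply, Finsupp.add_apply,
      Finsupp.add_apply, Nat.factorization_eq_zero_of_not_dvd h3,
      Nat.factorization_eq_zero_of_not_dvd h5, zero_add, zero_add]
  have hqr : q.Coprime r := by
    have h1 : Squarefree (q * r) := hr ▸ hsq
    exact Nat.coprime_of_squarefree_mul h1
  have hJ : jacobiSym (q : ℤ) r = 1 ∨ jacobiSym (q : ℤ) r = -1 :=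
    jacobiSym.eq_one_or_neg_one (by rw [Int.gcd_natCast_natCast]; exact hqr)
  have hodd : q % 2 = 1 ∧ r % 2 = 1 := by
    have h1 : (q * r) % 2 = 1 := by rw [← hr]; omega
    rcases Nat.mod_two_eq_zero_or_one q with h | h <;> rcases Nat.mod_two_eq_zero_or_one r with h' | h' <;>
      simp [Nat.mul_mod, h, h'] at h1 ⊢
  have hrec : jacobiSym (q : ℤ) r = jacobiSym (r : ℤ) q := by
    have h1 : (q * r) % 4 = 3 := by rw [← hr]; exact hn
    have h4 : q % 4 = 1 ∨ q % 4 = 3 := by omega
    have h4' : r % 4 = 1 ∨ r % 4 = 3 := by omega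
    rcases h4 with h | h
    · exact jacobiSym.quadratic_reciprocity_one_mod_four h (Nat.odd_iff.2 hodd.2)
    · rcases h4' with h' | h'
      · exact (jacobiSym.quadratic_reciprocity_one_mod_four h' (Nat.odd_iff.2 hodd.1)).symm
      · exfalso
        rw [Nat.mul_mod, h, h'] at h1
        omega
  have hm : 3 * 5 * S * T = 3 * S * (5 * T) := by ring
  unfold cq hh
  rw [hf, hnq, hm]
  set e := S.factorization q + T.factorization q with he
  have hpow : jacobiSym ((q ^ e : ℕ) : ℤ) r = (jacobiSym (q : ℤ) r) ^ e := by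
    rw [Nat.cast_pow, jacobiSym.pow_left]
  rw [hpow]
  split_ifs with h
  · have h1 : (jacobiSym (q : ℤ) r) ^ e = 1 := by
      rcases hJ with h1 | h1
      · rw [h1, one_pow]
      · rw [h1, h.neg_one_pow]
    rw [h1, mul_one]
  · have ho : Odd e := Nat.not_even_iff_odd.1 h
    have h1 : (jacobiSym (q : ℤ) r) ^ e = jacobiSym (r : ℤ) q := by
      rw [← hrec]
      rcases hJ with h1 | h1
      · rw [h1, one_pow]
      · rw [h1, ho.neg_one_pow]
    rw [h1]
    have h2 : (-((r * (3 * S * (5 * T) / q ^ e) : ℕ) : ℤ)) =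
        (r : ℤ) * (-((3 * S * (5 * T) / q ^ e : ℕ) : ℤ)) := by push_cast; ring
    rw [h2, jacobiSym.mul_left]
    ring

/-- the local sum is one at the primes of the modulus -/
theorem fl_dvd {n l : ℕ} (hl : l.Prime) (hln : l ∣ n) (hn : n ≠ 0) (v : ℕ) : fl n l v = 1 := by
  have h0 : jacobiSym (l : ℤ) n = 0 := by
    rw [jacobiSym.eq_zero_iff]
    refine ⟨hn, ?_⟩
    rw [Int.gcd_natCast_natCast, Nat.gcd_eq_left hln]
    exact hl.one_lt.ne'
  unfold fl
  rw [h0, sum_range_succ']
  simp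

theorem sum_alt (w : ℕ) : ∑ j ∈ range w, (-1 : ℤ) ^ j = if Odd w then 1 else 0 := by
  induction w with
  | zero => simp
  | succ w ih =>
    rw [sum_range_succ, ih]
    by_cases h : Odd w
    · rw [if_pos h, h.neg_one_pow, if_neg (by rw [Nat.not_odd_iff_even]; exact h.add_one)]
      ring
    · have h' : Even w := Nat.not_odd_iff_even.1 h
      rw [if_neg h, h'.neg_one_pow, if_pos h'.add_one]
      ring

/-- **evaluation of the divisor sum** -/
theorem WW_eval {n S T : ℕ} (hsq : Squarefree n) (hn : n % 4 = 3) (h3 : n % 3 = 2)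
    (h5 : n % 5 = 2 ∨ n % 5 = 3) (hS : 0 < S) (hT : 0 < T)
    (hJ : ∀ p ∈ n.primeFactors, (p ∣ 3 * S ↔ p ∣ 5 * T))
    (hl : ∀ l : ℕ, l.Prime → l ≠ 2 → ¬ l ∣ n → l ∣ 3 * S → ¬ l ∣ 5 * T) :
    WW n (3 * S) (5 * T) = -(fl n 2 (S.factorization 2) * fl n 2 (T.factorization 2) *
      (((3 * S).factorization 3 : ℤ) * ((if Odd ((5 * T).factorization 5) then 1 else 0) *
        ∏ l ∈ core (3 * S * (5 * T)), fac n (3 * S * (5 * T)) l))) := by
  have hn0 : n ≠ 0 := hsq.ne_zero
  have hn3 : ¬ 3 ∣ n := by omega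
  have hn5 : ¬ 5 ∣ n := by omega
  have p5 : Nat.Prime 5 := by norm_num
  have hT3 : ¬ 3 ∣ 5 * T := hl 3 Nat.prime_three (by norm_num) hn3 (dvd_mul_right _ _)
  have hS5 : ¬ 5 ∣ 3 * S := fun h => hl 5 p5 (by norm_num) hn5 h (dvd_mul_right _ _)
  have hJ' : ∀ p ∈ n.primeFactors, (p ∣ S ↔ p ∣ T) := by
    intro p hp
    have hpp := Nat.prime_of_mem_primeFactors hp
    have hpn := Nat.dvd_of_mem_primeFactors hp
    have e3 : p ∣ 3 * S ↔ p ∣ S := by
      rw [hpp.dvd_mul]
      refine or_iff_right fun h => hn3 ?_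
      rw [Nat.prime_dvd_prime_iff_eq hpp Nat.prime_three] at h
      exact h ▸ hpn
    have e5 : p ∣ 5 * T ↔ p ∣ T := by
      rw [hpp.dvd_mul]
      refine or_iff_right fun h => hn5 ?_
      rw [Nat.prime_dvd_prime_iff_eq hpp p5] at h
      exact h ▸ hpn
    rw [← e3, ← e5]
    exact hJ p hp
  have hk : Nat.Coprime 3 n := (Nat.Prime.coprime_iff_not_dvd Nat.prime_three).2 hn3
  have hl5 : Nat.Coprime 5 n := (Nat.Prime.coprime_iff_not_dvd p5).2 hn5
  rw [WW_eq hn3 hT, dsum hsq hk hl5 hS hT hJ']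
  have hneg : jacobiSym (-((3 : ℕ) : ℤ)) n = -1 := by
    rw [jacobiSym.neg _ (Nat.odd_iff.2 (by omega)), jac3 hn h3, ZMod.χ₄_nat_three_mod_four hn]
    norm_num
  rw [hneg]
  set m := 3 * S * (5 * T) with hm
  have hm0 : m ≠ 0 := by
    rw [hm]
    have : 0 < 3 * S * (5 * T) := by positivity
    omega
  set P := insert 5 (insert 3 (insert 2 (core m))) with hP
  have hcp : ∀ l ∈ core m, l.Prime := fun l hl =>
    Nat.prime_of_mem_primeFactors (mem_core.1 hl).2.2.2
  have hPp : ∀ p ∈ P, p.Prime := by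
    intro p hp
    rw [hP, mem_insert, mem_insert, mem_insert] at hp
    rcases hp with rfl | rfl | rfl | h
    · exact p5
    · exact Nat.prime_three
    · exact Nat.prime_two
    · exact hcp p h
  have hPm : ∀ l : ℕ, l.Prime → l ∣ m → l ∈ P := by
    intro l hlp hlm
    rw [hP, mem_insert, mem_insert, mem_insert, mem_core]
    by_cases h5 : l = 5
    · exact Or.inl h5
    by_cases h3 : l = 3
    · exact Or.inr (Or.inl h3)
    by_cases h2 : l = 2
    · exact Or.inr (Or.inr (Or.inl h2))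
    · exact Or.inr (Or.inr (Or.inr ⟨h5, h3, h2, Nat.mem_primeFactors.2 ⟨hlp, hlm, hm0⟩⟩))
  have hSm : S ∣ m := ⟨3 * (5 * T), by rw [hm]; ring⟩
  have hTm : T ∣ m := ⟨3 * S * 5, by rw [hm]; ring⟩
  rw [F_prod n hS.ne' P hPp fun p hp => hPm p (Nat.prime_of_mem_primeFactors hp)
      ((Nat.dvd_of_mem_primeFactors hp).trans hSm),
    F_prod n hT.ne' P hPp fun p hp => hPm p (Nat.prime_of_mem_primeFactors hp)
      ((Nat.dvd_of_mem_primeFactors hp).trans hTm)]
  have n2 : (2 : ℕ) ∉ core m := fun h => (mem_core.1 h).2.2.1 rfl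
  have n3 : (3 : ℕ) ∉ insert 2 (core m) := by
    rw [mem_insert]
    rintro (h | h)
    · omega
    · exact (mem_core.1 h).2.1 rfl
  have n5 : (5 : ℕ) ∉ insert 3 (insert 2 (core m)) := by
    rw [mem_insert, mem_insert]
    rintro (h | h | h)
    · omega
    · omega
    · exact (mem_core.1 h).1 rfl
  -- the factors at 3 and 5
  have v3T : T.factorization 3 = 0 :=
    Nat.factorization_eq_zero_of_not_dvd fun h => hT3 (Dvd.dvd.mul_left h _)
  have v5S : S.factorization 5 = 0 :=
    Nat.factorization_eq_zero_of_not_dvd fun h => hS5 (Dvd.dvd.mul_left h _)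
  have v3S : (3 * S).factorization 3 = S.factorization 3 + 1 := by
    rw [Nat.factorization_mul (by norm_num) hS.ne', Finsupp.add_apply,
      Nat.prime_three.factorization_self, add_comm]
  have v5T : (5 * T).factorization 5 = T.factorization 5 + 1 := by
    rw [Nat.factorization_mul (by norm_num) hT.ne', Finsupp.add_apply,
      p5.factorization_self, add_comm]
  have f3 : fl n 3 (S.factorization 3) = ((3 * S).factorization 3 : ℤ) := by
    unfold fl
    rw [jac3 hn h3, v3S]
    simp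
  have f5 : fl n 5 (T.factorization 5) = if Odd ((5 * T).factorization 5) then 1 else 0 := by
    unfold fl
    rw [jac5 hn h5, v5T, sum_alt]
  -- the other factors
  have hcore : (∏ l ∈ core m, fl n l (S.factorization l)) * (∏ l ∈ core m, fl n l (T.factorization l)) *
      ∏ q ∈ n.primeFactors.filter (· ∣ S), (1 + cq n 3 5 S T q) = ∏ l ∈ core m, fac n m l := by
    have h1 : n.primeFactors.filter (· ∣ S) = (core m).filter (· ∣ n) := by
      ext l
      rw [mem_filter, mem_filter, mem_core, Nat.mem_primeFactors, Nat.mem_primeFactors]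
      constructor
      · rintro ⟨⟨h1, h2, -⟩, h4⟩
        refine ⟨⟨?_, ?_, ?_, h1, h4.trans hSm, hm0⟩, h2⟩
        · rintro rfl; exact hn5 h2
        · rintro rfl; exact hn3 h2
        · rintro rfl; omega
      · rintro ⟨⟨g5, g3, g2, h1, h2, -⟩, h4⟩
        refine ⟨⟨h1, h4, hn0⟩, ?_⟩
        have hmem : l ∈ n.primeFactors := Nat.mem_primeFactors.2 ⟨h1, h4, hn0⟩
        rcases (h1.dvd_mul).1 h2 with h | h
        · rcases (h1.dvd_mul).1 h with h' | h'
          · exact absurd ((Nat.prime_dvd_prime_iff_eq h1 Nat.prime_three).1 h') g3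
          · exact h'
        · rcases (h1.dvd_mul).1 h with h' | h'
          · exact absurd ((Nat.prime_dvd_prime_iff_eq h1 p5).1 h') g5
          · exact (hJ' l hmem).2 h'
    rw [h1, prod_filter, ← prod_mul_distrib, ← prod_mul_distrib]
    refine prod_congr rfl fun l hlc => ?_
    obtain ⟨g5, g3, g2, hlm⟩ := mem_core.1 hlc
    have hlp := Nat.prime_of_mem_primeFactors hlm
    unfold fac
    by_cases hln : l ∣ n
    · rw [if_pos hln, if_pos hln, fl_dvd hlp hln hn0, fl_dvd hlp hln hn0,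
        cq_eq hsq hn hS.ne' hT.ne' (Nat.mem_primeFactors.2 ⟨hlp, hln, hn0⟩) g3 g5]
      ring
    · rw [if_neg hln, if_neg hln, mul_one]
      have nl3 : ¬ l ∣ 3 := fun h => g3 ((Nat.prime_dvd_prime_iff_eq hlp Nat.prime_three).1 h)
      have nl5 : ¬ l ∣ 5 := fun h => g5 ((Nat.prime_dvd_prime_iff_eq hlp p5).1 h)
      have hf : m.factorization l = S.factorization l + T.factorization l := by
        rw [hm, Nat.factorization_mul (by omega) (by omega),
          Nat.factorization_mul (by norm_num) hS.ne',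
          Nat.factorization_mul (by norm_num) hT.ne', Finsupp.add_apply, Finsupp.add_apply,
          Finsupp.add_apply, Nat.factorization_eq_zero_of_not_dvd nl3,
          Nat.factorization_eq_zero_of_not_dvd nl5, zero_add, zero_add]
      have hodd : l % 2 = 1 := by
        have := hlp.eq_two_or_odd
        tauto
      rw [jac_neg hn hodd]
      have hfl : ∀ v, fl n l v = ∑ j ∈ range (v + 1), jacobiSym (l : ℤ) n ^ j := fun _ => rfl
      rw [← hfl, hf]
      by_cases hlS : l ∣ 3 * S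
      · have hlT := hl l hlp g2 hln hlS
        have h0 : T.factorization l = 0 :=
          Nat.factorization_eq_zero_of_not_dvd fun h => hlT (Dvd.dvd.mul_left h _)
        rw [h0, fl_zero, mul_one, add_zero]
      · have h0 : S.factorization l = 0 :=
          Nat.factorization_eq_zero_of_not_dvd fun h => hlS (Dvd.dvd.mul_left h _)
        rw [h0, fl_zero, one_mul, zero_add]
  rw [hP, prod_insert n5, prod_insert n3, prod_insert n2, prod_insert n5, prod_insert n3,
    prod_insert n2, v3T, v5S, fl_zero, fl_zero, f3, f5, ← hcore]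
  ring

/-! ### C2A, C2B -/

theorem lrest_four {n m : ℕ} (hm : m ≠ 0) :
    lrest n (4 * m) = (if Odd (m.factorization 5) then 1 else 0) *
      (tw n (4 * m) * ∏ l ∈ core m, fac n m l) := by
  have p5 : Nat.Prime 5 := by norm_num
  unfold lrest
  rw [fact_four p5 (by norm_num) hm]
  split_ifs with h
  · rw [one_mul, ← core_four hm]
    rfl
  · rw [zero_mul]

theorem lrest_one {n m : ℕ} :
    lrest n m = (if Odd (m.factorization 5) then 1 else 0) *
      (tw n m * ∏ l ∈ core m, fac n m l) := by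
  unfold lrest
  split_ifs with h
  · rw [one_mul]
    rfl
  · rw [zero_mul]

theorem tw_eq {n m : ℕ} (hn : n % 4 = 3) : tw n m = ∑ j ∈ range (m.factorization 2 - 1),
    (jacobiSym ((2 : ℕ) : ℤ) n) ^ j := by
  unfold tw
  rw [jac2 hn]

/-- the common part of C2A and C2B -/
theorem prep {n N S T : ℕ} (hc : Cls0 n) (hN : N = n ∨ N = 2 * n) (hS : 0 < S) (hT : 0 < T)
    (hST : 3 * S + 5 * T = N) :
    WW n (3 * S) (5 * T) = -(fl n 2 (S.factorization 2) * fl n 2 (T.factorization 2) *
      (((3 * S).factorization 3 : ℤ) * ((if Odd ((5 * T).factorization 5) then 1 else 0) *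
        ∏ l ∈ core (3 * S * (5 * T)), fac n (3 * S * (5 * T)) l))) ∧
    (3 * S * (5 * T)).factorization 3 = (3 * S).factorization 3 ∧
    (3 * S * (5 * T)).factorization 5 = (5 * T).factorization 5 ∧
    (3 * S * (5 * T)).factorization 2 = S.factorization 2 + T.factorization 2 := by
  obtain ⟨hsq, h60⟩ := hc
  have hn4 : n % 4 = 3 := by omega
  have hn3 : n % 3 = 2 := by omega
  have hn5 : n % 5 = 2 ∨ n % 5 = 3 := by omega
  have p5 : Nat.Prime 5 := by norm_num
  have key : ∀ l : ℕ, l.Prime → l ≠ 2 → (l ∣ N ↔ l ∣ n) := by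
    intro l hl h2
    rcases hN with h | h
    · rw [h]
    · rw [h, hl.dvd_mul]
      exact or_iff_right fun h' => h2 ((Nat.prime_dvd_prime_iff_eq hl Nat.prime_two).1 h')
  have hJ : ∀ p ∈ n.primeFactors, (p ∣ 3 * S ↔ p ∣ 5 * T) := by
    intro p hp
    have hpn := Nat.dvd_of_mem_primeFactors hp
    have hpN : p ∣ 3 * S + 5 * T := by
      rw [hST]
      rcases hN with h | h
      · rw [h]; exact hpn
      · rw [h]; exact Dvd.dvd.mul_left hpn 2
    exact ⟨fun h => (Nat.dvd_add_right h).1 hpN, fun h => (Nat.dvd_add_left h).1 hpN⟩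
  have hl : ∀ l : ℕ, l.Prime → l ≠ 2 → ¬ l ∣ n → l ∣ 3 * S → ¬ l ∣ 5 * T := by
    intro l hlp h2 hln h3 h5
    apply hln
    rw [← key l hlp h2, ← hST]
    exact dvd_add h3 h5
  have h3T : ¬ 3 ∣ 5 * T := hl 3 Nat.prime_three (by norm_num) (by omega) (dvd_mul_right _ _)
  have h5S : ¬ 5 ∣ 3 * S := fun h => hl 5 p5 (by norm_num) (by omega) h (dvd_mul_right _ _)
  refine ⟨WW_eval hsq hn4 hn3 hn5 hS hT hJ hl, ?_, ?_, ?_⟩
  · rw [Nat.factorization_mul (by omega) (by omega), Finsupp.add_apply,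
      Nat.factorization_eq_zero_of_not_dvd h3T, add_zero]
  · rw [Nat.factorization_mul (by omega) (by omega), Finsupp.add_apply,
      Nat.factorization_eq_zero_of_not_dvd h5S, zero_add]
  · rw [Nat.factorization_mul (by omega) (by omega), Nat.factorization_mul (by norm_num) hS.ne',
      Nat.factorization_mul (by norm_num) hT.ne', Finsupp.add_apply, Finsupp.add_apply,
      Finsupp.add_apply, Nat.factorization_eq_zero_of_not_dvd (by norm_num : ¬ 2 ∣ 3),
      Nat.factorization_eq_zero_of_not_dvd (by norm_num : ¬ 2 ∣ 5), zero_add, zero_add]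

theorem fact2_four {m : ℕ} (hm : m ≠ 0) : (4 * m).factorization 2 = m.factorization 2 + 2 := by
  rw [Nat.factorization_mul (by norm_num) hm, Finsupp.add_apply]
  have : (4 : ℕ).factorization 2 = 2 := by
    rw [show (4 : ℕ) = 2 ^ 2 by norm_num, Nat.prime_two.factorization_pow]
    simp
  rw [this, add_comm]

theorem fact3_four {m : ℕ} (hm : m ≠ 0) : (4 * m).factorization 3 = m.factorization 3 :=
  fact_four Nat.prime_three (by norm_num) hm

theorem t_C2A : S_C2A := by
  intro n hc T hT hTn h5 h3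
  obtain ⟨T1, rfl⟩ := h5
  obtain ⟨S1, hS1⟩ := h3
  have hS0 : 0 < S1 := by omega
  have hT0 : 0 < T1 := by omega
  rw [hS1]
  obtain ⟨e1, e2, e3, e4⟩ := prep hc (Or.inl rfl) hS0 hT0 (by omega)
  have hn4 : n % 4 = 3 := by
    have := hc.2
    omega
  have hm0 : 3 * S1 * (5 * T1) ≠ 0 := by
    have : 0 < 3 * S1 * (5 * T1) := by positivity
    omega
  have e5 : 4 * (3 * S1) * (5 * T1) = 4 * (3 * S1 * (5 * T1)) := by ring
  rw [e1, e5]
  unfold loc3
  rw [lrest_four hm0, fact3_four hm0, e2, e3, tw_eq hn4, fact2_four hm0, e4]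
  have e6 : fl n 2 (S1.factorization 2) * fl n 2 (T1.factorization 2) =
      ∑ j ∈ range (S1.factorization 2 + T1.factorization 2 + 2 - 1),
        (jacobiSym ((2 : ℕ) : ℤ) n) ^ j := by
    have h1 : S1.factorization 2 = 0 ∨ T1.factorization 2 = 0 := by
      by_cases h : 2 ∣ S1
      · right
        apply Nat.factorization_eq_zero_of_not_dvd
        omega
      · left
        exact Nat.factorization_eq_zero_of_not_dvd h
    rcases h1 with h | h
    · rw [h, fl_zero, one_mul]
      unfold fl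
      congr 2
      omega
    · rw [h, fl_zero, mul_one]
      unfold fl
      congr 2
  rw [e6]
  ring

theorem t_C2B : S_C2B := by
  intro n hc T hT hTn h5 h3
  obtain ⟨T1, rfl⟩ := h5
  obtain ⟨S1, hS1⟩ := h3
  have hS0 : 0 < S1 := by omega
  have hT0 : 0 < T1 := by omega
  rw [hS1]
  obtain ⟨e1, e2, e3, e4⟩ := prep hc (Or.inr rfl) hS0 hT0 (by omega)
  have hn4 : n % 4 = 3 := by
    have := hc.2
    omega
  have hm0 : 3 * S1 * (5 * T1) ≠ 0 := by
    have : 0 < 3 * S1 * (5 * T1) := by positivity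
    omega
  have e5 : 4 * (3 * S1) * (5 * T1) = 4 * (3 * S1 * (5 * T1)) := by ring
  have hep : ep2 n = jacobiSym ((2 : ℕ) : ℤ) n := by
    unfold ep2
    rw [jac2 hn4]
  rw [e1, e5, hep]
  unfold loc3
  rw [lrest_four hm0, fact3_four hm0, lrest_one, e2, e3, tw_eq hn4, tw_eq hn4, fact2_four hm0, e4]
  by_cases h2 : 2 ∣ 5 * T1
  · rw [if_pos h2]
    have h2T : 2 ∣ T1 := by omega
    have h2S : 2 ∣ S1 := by omega
    have e6 : fl n 2 (S1.factorization 2) * fl n 2 (T1.factorization 2) =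
        (∑ j ∈ range (S1.factorization 2 + T1.factorization 2 + 2 - 1),
          (jacobiSym ((2 : ℕ) : ℤ) n) ^ j) + jacobiSym ((2 : ℕ) : ℤ) n *
        ∑ j ∈ range (S1.factorization 2 + T1.factorization 2 - 1),
          (jacobiSym ((2 : ℕ) : ℤ) n) ^ j := by
      have hone : ∀ m : ℕ, m ≠ 0 → 2 ∣ m → ¬ 4 ∣ m → m.factorization 2 = 1 := by
        intro m hm h h4
        have h1 := Nat.prime_two.factorization_pos_of_dvd hm h
        by_contra hne
        have h2 : 2 ≤ m.factorization 2 := by omega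
        apply h4
        have h3 := (Nat.pow_dvd_pow 2 h2).trans (Nat.ordProj_dvd m 2)
        simpa using h3
      have hpoly : ∀ (x : ℤ) (w : ℕ), (∑ j ∈ range (1 + 1), x ^ j) * ∑ j ∈ range (w + 1), x ^ j =
          (∑ j ∈ range (w + 2), x ^ j) + x * ∑ j ∈ range w, x ^ j := by
        intro x w
        have h1 : ∑ j ∈ range (w + 2), x ^ j = 1 + x * ∑ j ∈ range (w + 1), x ^ j := by
          rw [sum_range_succ' _ (w + 1), mul_sum, add_comm, pow_zero]
          congr 1
          exact sum_congr rfl fun j _ => pow_succ' x j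
        have h2 : ∑ j ∈ range (w + 1), x ^ j = 1 + x * ∑ j ∈ range w, x ^ j := by
          rw [sum_range_succ' _ w, mul_sum, add_comm, pow_zero]
          congr 1
          exact sum_congr rfl fun j _ => pow_succ' x j
        have h3 : ∑ j ∈ range (1 + 1), x ^ j = 1 + x := by
          rw [sum_range_succ, sum_range_succ, sum_range_zero]
          ring
        rw [h1, h3]
        linear_combination h2
      by_cases h4 : 4 ∣ S1
      · have hw := hone T1 hT0.ne' h2T (by omega)
        rw [hw, mul_comm]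
        unfold fl
        rw [hpoly]
        rw [show S1.factorization 2 + 1 + 2 - 1 = S1.factorization 2 + 2 by omega,
          show S1.factorization 2 + 1 - 1 = S1.factorization 2 by omega]
      · have hw := hone S1 hS0.ne' h2S h4
        rw [hw]
        unfold fl
        rw [hpoly]
        rw [show 1 + T1.factorization 2 + 2 - 1 = T1.factorization 2 + 2 by omega,
          show 1 + T1.factorization 2 - 1 = T1.factorization 2 by omega]
    rw [e6]
    ring
  · rw [if_neg h2, add_zero]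
    have hT2 : T1.factorization 2 = 0 := Nat.factorization_eq_zero_of_not_dvd (by omega)
    have hS2 : S1.factorization 2 = 0 := Nat.factorization_eq_zero_of_not_dvd (by omega)
    rw [hT2, hS2, fl_zero]
    simp

end Pool.Agent.Run7.h483.P15
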