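import Pool.Agent.N969.P15.Defs

/-!
# P15 (helper483): HE, the Hecke relations at `2`
-/

set_option autoImplicit false

namespace Pool.Agent.Run7.h483.P15

open Finset
open Pool.Agent.N969.P15 (V3 ip vec rr rr0 ep2 S_HE)

/-- the ternary form -/
def Q3 (x y z : ℤ) : ℤ := 3 * x * x + 7 * y * y + 7 * z * z - 2 * x * y - 2 * x * z - 6 * y * z

theorem ip_self (v : V3) : ip v v = Q3 (v 0) (v 1) (v 2) := by
  unfold ip Q3
  ring

theorem sq_le_Q3 (x y z : ℤ) : x ^ 2 ≤ Q3 x y z ∧ y ^ 2 ≤ Q3 x y z ∧ z ^ 2 ≤ Q3 x y z := by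
  unfold Q3
  refine ⟨?_, ?_, ?_⟩ <;>
    nlinarith [sq_nonneg (y - z), sq_nonneg (x - y), sq_nonneg (x - z), sq_nonneg x, sq_nonneg y,
      sq_nonneg z]

theorem mem_vec {n : ℤ} {v : V3} : v ∈ vec n ↔ ip v v = n := by
  unfold vec
  rw [mem_filter, Fintype.mem_piFinset]
  refine ⟨fun h => h.2, fun h => ⟨fun i => ?_, h⟩⟩
  obtain ⟨h0, h1, h2⟩ := sq_le_Q3 (v 0) (v 1) (v 2)
  rw [← ip_self, h] at h0 h1 h2
  rw [mem_Icc]
  have key : ∀ x : ℤ, x ^ 2 ≤ n → -n ≤ x ∧ x ≤ n := by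
    intro x hx
    have h3 := Int.le_self_sq x
    have h4 := Int.le_self_sq (-x)
    rw [neg_sq] at h4
    constructor <;> linarith
  fin_cases i
  · exact key _ h0
  · exact key _ h1
  · exact key _ h2

/-! ### the three similitudes -/

def m1 (w : V3) : V3 := ![-2 * w 0, -w 0 + 2 * w 1, -w 0 + 2 * w 2]
def m2 (w : V3) : V3 := ![-w 0 + 3 * w 2, 2 * w 1, w 0 + w 2]
def m3 (w : V3) : V3 := ![-w 0 + 3 * w 1, w 0 + w 1, 2 * w 2]
def m0 (w : V3) : V3 := ![2 * w 0, 2 * w 1, 2 * w 2]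

def P1 (v : V3) : Prop := v 0 % 2 = 0 ∧ (v 1 + v 0 / 2) % 2 = 0 ∧ (v 2 + v 0 / 2) % 2 = 0
def P2 (v : V3) : Prop := v 1 % 2 = 0 ∧ (v 0 + v 2) % 4 = 0
def P3 (v : V3) : Prop := v 2 % 2 = 0 ∧ (v 0 + v 1) % 4 = 0
def P0 (v : V3) : Prop := v 0 % 2 = 0 ∧ v 1 % 2 = 0 ∧ v 2 % 2 = 0

instance (v : V3) : Decidable (P1 v) := by unfold P1; infer_instance
instance (v : V3) : Decidable (P2 v) := by unfold P2; infer_instance
instance (v : V3) : Decidable (P3 v) := by unfold P3; infer_instance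
instance (v : V3) : Decidable (P0 v) := by unfold P0; infer_instance

theorem v3_ext {v w : V3} (h0 : v 0 = w 0) (h1 : v 1 = w 1) (h2 : v 2 = w 2) : v = w := by
  funext i
  fin_cases i
  · exact h0
  · exact h1
  · exact h2

theorem sum_m1 (n : ℤ) (g : V3 → ℤ) :
    ∑ w ∈ vec n, g (m1 w) = ∑ v ∈ (vec (4 * n)).filter P1, g v := by
  refine sum_nbij' m1 (fun v => ![-(v 0 / 2), (v 1 - v 0 / 2) / 2, (v 2 - v 0 / 2) / 2])
    ?_ ?_ ?_ ?_ ?_
  · intro w hw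
    rw [mem_vec, ip_self] at hw
    rw [mem_filter, mem_vec, ip_self]
    refine ⟨?_, ?_⟩
    · rw [← hw]
      simp only [m1, Matrix.cons_val_zero, Matrix.cons_val_one, Matrix.cons_val]
      unfold Q3
      ring
    · simp only [P1, m1, Matrix.cons_val_zero, Matrix.cons_val_one, Matrix.cons_val]
      omega
  · intro v hv
    rw [mem_filter, mem_vec, ip_self] at hv
    obtain ⟨h, h0, h1, h2⟩ := hv
    rw [mem_vec, ip_self]
    simp only [Matrix.cons_val_zero, Matrix.cons_val_one, Matrix.cons_val]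
    obtain ⟨a, ha⟩ : ∃ a, v 0 = 2 * a := ⟨v 0 / 2, by omega⟩
    obtain ⟨b, hb⟩ : ∃ b, v 1 = 2 * b + a := ⟨(v 1 - a) / 2, by omega⟩
    obtain ⟨c, hc⟩ : ∃ c, v 2 = 2 * c + a := ⟨(v 2 - a) / 2, by omega⟩
    have e0 : v 0 / 2 = a := by omega
    have e1 : (v 1 - a) / 2 = b := by omega
    have e2 : (v 2 - a) / 2 = c := by omega
    rw [e0, e1, e2]
    rw [ha, hb, hc] at h
    unfold Q3 at h ⊢
    linarith
  · intro w _
    apply v3_ext <;> simp only [m1, Matrix.cons_val_zero, Matrix.cons_val_one, Matrix.cons_val] <;>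
      omega
  · intro v hv
    obtain ⟨h0, h1, h2⟩ := (mem_filter.1 hv).2
    apply v3_ext <;> simp only [m1, Matrix.cons_val_zero, Matrix.cons_val_one, Matrix.cons_val] <;>
      omega
  · intro w _
    rfl

theorem sum_m2 (n : ℤ) (g : V3 → ℤ) :
    ∑ w ∈ vec n, g (m2 w) = ∑ v ∈ (vec (4 * n)).filter P2, g v := by
  refine sum_nbij' m2 (fun v => ![v 2 - (v 0 + v 2) / 4, v 1 / 2, (v 0 + v 2) / 4])
    ?_ ?_ ?_ ?_ ?_
  · intro w hw
    rw [mem_vec, ip_self] at hw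
    rw [mem_filter, mem_vec, ip_self]
    refine ⟨?_, ?_⟩
    · rw [← hw]
      simp only [m2, Matrix.cons_val_zero, Matrix.cons_val_one, Matrix.cons_val]
      unfold Q3
      ring
    · simp only [P2, m2, Matrix.cons_val_zero, Matrix.cons_val_one, Matrix.cons_val]
      omega
  · intro v hv
    rw [mem_filter, mem_vec, ip_self] at hv
    obtain ⟨h, h0, h1⟩ := hv
    rw [mem_vec, ip_self]
    simp only [Matrix.cons_val_zero, Matrix.cons_val_one, Matrix.cons_val]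
    obtain ⟨b, hb⟩ : ∃ b, v 1 = 2 * b := ⟨v 1 / 2, by omega⟩
    obtain ⟨c, hc⟩ : ∃ c, v 0 + v 2 = 4 * c := ⟨(v 0 + v 2) / 4, by omega⟩
    have e0 : v 1 / 2 = b := by omega
    have e1 : (v 0 + v 2) / 4 = c := by omega
    have e2 : v 0 = 4 * c - v 2 := by omega
    rw [e0, e1]
    rw [e2, hb] at h
    unfold Q3 at h ⊢
    linarith
  · intro w _
    apply v3_ext <;> simp only [m2, Matrix.cons_val_zero, Matrix.cons_val_one, Matrix.cons_val] <;>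
      omega
  · intro v hv
    obtain ⟨h0, h1⟩ := (mem_filter.1 hv).2
    apply v3_ext <;> simp only [m2, Matrix.cons_val_zero, Matrix.cons_val_one, Matrix.cons_val] <;>
      omega
  · intro w _
    rfl

theorem sum_m3 (n : ℤ) (g : V3 → ℤ) :
    ∑ w ∈ vec n, g (m3 w) = ∑ v ∈ (vec (4 * n)).filter P3, g v := by
  refine sum_nbij' m3 (fun v => ![v 1 - (v 0 + v 1) / 4, (v 0 + v 1) / 4, v 2 / 2])
    ?_ ?_ ?_ ?_ ?_
  · intro w hw
    rw [mem_vec, ip_self] at hw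
    rw [mem_filter, mem_vec, ip_self]
    refine ⟨?_, ?_⟩
    · rw [← hw]
      simp only [m3, Matrix.cons_val_zero, Matrix.cons_val_one, Matrix.cons_val]
      unfold Q3
      ring
    · simp only [P3, m3, Matrix.cons_val_zero, Matrix.cons_val_one, Matrix.cons_val]
      omega
  · intro v hv
    rw [mem_filter, mem_vec, ip_self] at hv
    obtain ⟨h, h0, h1⟩ := hv
    rw [mem_vec, ip_self]
    simp only [Matrix.cons_val_zero, Matrix.cons_val_one, Matrix.cons_val]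
    obtain ⟨b, hb⟩ : ∃ b, v 2 = 2 * b := ⟨v 2 / 2, by omega⟩
    obtain ⟨c, hc⟩ : ∃ c, v 0 + v 1 = 4 * c := ⟨(v 0 + v 1) / 4, by omega⟩
    have e0 : v 2 / 2 = b := by omega
    have e1 : (v 0 + v 1) / 4 = c := by omega
    have e2 : v 0 = 4 * c - v 1 := by omega
    rw [e0, e1]
    rw [e2, hb] at h
    unfold Q3 at h ⊢
    linarith
  · intro w _
    apply v3_ext <;> simp only [m3, Matrix.cons_val_zero, Matrix.cons_val_one, Matrix.cons_val] <;>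
      omega
  · intro v hv
    obtain ⟨h0, h1⟩ := (mem_filter.1 hv).2
    apply v3_ext <;> simp only [m3, Matrix.cons_val_zero, Matrix.cons_val_one, Matrix.cons_val] <;>
      omega
  · intro w _
    rfl

theorem sum_m0 (n : ℤ) (g : V3 → ℤ) :
    ∑ w ∈ vec n, g (m0 w) = ∑ v ∈ (vec (4 * n)).filter P0, g v := by
  refine sum_nbij' m0 (fun v => ![v 0 / 2, v 1 / 2, v 2 / 2])
    ?_ ?_ ?_ ?_ ?_
  · intro w hw
    rw [mem_vec, ip_self] at hw
    rw [mem_filter, mem_vec, ip_self]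
    refine ⟨?_, ?_⟩
    · rw [← hw]
      simp only [m0, Matrix.cons_val_zero, Matrix.cons_val_one, Matrix.cons_val]
      unfold Q3
      ring
    · simp only [P0, m0, Matrix.cons_val_zero, Matrix.cons_val_one, Matrix.cons_val]
      omega
  · intro v hv
    rw [mem_filter, mem_vec, ip_self] at hv
    obtain ⟨h, h0, h1, h2⟩ := hv
    rw [mem_vec, ip_self]
    simp only [Matrix.cons_val_zero, Matrix.cons_val_one, Matrix.cons_val]
    obtain ⟨a, ha⟩ : ∃ a, v 0 = 2 * a := ⟨v 0 / 2, by omega⟩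
    obtain ⟨b, hb⟩ : ∃ b, v 1 = 2 * b := ⟨v 1 / 2, by omega⟩
    obtain ⟨c, hc⟩ : ∃ c, v 2 = 2 * c := ⟨v 2 / 2, by omega⟩
    have e0 : v 0 / 2 = a := by omega
    have e1 : v 1 / 2 = b := by omega
    have e2 : v 2 / 2 = c := by omega
    rw [e0, e1, e2]
    rw [ha, hb, hc] at h
    unfold Q3 at h ⊢
    linarith
  · intro w _
    apply v3_ext <;> simp only [m0, Matrix.cons_val_zero, Matrix.cons_val_one, Matrix.cons_val] <;>
      omega
  · intro v hv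
    obtain ⟨h0, h1, h2⟩ := (mem_filter.1 hv).2
    apply v3_ext <;> simp only [m0, Matrix.cons_val_zero, Matrix.cons_val_one, Matrix.cons_val] <;>
      omega
  · intro w _
    rfl

/-! ### the finite checks -/

theorem fin1 : ∀ a b c : Fin 8, Q3 (a : ℕ) (b : ℕ) (c : ℕ) % 16 = 12 →
    ¬ (((a : ℕ) : ℤ) % 2 = 0 ∧ ((b : ℕ) : ℤ) % 2 = 0 ∧ ((c : ℕ) : ℤ) % 2 = 0) →
    (if ((a : ℕ) : ℤ) % 2 = 0 ∧ (((b : ℕ) : ℤ) + ((a : ℕ) : ℤ) / 2) % 2 = 0 ∧
        (((c : ℕ) : ℤ) + ((a : ℕ) : ℤ) / 2) % 2 = 0 then (1 : ℤ) else 0) +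
      (if ((b : ℕ) : ℤ) % 2 = 0 ∧ (((a : ℕ) : ℤ) + ((c : ℕ) : ℤ)) % 4 = 0 then 1 else 0) +
      (if ((c : ℕ) : ℤ) % 2 = 0 ∧ (((a : ℕ) : ℤ) + ((b : ℕ) : ℤ)) % 4 = 0 then 1 else 0) = 1 := by
  decide +kernel

theorem fin2 : ∀ a b c : Fin 4, Q3 (a : ℕ) (b : ℕ) (c : ℕ) % 4 = 3 →
    (if ((a : ℕ) : ℤ) % 2 = 0 then (1 : ℤ) else 0) +
      (if (((a : ℕ) : ℤ) + ((c : ℕ) : ℤ)) % 2 = 0 then 1 else 0) +
      (if (((a : ℕ) : ℤ) + ((b : ℕ) : ℤ)) % 2 = 0 then 1 else 0) =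
    1 + (if Q3 (a : ℕ) (b : ℕ) (c : ℕ) % 8 = 7 then 1 else -1) := by
  decide +kernel

theorem fin3 : ∀ a b c : Fin 3, Q3 (a : ℕ) (b : ℕ) (c : ℕ) % 3 = 2 →
    (if (((a : ℕ) : ℤ) - ((b : ℕ) : ℤ) - ((c : ℕ) : ℤ)) % 3 = 0 then (1 : ℤ) else 0) +
      (if (((a : ℕ) : ℤ) - ((b : ℕ) : ℤ) + ((c : ℕ) : ℤ)) % 3 = 0 then 1 else 0) +
      (if (((a : ℕ) : ℤ) + ((b : ℕ) : ℤ) - ((c : ℕ) : ℤ)) % 3 = 0 then 1 else 0) =
    2 - (if (((b : ℕ) : ℤ) + ((c : ℕ) : ℤ)) % 3 = 0 then 1 else 0) := by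
  decide +kernel

/-- reduction of an integer to a residue -/
theorem red (k : ℕ) (hk : 0 < k) (x : ℤ) : ∃ (q : ℤ) (r : Fin k), x = k * q + ((r : ℕ) : ℤ) := by
  have hk' : (0 : ℤ) < k := by exact_mod_cast hk
  have h1 := Int.emod_nonneg x hk'.ne'
  have h2 := Int.emod_lt_of_pos x hk'
  refine ⟨x / k, ⟨(x % k).toNat, by omega⟩, ?_⟩
  show x = k * (x / k) + (((x % k).toNat : ℕ) : ℤ)
  rw [Int.toNat_of_nonneg h1]
  exact (Int.mul_ediv_add_emod x k).symm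

theorem cnt_odd {n : ℤ} (hn : n % 4 = 3) {v : V3} (hv : ip v v = 4 * n) (h0 : ¬ P0 v) :
    (if P1 v then (1 : ℤ) else 0) + (if P2 v then 1 else 0) + (if P3 v then 1 else 0) = 1 := by
  obtain ⟨q0, a, ha⟩ := red 8 (by norm_num) (v 0)
  obtain ⟨q1, b, hb⟩ := red 8 (by norm_num) (v 1)
  obtain ⟨q2, c, hc⟩ := red 8 (by norm_num) (v 2)
  have hQ : Q3 (a : ℕ) (b : ℕ) (c : ℕ) % 16 = 12 := by
    rw [ip_self, ha, hb, hc] at hv
    have e : ∀ (x y z p q r : ℤ), Q3 (8 * p + x) (8 * q + y) (8 * r + z) = Q3 x y z +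
        16 * (4 * Q3 p q r + 3 * x * p + 7 * y * q + 7 * z * r - (x * q + p * y) - (x * r + p * z) -
          3 * (y * r + q * z)) := by
      intro x y z p q r
      unfold Q3
      ring
    have e' := e (a : ℕ) (b : ℕ) (c : ℕ) q0 q1 q2
    push_cast at hv
    rw [e'] at hv
    omega
  have hne : ¬ (((a : ℕ) : ℤ) % 2 = 0 ∧ ((b : ℕ) : ℤ) % 2 = 0 ∧ ((c : ℕ) : ℤ) % 2 = 0) := by
    intro h
    apply h0
    unfold P0
    push_cast at ha hb hc
    omega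
  have key := fin1 a b c hQ hne
  push_cast at ha hb hc
  have e1 : P1 v ↔ ((a : ℕ) : ℤ) % 2 = 0 ∧ (((b : ℕ) : ℤ) + ((a : ℕ) : ℤ) / 2) % 2 = 0 ∧
        (((c : ℕ) : ℤ) + ((a : ℕ) : ℤ) / 2) % 2 = 0 := by
    unfold P1
    omega
  have e2 : P2 v ↔ ((b : ℕ) : ℤ) % 2 = 0 ∧ (((a : ℕ) : ℤ) + ((c : ℕ) : ℤ)) % 4 = 0 := by
    unfold P2
    omega
  have e3 : P3 v ↔ ((c : ℕ) : ℤ) % 2 = 0 ∧ (((a : ℕ) : ℤ) + ((b : ℕ) : ℤ)) % 4 = 0 := by
    unfold P3
    omega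
  simp only [e1, e2, e3]
  exact key

theorem cnt_even {n : ℤ} (hn : n % 4 = 3) {w : V3} (hw : ip w w = n) :
    (if P1 (m0 w) then (1 : ℤ) else 0) + (if P2 (m0 w) then 1 else 0) +
      (if P3 (m0 w) then 1 else 0) = 1 + (if n % 8 = 7 then 1 else -1) := by
  obtain ⟨q0, a, ha⟩ := red 4 (by norm_num) (w 0)
  obtain ⟨q1, b, hb⟩ := red 4 (by norm_num) (w 1)
  obtain ⟨q2, c, hc⟩ := red 4 (by norm_num) (w 2)
  have hQ : Q3 (a : ℕ) (b : ℕ) (c : ℕ) % 8 = n % 8 := by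
    rw [ip_self, ha, hb, hc] at hw
    have e : ∀ (x y z p q r : ℤ), Q3 (4 * p + x) (4 * q + y) (4 * r + z) = Q3 x y z +
        8 * (2 * Q3 p q r + 3 * x * p + 7 * y * q + 7 * z * r - (x * q + p * y) - (x * r + p * z) -
          3 * (y * r + q * z)) := by
      intro x y z p q r
      unfold Q3
      ring
    have e' := e (a : ℕ) (b : ℕ) (c : ℕ) q0 q1 q2
    push_cast at hw
    rw [e'] at hw
    omega
  have key := fin2 a b c (by omega)
  rw [hQ] at key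
  push_cast at ha hb hc
  have e1 : P1 (m0 w) ↔ ((a : ℕ) : ℤ) % 2 = 0 := by
    simp only [P1, m0, Matrix.cons_val_zero, Matrix.cons_val_one, Matrix.cons_val]
    omega
  have e2 : P2 (m0 w) ↔ (((a : ℕ) : ℤ) + ((c : ℕ) : ℤ)) % 2 = 0 := by
    simp only [P2, m0, Matrix.cons_val_zero, Matrix.cons_val_one, Matrix.cons_val]
    omega
  have e3 : P3 (m0 w) ↔ (((a : ℕ) : ℤ) + ((b : ℕ) : ℤ)) % 2 = 0 := by
    simp only [P3, m0, Matrix.cons_val_zero, Matrix.cons_val_one, Matrix.cons_val]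
    omega
  simp only [e1, e2, e3]
  exact key

theorem cnt_lines {n : ℤ} (hn : n % 3 = 2) {w : V3} (hw : ip w w = n) :
    (if (3 : ℤ) ∣ (m1 w) 1 + (m1 w) 2 then (1 : ℤ) else 0) +
      (if (3 : ℤ) ∣ (m2 w) 1 + (m2 w) 2 then 1 else 0) +
      (if (3 : ℤ) ∣ (m3 w) 1 + (m3 w) 2 then 1 else 0) =
    2 - (if (3 : ℤ) ∣ w 1 + w 2 then 1 else 0) := by
  obtain ⟨q0, a, ha⟩ := red 3 (by norm_num) (w 0)
  obtain ⟨q1, b, hb⟩ := red 3 (by norm_num) (w 1)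
  obtain ⟨q2, c, hc⟩ := red 3 (by norm_num) (w 2)
  have hQ : Q3 (a : ℕ) (b : ℕ) (c : ℕ) % 3 = 2 := by
    rw [ip_self, ha, hb, hc] at hw
    have e : ∀ (x y z p q r : ℤ), Q3 (3 * p + x) (3 * q + y) (3 * r + z) = Q3 x y z +
        3 * (3 * Q3 p q r + 2 * (3 * x * p + 7 * y * q + 7 * z * r - (x * q + p * y) -
          (x * r + p * z) - 3 * (y * r + q * z))) := by
      intro x y z p q r
      unfold Q3
      ring
    have e' := e (a : ℕ) (b : ℕ) (c : ℕ) q0 q1 q2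
    push_cast at hw
    rw [e'] at hw
    omega
  have key := fin3 a b c hQ
  push_cast at ha hb hc
  have e1 : (3 : ℤ) ∣ (m1 w) 1 + (m1 w) 2 ↔
      (((a : ℕ) : ℤ) - ((b : ℕ) : ℤ) - ((c : ℕ) : ℤ)) % 3 = 0 := by
    simp only [m1, Matrix.cons_val_zero, Matrix.cons_val_one, Matrix.cons_val]
    omega
  have e2 : (3 : ℤ) ∣ (m2 w) 1 + (m2 w) 2 ↔
      (((a : ℕ) : ℤ) - ((b : ℕ) : ℤ) + ((c : ℕ) : ℤ)) % 3 = 0 := by
    simp only [m2, Matrix.cons_val_zero, Matrix.cons_val_one, Matrix.cons_val]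
    omega
  have e3 : (3 : ℤ) ∣ (m3 w) 1 + (m3 w) 2 ↔
      (((a : ℕ) : ℤ) + ((b : ℕ) : ℤ) - ((c : ℕ) : ℤ)) % 3 = 0 := by
    simp only [m3, Matrix.cons_val_zero, Matrix.cons_val_one, Matrix.cons_val]
    omega
  have e4 : (3 : ℤ) ∣ w 1 + w 2 ↔ (((b : ℕ) : ℤ) + ((c : ℕ) : ℤ)) % 3 = 0 := by
    omega
  simp only [e1, e2, e3, e4]
  exact key

/-- **the Hecke relation at `2`** -/
theorem hecke {n : ℤ} (hn : n % 4 = 3) (g : V3 → ℤ) :
    ∑ w ∈ vec n, (g (m1 w) + g (m2 w) + g (m3 w)) = ∑ v ∈ vec (4 * n), g v +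
      (if n % 8 = 7 then 1 else -1) * ∑ w ∈ vec n, g (m0 w) := by
  rw [sum_add_distrib, sum_add_distrib, sum_m1, sum_m2, sum_m3, sum_filter, sum_filter, sum_filter,
    ← sum_add_distrib, ← sum_add_distrib]
  have h1 : ∀ v ∈ vec (4 * n), ((if P1 v then g v else 0) + if P2 v then g v else 0) +
      (if P3 v then g v else 0) = g v + if P0 v then (if n % 8 = 7 then 1 else -1) * g v else 0 := by
    intro v hv
    have e : ((if P1 v then g v else 0) + if P2 v then g v else 0) + (if P3 v then g v else 0) =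
        ((if P1 v then (1 : ℤ) else 0) + (if P2 v then 1 else 0) + (if P3 v then 1 else 0)) * g v := by
      split_ifs <;> ring
    rw [e]
    rw [mem_vec] at hv
    by_cases h0 : P0 v
    · rw [if_pos h0]
      obtain ⟨w, hw⟩ : ∃ w : V3, v = m0 w := by
        obtain ⟨g0, g1, g2⟩ := h0
        refine ⟨![v 0 / 2, v 1 / 2, v 2 / 2], ?_⟩
        apply v3_ext <;>
          simp only [m0, Matrix.cons_val_zero, Matrix.cons_val_one, Matrix.cons_val] <;> omega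
      rw [hw] at hv ⊢
      have hw' : ip w w = n := by
        rw [ip_self] at hv ⊢
        simp only [m0, Matrix.cons_val_zero, Matrix.cons_val_one, Matrix.cons_val] at hv
        unfold Q3 at hv ⊢
        linarith
      rw [cnt_even hn hw']
      ring
    · rw [if_neg h0, cnt_odd hn hv h0]
      ring
  rw [sum_congr rfl h1, sum_add_distrib, ← sum_filter, ← mul_sum, ← sum_m0]

theorem t_HE : S_HE := by
  intro n h4 h3
  have hn4 : (n : ℤ) % 4 = 3 := by omega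
  have hn3 : (n : ℤ) % 3 = 2 := by omega
  have hep : (if (n : ℤ) % 8 = 7 then (1 : ℤ) else -1) = ep2 n := by
    unfold ep2
    by_cases h : n % 8 = 7
    · rw [if_pos h, if_pos (by omega)]
    · rw [if_neg h, if_neg (by omega)]
  have k1 := hecke hn4 (fun _ => (1 : ℤ))
  have k2 := hecke hn4 (fun v => if (3 : ℤ) ∣ v 1 + v 2 then (1 : ℤ) else 0)
  rw [hep] at k1 k2
  have e1 : ∀ m : ℤ, ∑ _v ∈ vec m, (1 : ℤ) = rr m := by
    intro m
    unfold rr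
    simp
  have e0 : ∀ m : ℤ, ∑ v ∈ vec m, (if (3 : ℤ) ∣ v 1 + v 2 then (1 : ℤ) else 0) = rr0 m := by
    intro m
    unfold rr0
    rw [card_filter]
    push_cast
    rfl
  have e3 : ∑ w ∈ vec n, ((if (3 : ℤ) ∣ (m1 w) 1 + (m1 w) 2 then (1 : ℤ) else 0) +
      (if (3 : ℤ) ∣ (m2 w) 1 + (m2 w) 2 then 1 else 0) +
      (if (3 : ℤ) ∣ (m3 w) 1 + (m3 w) 2 then 1 else 0)) = 2 * rr n - rr0 n := by
    rw [sum_congr rfl fun w hw => cnt_lines hn3 (mem_vec.1 hw), sum_sub_distrib, e0, sum_const,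
      nsmul_eq_mul]
    unfold rr
    ring
  have e4 : ∑ w ∈ vec n, (if (3 : ℤ) ∣ (m0 w) 1 + (m0 w) 2 then (1 : ℤ) else 0) = rr0 n := by
    rw [← e0]
    refine sum_congr rfl fun w _ => ?_
    have : (3 : ℤ) ∣ (m0 w) 1 + (m0 w) 2 ↔ (3 : ℤ) ∣ w 1 + w 2 := by
      simp only [m0, Matrix.cons_val_zero, Matrix.cons_val_one, Matrix.cons_val]
      omega
    simp only [this]
  rw [e3, e0, e4] at k2
  simp only at k1
  have e5 : ∑ _w ∈ vec (n : ℤ), ((1 : ℤ) + 1 + 1) = 3 * rr n := by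
    rw [sum_const, nsmul_eq_mul]
    unfold rr
    ring
  rw [e5, e1, e1] at k1
  constructor
  · linarith
  · linarith

end Pool.Agent.Run7.h483.P15
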