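import Pool.Agent.Run7.h483.P15.HE

/-!
# P15 (helper483): REL33, REL32, REL31, REL22, the relations with the Gross sums
-/

set_option autoImplicit false

namespace Pool.Agent.Run7.h483.P15

open Finset
open Pool.Agent.N969.P15 (V3 ip vec rr rr0 cc cp cp0 cp3 S_REL33 S_REL32 S_REL31 S_REL22)

/-! ### finite checks modulo `3` -/

/-- the inner product modulo `3` -/
def ipz (a b c a' b' c' : ZMod 3) : ZMod 3 :=
  3 * (a * a') + 7 * (b * b') + 7 * (c * c') - (a * b' + b * a') - (a * c' + c * a') -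
    3 * (b * c' + c * b')

def p0 (_a b c : ZMod 3) : ZMod 3 := b + c
def p1 (a b c : ZMod 3) : ZMod 3 := a - b - c
def p2 (a b c : ZMod 3) : ZMod 3 := a - b + c
def p3 (a b c : ZMod 3) : ZMod 3 := a + b - c

/-- an indicator -/
def dl (x : ZMod 3) : ℤ := if x = 0 then 1 else 0

/-- the number of common lines -/
def lin (a b c a' b' c' : ZMod 3) : ℤ :=
  dl (p0 a b c) * dl (p0 a' b' c') + dl (p1 a b c) * dl (p1 a' b' c') +
    dl (p2 a b c) * dl (p2 a' b' c') + dl (p3 a b c) * dl (p3 a' b' c')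

theorem finA : ∀ a b c a' b' c' : ZMod 3, ipz a b c a b c = 0 → ¬ (a = 0 ∧ b = 0 ∧ c = 0) →
    (ipz a' b' c' a' b' c' = 0 ∧ ¬ (a' = 0 ∧ b' = 0 ∧ c' = 0)) →
    dl (ipz a b c a' b' c') = lin a b c a' b' c' := by
  decide +kernel

theorem finC : ∀ a b c a' b' c' : ZMod 3, ipz a b c a b c = 0 → ¬ (a = 0 ∧ b = 0 ∧ c = 0) →
    ipz a' b' c' a' b' c' = 2 → dl (ipz a b c a' b' c') = lin a b c a' b' c' := by
  decide +kernel

theorem finB : ∀ a b c : ZMod 3, ipz a b c a b c = 0 → ¬ (a = 0 ∧ b = 0 ∧ c = 0) →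
    dl (p0 a b c) + dl (p1 a b c) + dl (p2 a b c) + dl (p3 a b c) = 1 := by
  decide +kernel

theorem finD : ∀ a b c : ZMod 3, ipz a b c a b c = 2 →
    dl (p0 a b c) + dl (p1 a b c) + dl (p2 a b c) + dl (p3 a b c) = 2 := by
  decide +kernel

theorem finE : ∀ a b c a' b' c' : ZMod 3, ipz a b c a b c = 0 → ¬ (a = 0 ∧ b = 0 ∧ c = 0) →
    ipz a' b' c' a' b' c' = 1 → ipz a b c a' b' c' ≠ 0 := by
  decide +kernel

theorem finF : ∀ a b c a' b' c' : ZMod 3, ipz a b c a b c = 2 → ipz a' b' c' a' b' c' = 2 →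
    lin a b c a' b' c' = if ipz a b c a' b' c' = 0 then 0 else
      1 + (if a + ipz a b c a' b' c' * a' = 0 ∧ b + ipz a b c a' b' c' * b' = 0 ∧
        c + ipz a b c a' b' c' * c' = 0 then 1 else 0) := by
  decide +kernel

theorem finG0 : ∀ a b c a' b' c' : ZMod 3, p0 a b c = 0 → p0 a' b' c' = 0 →
    ipz a b c a' c' b' = - ipz a b c a' b' c' := by
  decide +kernel

theorem finG1 : ∀ a b c a' b' c' : ZMod 3, p1 a b c = 0 → p1 a' b' c' = 0 →
    ipz a b c a' c' b' = - ipz a b c a' b' c' := by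
  decide +kernel

theorem finG2 : ∀ a b c a' b' c' : ZMod 3, p2 a b c = 0 → p2 a' b' c' = 0 →
    ipz a b c (a' - b') (-b') (-b' + c') = - ipz a b c a' b' c' := by
  decide +kernel

theorem finG3 : ∀ a b c a' b' c' : ZMod 3, p3 a b c = 0 → p3 a' b' c' = 0 →
    ipz a b c (a' - c') (b' - c') (-c') = - ipz a b c a' b' c' := by
  decide +kernel

/-! ### vectors modulo `3` -/

/-- the inner product modulo `3` -/
theorem ip_z (v w : V3) : ((ip v w : ℤ) : ZMod 3) =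
    ipz ((v 0 : ℤ) : ZMod 3) ((v 1 : ℤ) : ZMod 3) ((v 2 : ℤ) : ZMod 3)
      ((w 0 : ℤ) : ZMod 3) ((w 1 : ℤ) : ZMod 3) ((w 2 : ℤ) : ZMod 3) := by
  unfold ip ipz
  push_cast
  ring

/-- the indicator of the line `i` -/
def J0 (v : V3) : ℤ := dl (p0 (v 0 : ℤ) (v 1 : ℤ) (v 2 : ℤ))
def J1 (v : V3) : ℤ := dl (p1 (v 0 : ℤ) (v 1 : ℤ) (v 2 : ℤ))
def J2 (v : V3) : ℤ := dl (p2 (v 0 : ℤ) (v 1 : ℤ) (v 2 : ℤ))
def J3 (v : V3) : ℤ := dl (p3 (v 0 : ℤ) (v 1 : ℤ) (v 2 : ℤ))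

theorem dvd3 (x : ℤ) : (3 : ℤ) ∣ x ↔ ((x : ℤ) : ZMod 3) = 0 := by
  have := ZMod.intCast_zmod_eq_zero_iff_dvd x 3
  exact this.symm

theorem nz {n : ℤ} (hn : ¬ (9 : ℤ) ∣ n) {v : V3} (hv : ip v v = n) :
    ¬ (((v 0 : ℤ) : ZMod 3) = 0 ∧ ((v 1 : ℤ) : ZMod 3) = 0 ∧ ((v 2 : ℤ) : ZMod 3) = 0) := by
  rintro ⟨h0, h1, h2⟩
  rw [← dvd3] at h0 h1 h2
  obtain ⟨a, ha⟩ := h0
  obtain ⟨b, hb⟩ := h1
  obtain ⟨c, hc⟩ := h2
  apply hn
  refine ⟨Q3 a b c, ?_⟩
  rw [← hv, ip_self, ha, hb, hc]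
  unfold Q3
  ring

/-! ### the reflections -/

def s1 (w : V3) : V3 := ![w 0, w 2, w 1]
def s2 (w : V3) : V3 := ![w 0 - w 1, -w 1, -w 1 + w 2]
def s3 (w : V3) : V3 := ![w 0 - w 2, w 1 - w 2, -w 2]

theorem sum_s1 (n : ℤ) (g : V3 → ℤ) : ∑ w ∈ vec n, g (s1 w) = ∑ w ∈ vec n, g w := by
  have hm : ∀ w ∈ vec n, s1 w ∈ vec n := by
    intro w hw
    rw [mem_vec, ip_self] at hw ⊢
    rw [← hw]
    simp only [s1, Matrix.cons_val_zero, Matrix.cons_val_one, Matrix.cons_val]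
    unfold Q3
    ring
  have hi : ∀ w : V3, s1 (s1 w) = w := by
    intro w
    apply v3_ext <;> simp only [s1, Matrix.cons_val_zero, Matrix.cons_val_one, Matrix.cons_val]
  exact sum_nbij' s1 s1 hm hm (fun w _ => hi w) (fun w _ => hi w) fun w _ => rfl

theorem sum_s2 (n : ℤ) (g : V3 → ℤ) : ∑ w ∈ vec n, g (s2 w) = ∑ w ∈ vec n, g w := by
  have hm : ∀ w ∈ vec n, s2 w ∈ vec n := by
    intro w hw
    rw [mem_vec, ip_self] at hw ⊢
    rw [← hw]
    simp only [s2, Matrix.cons_val_zero, Matrix.cons_val_one, Matrix.cons_val]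
    unfold Q3
    ring
  have hi : ∀ w : V3, s2 (s2 w) = w := by
    intro w
    apply v3_ext <;> simp only [s2, Matrix.cons_val_zero, Matrix.cons_val_one, Matrix.cons_val] <;>
      ring
  exact sum_nbij' s2 s2 hm hm (fun w _ => hi w) (fun w _ => hi w) fun w _ => rfl

theorem sum_s3 (n : ℤ) (g : V3 → ℤ) : ∑ w ∈ vec n, g (s3 w) = ∑ w ∈ vec n, g w := by
  have hm : ∀ w ∈ vec n, s3 w ∈ vec n := by
    intro w hw
    rw [mem_vec, ip_self] at hw ⊢
    rw [← hw]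
    simp only [s3, Matrix.cons_val_zero, Matrix.cons_val_one, Matrix.cons_val]
    unfold Q3
    ring
  have hi : ∀ w : V3, s3 (s3 w) = w := by
    intro w
    apply v3_ext <;> simp only [s3, Matrix.cons_val_zero, Matrix.cons_val_one, Matrix.cons_val] <;>
      ring
  exact sum_nbij' s3 s3 hm hm (fun w _ => hi w) (fun w _ => hi w) fun w _ => rfl

theorem sum_neg (n : ℤ) (g : V3 → ℤ) : ∑ w ∈ vec n, g (-w) = ∑ w ∈ vec n, g w := by
  have hm : ∀ w ∈ vec n, -w ∈ vec n := by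
    intro w hw
    rw [mem_vec, ip_self] at hw ⊢
    rw [← hw]
    simp only [Pi.neg_apply]
    unfold Q3
    ring
  exact sum_nbij' (fun w => -w) (fun w => -w) hm hm (fun w _ => neg_neg w) (fun w _ => neg_neg w)
    fun w _ => rfl

/-- the numbers of vectors for the lines -/
noncomputable def N0 (n : ℤ) : ℤ := ∑ v ∈ vec n, J0 v
noncomputable def N1 (n : ℤ) : ℤ := ∑ v ∈ vec n, J1 v
noncomputable def N2 (n : ℤ) : ℤ := ∑ v ∈ vec n, J2 v
noncomputable def N3 (n : ℤ) : ℤ := ∑ v ∈ vec n, J3 v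

theorem N0_eq (n : ℤ) : N0 n = rr0 n := by
  unfold N0 rr0
  rw [card_filter]
  push_cast
  refine sum_congr rfl fun v _ => ?_
  unfold J0 dl p0
  have : (3 : ℤ) ∣ v 1 + v 2 ↔ ((v 1 : ℤ) : ZMod 3) + ((v 2 : ℤ) : ZMod 3) = 0 := by
    rw [dvd3]
    push_cast
    rfl
  simp only [this]

theorem N2_eq (n : ℤ) : N2 n = N1 n := by
  unfold N2 N1
  rw [← sum_s3 n J1]
  refine sum_congr rfl fun v _ => ?_
  unfold J1 J2
  congr 1
  simp only [s3, Matrix.cons_val_zero, Matrix.cons_val_one, Matrix.cons_val]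
  unfold p1 p2
  push_cast
  ring

theorem N3_eq (n : ℤ) : N3 n = N1 n := by
  unfold N3 N1
  rw [← sum_s2 n J1]
  refine sum_congr rfl fun v _ => ?_
  unfold J1 J3
  congr 1
  simp only [s2, Matrix.cons_val_zero, Matrix.cons_val_one, Matrix.cons_val]
  unfold p1 p3
  push_cast
  ring

/-- the number of common lines -/
def LL (v w : V3) : ℤ := J0 v * J0 w + J1 v * J1 w + J2 v * J2 w + J3 v * J3 w

theorem sum_LL (n1 n2 : ℤ) : ∑ v ∈ vec n1, ∑ w ∈ vec n2, LL v w =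
    N0 n1 * N0 n2 + 3 * (N1 n1 * N1 n2) := by
  have h : ∑ v ∈ vec n1, ∑ w ∈ vec n2, LL v w =
      N0 n1 * N0 n2 + N1 n1 * N1 n2 + N2 n1 * N2 n2 + N3 n1 * N3 n2 := by
    unfold LL N0 N1 N2 N3
    simp only [sum_add_distrib, sum_mul_sum]
  rw [h, N2_eq, N2_eq, N3_eq, N3_eq]
  ring

theorem three_div {n : ℤ} (hn : (3 : ℤ) ∣ n) (hn9 : ¬ (9 : ℤ) ∣ n) :
    N0 n + 3 * N1 n = rr n := by
  have h : N0 n + N1 n + N2 n + N3 n = rr n := by
    unfold N0 N1 N2 N3 rr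
    rw [← sum_add_distrib, ← sum_add_distrib, ← sum_add_distrib, card_eq_sum_ones]
    push_cast
    refine sum_congr rfl fun v hv => ?_
    rw [mem_vec] at hv
    refine finB _ _ _ ?_ (nz hn9 hv)
    rw [← ip_z, hv]
    exact (dvd3 n).1 hn
  rw [N2_eq, N3_eq] at h
  linarith

theorem three_two {n : ℤ} (hn : n % 3 = 2) : N0 n + 3 * N1 n = 2 * rr n := by
  have h : N0 n + N1 n + N2 n + N3 n = 2 * rr n := by
    unfold N0 N1 N2 N3 rr
    rw [← sum_add_distrib, ← sum_add_distrib, ← sum_add_distrib, card_eq_sum_ones]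
    push_cast
    rw [mul_sum]
    refine sum_congr rfl fun v hv => ?_
    rw [mem_vec] at hv
    rw [mul_one]
    refine finD _ _ _ ?_
    rw [← ip_z, hv]
    have h3 : (3 : ℤ) ∣ n - 2 := by omega
    rw [dvd3] at h3
    push_cast at h3
    exact sub_eq_zero.1 h3
  rw [N2_eq, N3_eq] at h
  linarith

theorem cast2 {n : ℤ} (hn : n % 3 = 2) : ((n : ℤ) : ZMod 3) = 2 := by
  have h3 : (3 : ℤ) ∣ n - 2 := by omega
  rw [dvd3] at h3
  push_cast at h3
  exact sub_eq_zero.1 h3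

theorem cp0_eq (n1 n2 : ℤ) : (cp0 n1 n2 : ℤ) =
    ∑ v ∈ vec n1, ∑ w ∈ vec n2, dl ((ip v w : ℤ) : ZMod 3) := by
  unfold cp0
  rw [card_filter, sum_product]
  push_cast
  refine sum_congr rfl fun v _ => sum_congr rfl fun w _ => ?_
  unfold dl
  simp only [dvd3]

theorem t_REL33 : S_REL33 := by
  intro n1 n2 h1 h1' h2 h2'
  have a1 : (3 : ℤ) ∣ (n1 : ℤ) := by exact_mod_cast h1
  have a2 : (3 : ℤ) ∣ (n2 : ℤ) := by exact_mod_cast h2
  have b1 : ¬ (9 : ℤ) ∣ (n1 : ℤ) := by exact_mod_cast h1'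
  have b2 : ¬ (9 : ℤ) ∣ (n2 : ℤ) := by exact_mod_cast h2'
  have key : (cp0 n1 n2 : ℤ) = N0 n1 * N0 n2 + 3 * (N1 n1 * N1 n2) := by
    rw [cp0_eq, ← sum_LL]
    refine sum_congr rfl fun v hv => sum_congr rfl fun w hw => ?_
    rw [mem_vec] at hv hw
    rw [ip_z]
    refine finA _ _ _ _ _ _ ?_ (nz b1 hv) ⟨?_, nz b2 hw⟩
    · rw [← ip_z, hv]
      exact (dvd3 _).1 a1
    · rw [← ip_z, hw]
      exact (dvd3 _).1 a2
  have c1 : cc (n1 : ℤ) = rr n1 - 4 * rr0 n1 := by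
    unfold cc
    rw [if_pos (by omega)]
  have c2 : cc (n2 : ℤ) = rr n2 - 4 * rr0 n2 := by
    unfold cc
    rw [if_pos (by omega)]
  have d1 := three_div a1 b1
  have d2 := three_div a2 b2
  rw [key, c1, c2, ← d1, ← d2, ← N0_eq, ← N0_eq]
  ring

theorem t_REL32 : S_REL32 := by
  intro n1 n2 h1 h1' h2
  have a1 : (3 : ℤ) ∣ (n1 : ℤ) := by exact_mod_cast h1
  have b1 : ¬ (9 : ℤ) ∣ (n1 : ℤ) := by exact_mod_cast h1'
  have a2 : (n2 : ℤ) % 3 = 2 := by omega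
  have key : (cp0 n1 n2 : ℤ) = N0 n1 * N0 n2 + 3 * (N1 n1 * N1 n2) := by
    rw [cp0_eq, ← sum_LL]
    refine sum_congr rfl fun v hv => sum_congr rfl fun w hw => ?_
    rw [mem_vec] at hv hw
    rw [ip_z]
    refine finC _ _ _ _ _ _ ?_ (nz b1 hv) ?_
    · rw [← ip_z, hv]
      exact (dvd3 _).1 a1
    · rw [← ip_z, hw]
      exact cast2 a2
  have c1 : cc (n1 : ℤ) = rr n1 - 4 * rr0 n1 := by
    unfold cc
    rw [if_pos (by omega)]
  have c2 : cc (n2 : ℤ) = rr n2 - 2 * rr0 n2 := by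
    unfold cc
    rw [if_neg (by omega)]
  have d1 := three_div a1 b1
  have d2 := three_two a2
  rw [key, c1, c2, ← d1, ← N0_eq, ← N0_eq]
  have e : rr n2 * 2 = N0 n2 + 3 * N1 n2 := by linarith
  have e2 : 2 * (6 * (N0 n1 * N0 n2 + 3 * (N1 n1 * N1 n2))) =
      2 * (3 * (N0 n1 + 3 * N1 n1) * rr n2 + (N0 n1 + 3 * N1 n1 - 4 * N0 n1) * (rr n2 - 2 * N0 n2)) := by
    linear_combination (-(3 * (N0 n1 + 3 * N1 n1)) - (N0 n1 + 3 * N1 n1 - 4 * N0 n1)) * e
  linarith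

theorem t_REL31 : S_REL31 := by
  intro n1 n2 h1 h1' h2
  have a1 : (3 : ℤ) ∣ (n1 : ℤ) := by exact_mod_cast h1
  have b1 : ¬ (9 : ℤ) ∣ (n1 : ℤ) := by exact_mod_cast h1'
  have a2 : (((n2 : ℕ) : ℤ) : ZMod 3) = 1 := by
    have h3 : (3 : ℤ) ∣ (n2 : ℤ) - 1 := by omega
    rw [dvd3] at h3
    push_cast at h3
    have := sub_eq_zero.1 h3
    push_cast
    exact this
  unfold cp0
  rw [card_eq_zero, filter_eq_empty_iff]
  rintro ⟨v, w⟩ hvw h3
  rw [mem_product, mem_vec, mem_vec] at hvw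
  obtain ⟨hv, hw⟩ := hvw
  simp only at hv hw h3
  rw [dvd3, ip_z] at h3
  refine finE _ _ _ _ _ _ ?_ (nz b1 hv) ?_ h3
  · rw [← ip_z, hv]
    exact (dvd3 _).1 a1
  · rw [← ip_z, hw]
    exact a2

/-! ### REL22 -/

/-- the indicator of the inner products -/
def wt5 (r3 r5 x : ℤ) : ℤ := if x % 3 = r3 ∧ x % 5 = r5 then 1 else 0

/-- the weighted number of pairs -/
noncomputable def TT (n1 n2 r3 r5 : ℤ) : ℤ := ∑ v ∈ vec n1, ∑ w ∈ vec n2, wt5 r3 r5 (ip v w) * LL v w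

theorem ip_s1 (v w : V3) : ∃ k : ℤ, ip v (s1 w) = ip v w + 5 * k := by
  refine ⟨2 * ((v 1 - v 2) * (w 2 - w 1)), ?_⟩
  unfold ip
  simp only [s1, Matrix.cons_val_zero, Matrix.cons_val_one, Matrix.cons_val]
  ring

theorem ip_s2 (v w : V3) : ∃ k : ℤ, ip v (s2 w) = ip v w + 5 * k := by
  refine ⟨(-2 * v 1) * w 1, ?_⟩
  unfold ip
  simp only [s2, Matrix.cons_val_zero, Matrix.cons_val_one, Matrix.cons_val]
  ring

theorem ip_s3 (v w : V3) : ∃ k : ℤ, ip v (s3 w) = ip v w + 5 * k := by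
  refine ⟨(-2 * v 2) * w 2, ?_⟩
  unfold ip
  simp only [s3, Matrix.cons_val_zero, Matrix.cons_val_one, Matrix.cons_val]
  ring

theorem wt5_flip {r3 r5 x y : ℤ} (hr : r3 = 1 ∨ r3 = 2) (h3 : ((x : ℤ) : ZMod 3) = -((y : ℤ) : ZMod 3))
    (h5 : ∃ k : ℤ, x = y + 5 * k) : wt5 r3 r5 x = wt5 (3 - r3) r5 y := by
  have h : (3 : ℤ) ∣ x + y := by
    rw [dvd3]
    push_cast
    rw [h3]
    ring
  obtain ⟨k, hk⟩ := h5
  unfold wt5
  have : (x % 3 = r3 ∧ x % 5 = r5) ↔ (y % 3 = 3 - r3 ∧ y % 5 = r5) := by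
    rcases hr with rfl | rfl <;> omega
  simp only [this]

theorem J0_s1 (w : V3) : J0 (s1 w) = J0 w := by
  unfold J0
  congr 1
  simp only [s1, Matrix.cons_val_zero, Matrix.cons_val_one, Matrix.cons_val]
  unfold p0
  ring

theorem J1_s1 (w : V3) : J1 (s1 w) = J1 w := by
  unfold J1
  congr 1
  simp only [s1, Matrix.cons_val_zero, Matrix.cons_val_one, Matrix.cons_val]
  unfold p1
  ring

theorem J2_s2 (w : V3) : J2 (s2 w) = J2 w := by
  unfold J2
  congr 1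
  simp only [s2, Matrix.cons_val_zero, Matrix.cons_val_one, Matrix.cons_val]
  unfold p2
  push_cast
  ring

theorem J3_s3 (w : V3) : J3 (s3 w) = J3 w := by
  unfold J3
  congr 1
  simp only [s3, Matrix.cons_val_zero, Matrix.cons_val_one, Matrix.cons_val]
  unfold p3
  push_cast
  ring

theorem dl_cases (x : ZMod 3) : dl x = 0 ∨ x = 0 := by
  unfold dl
  by_cases h : x = 0
  · exact Or.inr h
  · rw [if_neg h]
    exact Or.inl rfl

/-- the flip of the sign at `3` -/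
theorem TT_flip (n1 n2 : ℤ) {r3 r5 : ℤ} (hr : r3 = 1 ∨ r3 = 2) :
    TT n1 n2 r3 r5 = TT n1 n2 (3 - r3) r5 := by
  unfold TT LL
  refine sum_congr rfl fun v _ => ?_
  have e : ∀ a b c d x : ℤ, x * (a + b + c + d) = x * a + x * b + x * c + x * d := by
    intro a b c d x
    ring
  simp only [e, sum_add_distrib]
  have t0 : ∑ w ∈ vec n2, wt5 r3 r5 (ip v w) * (J0 v * J0 w) =
      ∑ w ∈ vec n2, wt5 (3 - r3) r5 (ip v w) * (J0 v * J0 w) := by
    rw [← sum_s1 n2 fun w => wt5 r3 r5 (ip v w) * (J0 v * J0 w)]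
    refine sum_congr rfl fun w _ => ?_
    rw [J0_s1]
    rcases dl_cases (p0 (v 0 : ℤ) (v 1 : ℤ) (v 2 : ℤ)) with h | h
    · have : J0 v = 0 := h
      rw [this, zero_mul, mul_zero, mul_zero]
    · rcases dl_cases (p0 (w 0 : ℤ) (w 1 : ℤ) (w 2 : ℤ)) with h' | h'
      · have : J0 w = 0 := h'
        rw [this, mul_zero, mul_zero, mul_zero]
      · congr 1
        refine wt5_flip hr ?_ (ip_s1 v w)
        rw [ip_z, ip_z]
        exact finG0 _ _ _ _ _ _ h h'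
  have t1 : ∑ w ∈ vec n2, wt5 r3 r5 (ip v w) * (J1 v * J1 w) =
      ∑ w ∈ vec n2, wt5 (3 - r3) r5 (ip v w) * (J1 v * J1 w) := by
    rw [← sum_s1 n2 fun w => wt5 r3 r5 (ip v w) * (J1 v * J1 w)]
    refine sum_congr rfl fun w _ => ?_
    rw [J1_s1]
    rcases dl_cases (p1 (v 0 : ℤ) (v 1 : ℤ) (v 2 : ℤ)) with h | h
    · have : J1 v = 0 := h
      rw [this, zero_mul, mul_zero, mul_zero]
    · rcases dl_cases (p1 (w 0 : ℤ) (w 1 : ℤ) (w 2 : ℤ)) with h' | h'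
      · have : J1 w = 0 := h'
        rw [this, mul_zero, mul_zero, mul_zero]
      · congr 1
        refine wt5_flip hr ?_ (ip_s1 v w)
        rw [ip_z, ip_z]
        exact finG1 _ _ _ _ _ _ h h'
  have t2 : ∑ w ∈ vec n2, wt5 r3 r5 (ip v w) * (J2 v * J2 w) =
      ∑ w ∈ vec n2, wt5 (3 - r3) r5 (ip v w) * (J2 v * J2 w) := by
    rw [← sum_s2 n2 fun w => wt5 r3 r5 (ip v w) * (J2 v * J2 w)]
    refine sum_congr rfl fun w _ => ?_
    rw [J2_s2]
    rcases dl_cases (p2 (v 0 : ℤ) (v 1 : ℤ) (v 2 : ℤ)) with h | h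
    · have : J2 v = 0 := h
      rw [this, zero_mul, mul_zero, mul_zero]
    · rcases dl_cases (p2 (w 0 : ℤ) (w 1 : ℤ) (w 2 : ℤ)) with h' | h'
      · have : J2 w = 0 := h'
        rw [this, mul_zero, mul_zero, mul_zero]
      · congr 1
        refine wt5_flip hr ?_ (ip_s2 v w)
        rw [ip_z, ip_z]
        have := finG2 _ _ _ _ _ _ h h'
        rw [← this]
        simp only [s2, Matrix.cons_val_zero, Matrix.cons_val_one, Matrix.cons_val]
        push_cast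
        rfl
  have t3 : ∑ w ∈ vec n2, wt5 r3 r5 (ip v w) * (J3 v * J3 w) =
      ∑ w ∈ vec n2, wt5 (3 - r3) r5 (ip v w) * (J3 v * J3 w) := by
    rw [← sum_s3 n2 fun w => wt5 r3 r5 (ip v w) * (J3 v * J3 w)]
    refine sum_congr rfl fun w _ => ?_
    rw [J3_s3]
    rcases dl_cases (p3 (v 0 : ℤ) (v 1 : ℤ) (v 2 : ℤ)) with h | h
    · have : J3 v = 0 := h
      rw [this, zero_mul, mul_zero, mul_zero]
    · rcases dl_cases (p3 (w 0 : ℤ) (w 1 : ℤ) (w 2 : ℤ)) with h' | h'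
      · have : J3 w = 0 := h'
        rw [this, mul_zero, mul_zero, mul_zero]
      · congr 1
        refine wt5_flip hr ?_ (ip_s3 v w)
        rw [ip_z, ip_z]
        have := finG3 _ _ _ _ _ _ h h'
        rw [← this]
        simp only [s3, Matrix.cons_val_zero, Matrix.cons_val_one, Matrix.cons_val]
        push_cast
        rfl
  rw [t0, t1, t2, t3]

/-- the flip of both signs -/
theorem TT_neg (n1 n2 : ℤ) {r3 r5 : ℤ} (hr : r3 = 1 ∨ r3 = 2) (h0 : 0 < r5) (h5 : r5 < 5) :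
    TT n1 n2 r3 r5 = TT n1 n2 (3 - r3) (5 - r5) := by
  unfold TT
  refine sum_congr rfl fun v _ => ?_
  rw [← sum_neg n2]
  refine sum_congr rfl fun w _ => ?_
  have e1 : ip v (-w) = -ip v w := by
    unfold ip
    simp only [Pi.neg_apply]
    ring
  have hd : ∀ x : ZMod 3, dl (-x) = dl x := by
    intro x
    unfold dl
    simp only [neg_eq_zero]
  have e2 : LL v (-w) = LL v w := by
    unfold LL
    have f0 : J0 (-w) = J0 w := by
      unfold J0
      rw [← hd]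
      congr 1
      simp only [Pi.neg_apply]
      unfold p0
      push_cast
      ring
    have f1 : J1 (-w) = J1 w := by
      unfold J1
      rw [← hd]
      congr 1
      simp only [Pi.neg_apply]
      unfold p1
      push_cast
      ring
    have f2 : J2 (-w) = J2 w := by
      unfold J2
      rw [← hd]
      congr 1
      simp only [Pi.neg_apply]
      unfold p2
      push_cast
      ring
    have f3 : J3 (-w) = J3 w := by
      unfold J3
      rw [← hd]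
      congr 1
      simp only [Pi.neg_apply]
      unfold p3
      push_cast
      ring
    rw [f0, f1, f2, f3]
  rw [e1, e2]
  congr 1
  unfold wt5
  have : (-ip v w % 3 = r3 ∧ -ip v w % 5 = r5) ↔ (ip v w % 3 = 3 - r3 ∧ ip v w % 5 = 5 - r5) := by
    rcases hr with rfl | rfl <;> omega
  simp only [this]

/-- the determinant of a pair -/
theorem det_pair (v w : V3) : ∃ k : ℤ, 0 ≤ k ∧ ip v v * ip w w - ip v w ^ 2 = 10 * k := by
  refine ⟨4 * (v 1 * w 2 - v 2 * w 1) ^ 2 + 2 * (v 2 * w 0 - v 0 * w 2) ^ 2 +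
    2 * (v 0 * w 1 - v 1 * w 0) ^ 2 + 2 * (v 1 * w 2 - v 2 * w 1) * (v 2 * w 0 - v 0 * w 2) +
    2 * (v 1 * w 2 - v 2 * w 1) * (v 0 * w 1 - v 1 * w 0) +
    2 * (v 2 * w 0 - v 0 * w 2) * (v 0 * w 1 - v 1 * w 0), ?_, ?_⟩
  · generalize v 1 * w 2 - v 2 * w 1 = a
    generalize v 2 * w 0 - v 0 * w 2 = b
    generalize v 0 * w 1 - v 1 * w 0 = c
    nlinarith [sq_nonneg (a + b), sq_nonneg (a + c), sq_nonneg (b + c), sq_nonneg a]
  · unfold ip
    ring

theorem t_REL22 : S_REL22 := by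
  intro n1 n2 h1 h2 h15 h25 r3 r5 hr3 hr0 hr5 hr B hB hB0
  have a1 : (n1 : ℤ) % 3 = 2 := by omega
  have a2 : (n2 : ℤ) % 3 = 2 := by omega
  -- the left side
  have hL : ∑ b ∈ (Ioo (-B) B).filter (fun b : ℤ => b % 3 = r3 ∧ b % 5 = r5),
      ((cp n1 b n2 : ℤ) + cp3 n1 b n2) = TT n1 n2 r3 r5 := by
    have e1 : ∀ b : ℤ, (cp n1 b n2 : ℤ) + cp3 n1 b n2 = ∑ v ∈ vec n1, ∑ w ∈ vec n2,
        if ip v w = b then (1 + if ∀ i, (3 : ℤ) ∣ v i + b * w i then (1 : ℤ) else 0) else 0 := by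
      intro b
      unfold cp cp3
      rw [card_filter, card_filter, sum_product, sum_product]
      push_cast
      rw [← sum_add_distrib]
      refine sum_congr rfl fun v _ => ?_
      rw [← sum_add_distrib]
      refine sum_congr rfl fun w _ => ?_
      by_cases h : ip v w = b
      · simp only [h, true_and, if_true]
      · simp only [h, false_and, if_false, add_zero]
    rw [sum_congr rfl fun b _ => e1 b, sum_comm]
    unfold TT
    refine sum_congr rfl fun v hv => ?_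
    rw [sum_comm]
    refine sum_congr rfl fun w hw => ?_
    rw [mem_vec] at hv hw
    rw [sum_ite_eq]
    have hIoo : ip v w ∈ (Ioo (-B) B).filter (fun b : ℤ => b % 3 = r3 ∧ b % 5 = r5) ↔
        (ip v w % 3 = r3 ∧ ip v w % 5 = r5) := by
      rw [mem_filter, mem_Ioo]
      refine and_iff_right ?_
      obtain ⟨k, hk0, hk⟩ := det_pair v w
      rw [hv, hw] at hk
      have h3 : ip v w ^ 2 < B ^ 2 := by linarith
      have h4 := abs_lt_of_sq_lt_sq h3 hB0.le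
      exact abs_lt.1 h4
    unfold wt5
    simp only [hIoo]
    by_cases h : ip v w % 3 = r3 ∧ ip v w % 5 = r5
    · rw [if_pos h, if_pos h, one_mul]
      have k1 : LL v w = lin ((v 0 : ℤ) : ZMod 3) ((v 1 : ℤ) : ZMod 3) ((v 2 : ℤ) : ZMod 3)
        ((w 0 : ℤ) : ZMod 3) ((w 1 : ℤ) : ZMod 3) ((w 2 : ℤ) : ZMod 3) := rfl
      rw [k1, finF _ _ _ _ _ _ (by rw [← ip_z, hv]; exact cast2 a1)
        (by rw [← ip_z, hw]; exact cast2 a2), ← ip_z]
      have hne : ¬ ((ip v w : ℤ) : ZMod 3) = 0 := by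
        rw [← dvd3]
        rcases hr3 with h' | h' <;> omega
      rw [if_neg hne]
      congr 1
      have hall : (∀ i, (3 : ℤ) ∣ v i + ip v w * w i) ↔
          (((v 0 : ℤ) : ZMod 3) + ((ip v w : ℤ) : ZMod 3) * ((w 0 : ℤ) : ZMod 3) = 0 ∧
            ((v 1 : ℤ) : ZMod 3) + ((ip v w : ℤ) : ZMod 3) * ((w 1 : ℤ) : ZMod 3) = 0 ∧
            ((v 2 : ℤ) : ZMod 3) + ((ip v w : ℤ) : ZMod 3) * ((w 2 : ℤ) : ZMod 3) = 0) := by
        have hi : ∀ i, (3 : ℤ) ∣ v i + ip v w * w i ↔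
            ((v i : ℤ) : ZMod 3) + ((ip v w : ℤ) : ZMod 3) * ((w i : ℤ) : ZMod 3) = 0 := by
          intro i
          rw [dvd3]
          push_cast
          rfl
        simp only [hi]
        constructor
        · intro h
          exact ⟨h 0, h 1, h 2⟩
        · rintro ⟨g0, g1, g2⟩ i
          fin_cases i
          · exact g0
          · exact g1
          · exact g2
      simp only [hall]
    · rw [if_neg h, if_neg h, zero_mul]
  -- the total
  have hT : ∑ v ∈ vec n1, ∑ w ∈ vec n2, LL v w =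
      TT n1 n2 r3 r5 + TT n1 n2 (3 - r3) r5 + TT n1 n2 r3 (5 - r5) + TT n1 n2 (3 - r3) (5 - r5) := by
    unfold TT
    rw [← sum_add_distrib, ← sum_add_distrib, ← sum_add_distrib]
    refine sum_congr rfl fun v hv => ?_
    rw [← sum_add_distrib, ← sum_add_distrib, ← sum_add_distrib]
    refine sum_congr rfl fun w hw => ?_
    rw [mem_vec] at hv hw
    rw [← add_mul, ← add_mul, ← add_mul]
    by_cases hne : (3 : ℤ) ∣ ip v w
    · have k1 : LL v w = lin ((v 0 : ℤ) : ZMod 3) ((v 1 : ℤ) : ZMod 3) ((v 2 : ℤ) : ZMod 3)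
        ((w 0 : ℤ) : ZMod 3) ((w 1 : ℤ) : ZMod 3) ((w 2 : ℤ) : ZMod 3) := rfl
      have h0 : LL v w = 0 := by
        rw [k1, finF _ _ _ _ _ _ (by rw [← ip_z, hv]; exact cast2 a1)
          (by rw [← ip_z, hw]; exact cast2 a2), ← ip_z, if_pos ((dvd3 _).1 hne)]
      rw [h0, mul_zero]
    · obtain ⟨k, hk0, hk⟩ := det_pair v w
      rw [hv, hw] at hk
      have h5 : (5 : ℤ) ∣ (ip v w - r5) * (ip v w + r5) := by
        obtain ⟨j, hj⟩ := hr
        refine ⟨-2 * k - j, ?_⟩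
        linear_combination -hk - hj
      have h5' : ip v w % 5 = r5 ∨ ip v w % 5 = 5 - r5 := by
        have p5 : Prime (5 : ℤ) := by norm_num
        rcases p5.dvd_or_dvd h5 with h | h
        · left; omega
        · right; omega
      have h3' : ip v w % 3 = r3 ∨ ip v w % 3 = 3 - r3 := by
        rcases hr3 with h | h <;> omega
      have hsum : wt5 r3 r5 (ip v w) + wt5 (3 - r3) r5 (ip v w) + wt5 r3 (5 - r5) (ip v w) +
          wt5 (3 - r3) (5 - r5) (ip v w) = 1 := by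
        unfold wt5
        rcases h3' with h3' | h3' <;> rcases h5' with h5' | h5' <;> rw [h3', h5'] <;>
          rcases hr3 with rfl | rfl <;> (repeat rw [if_neg (by omega)]) <;>
          first
          | (rw [if_pos (by omega)]; repeat rw [if_neg (by omega)])
          | skip
        all_goals norm_num
      rw [hsum, one_mul]
  have hr3' : 3 - r3 = 1 ∨ 3 - r3 = 2 := by omega
  have q1 := TT_flip n1 n2 (r5 := r5) hr3
  have q2 := TT_neg n1 n2 hr3 hr0 hr5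
  have q3 := TT_flip n1 n2 (r5 := 5 - r5) hr3
  rw [sum_LL] at hT
  have c1 : cc (n1 : ℤ) = rr n1 - 2 * rr0 n1 := by
    unfold cc
    rw [if_neg (by omega)]
  have c2 : cc (n2 : ℤ) = rr n2 - 2 * rr0 n2 := by
    unfold cc
    rw [if_neg (by omega)]
  have d1 := three_two a1
  have d2 := three_two a2
  rw [hL, c1, c2, ← N0_eq, ← N0_eq]
  have e1 : 4 * TT n1 n2 r3 r5 = N0 n1 * N0 n2 + 3 * (N1 n1 * N1 n2) := by linarith
  have e2 : 4 * (12 * TT n1 n2 r3 r5) =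
      4 * (3 * rr n1 * rr n2 + (rr n1 - 2 * N0 n1) * (rr n2 - 2 * N0 n2)) := by
    have f1 : 4 * (3 * rr n1 * rr n2 + (rr n1 - 2 * N0 n1) * (rr n2 - 2 * N0 n2)) =
        3 * (2 * rr n1) * (2 * rr n2) + (2 * rr n1 - 4 * N0 n1) * (2 * rr n2 - 4 * N0 n2) := by
      ring
    rw [f1, ← d1, ← d2]
    linear_combination 12 * e1
  linarith

end Pool.Agent.Run7.h483.P15
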