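import Pool.Agent.Run7.h483.P15.Par

/-!
# P15 (helper483): the induction for the parity of the Gross sums
-/

set_option autoImplicit false

namespace Pool.Agent.Run7.h483.P15

open Finset
open Pool.Agent.N969.P15 (V3 ip vec rr rr0 cc cp cp0 cp3 tw lrest loc loc3 S_PC S_CP3 Cls0 Cls3 Qc
  S_R S_PAR S_U33 S_U32 S_REL33 S_REL32 S_REL31)

/-- the step for the class `Cls3` -/
theorem I3_step (hPC : S_PC) (hCP3 : S_CP3) (hR : S_R) {m : ℕ}
    (hI0 : ∀ d, d < m → I0 d) (hI3 : ∀ d, d < m → I3 d) : I3 m := by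
  intro hm
  obtain ⟨hs, h4, h3, h5, h2⟩ := cls3_facts hm
  by_cases h1 : m = 1
  · subst h1
    have h6 : rr ((3 * 1 : ℕ) : ℤ) = 2 := rr_three.1
    have h7 : cc ((3 * 1 : ℕ) : ℤ) = -6 := rr_three.2
    rw [h6, h7]
    simp
  have hpos : 0 < m := Nat.pos_of_ne_zero hs.ne_zero
  have h1' : 1 < m := by omega
  have hns := nsq hs h1'
  have hU := U33_of hPC hCP3 hR hm h1' hI0
  have hn9 : ∀ d, d ∣ m → ¬ 9 ∣ 3 * d := by
    intro d hd h
    apply h3
    have h6 : 3 ∣ d := by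
      have h7 : 3 * 3 ∣ 3 * d := h
      exact Nat.dvd_of_mul_dvd_mul_left (by norm_num) h7
    exact h6.trans hd
  have e1 : (12 : ℤ) * ∑ d ∈ m.divisors.filter (fun d => d % 4 = 1),
      (cp0 (3 * d : ℕ) (3 * (m / d) : ℕ) : ℤ) = ∑ d ∈ m.divisors.filter (fun d => d % 4 = 1),
      (3 * rr (3 * d : ℕ) * rr (3 * (m / d) : ℕ) + cc (3 * d : ℕ) * cc (3 * (m / d) : ℕ)) := by
    rw [mul_sum]
    refine sum_congr rfl fun d hd => ?_
    rw [mem_filter, Nat.mem_divisors] at hd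
    exact t_REL33 (3 * d) (3 * (m / d)) (Dvd.intro _ rfl) (hn9 d hd.1.1) (Dvd.intro _ rfl)
      (hn9 _ (Nat.div_dvd_of_dvd hd.1.1))
  have hmod : ∀ d, d ∣ m → d % 4 = 1 → (m / d) % 4 = 1 := by
    intro d hd hq
    obtain ⟨k1, k2, k3⟩ := div_facts hs.ne_zero hd
    generalize m / d = e at k1 k3 ⊢
    have h := Nat.mul_mod d e 4
    rw [k1, hq] at h
    omega
  have e2 := sym_div hs.ne_zero hns (fun d => d % 4 = 1) hmod
    (fun d => 3 * rr (3 * d : ℕ) * rr (3 * (m / d) : ℕ) + cc (3 * d : ℕ) * cc (3 * (m / d) : ℕ))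
    (fun d hd _ => by
      rw [Nat.div_div_self hd hs.ne_zero]
      ring)
  rw [e2] at e1
  have hmem : 1 ∈ m.divisors.filter (fun d => d % 4 = 1 ∧ d < m / d) := by
    rw [mem_filter, Nat.mem_divisors]
    refine ⟨⟨one_dvd m, hs.ne_zero⟩, by norm_num, ?_⟩
    rw [Nat.div_one]
    exact h1'
  rw [← add_sum_erase _ _ hmem] at e1
  have e3 : (2 : ℤ) ^ (m.primeFactors.card + 3) ∣
      ∑ d ∈ (m.divisors.filter (fun d => d % 4 = 1 ∧ d < m / d)).erase 1,
      (3 * rr (3 * d : ℕ) * rr (3 * (m / d) : ℕ) + cc (3 * d : ℕ) * cc (3 * (m / d) : ℕ)) := by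
    refine dvd_sum fun d hd => ?_
    rw [mem_erase, mem_filter, Nat.mem_divisors] at hd
    obtain ⟨hd1, ⟨hdm, _⟩, hd4, hlt⟩ := hd
    obtain ⟨k1, k2, k3⟩ := div_facts hs.ne_zero hdm
    have he4 := hmod d hdm hd4
    have hs1 := hs.squarefree_of_dvd hdm
    have hs2 := hs.squarefree_of_dvd (Nat.div_dvd_of_dvd hdm)
    have ho := om_mul hs hdm
    have hd3 : ¬ 3 ∣ d := fun h => h3 (h.trans hdm)
    have he3 : ¬ 3 ∣ m / d := fun h => h3 (h.trans (Nat.div_dvd_of_dvd hdm))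
    have hm5 := hm.2.2.2
    generalize m / d = e at k1 k3 hlt he4 hs2 ho he3 ⊢
    have hd5 : d % 5 = 0 ∨ d % 5 = 1 ∨ d % 5 = 2 ∨ d % 5 = 3 ∨ d % 5 = 4 := by omega
    by_cases h14 : d % 5 = 1 ∨ d % 5 = 4
    · have e5 : e % 5 = 1 ∨ e % 5 = 4 := by
        have h := Nat.mul_mod d e 5
        rw [k1] at h
        have h' : e % 5 = 0 ∨ e % 5 = 1 ∨ e % 5 = 2 ∨ e % 5 = 3 ∨ e % 5 = 4 := by omega
        rcases h14 with h'' | h'' <;> rcases h' with h' | h' | h' | h' | h' <;>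
          rw [h', h''] at h <;> omega
      have c1 : Cls3 d := ⟨hs1, hd4, hd3, h14⟩
      have c2 : Cls3 e := ⟨hs2, he4, he3, e5⟩
      have l1 : d < m := by nlinarith
      have l2 : e < m := by
        have : 1 < d := by omega
        nlinarith
      have h := (par_mul (R3 hR c1) (hI3 d l1 c1) (R3 hR c2) (hI3 e l2 c2)).1
      have e6 : d.primeFactors.card + 1 + (e.primeFactors.card + 1) + 1 =
          m.primeFactors.card + 3 := by omega
      rwa [e6] at h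
    · have hd0 : d % 5 ≠ 0 := fun h => h5 ((Nat.dvd_of_mod_eq_zero h).trans hdm)
      have h6 : ((3 * d : ℕ) : ℤ) % 5 = 1 ∨ ((3 * d : ℕ) : ℤ) % 5 = 4 := by
        push_cast
        omega
      rw [(rr_none h6).1, (rr_none h6).2]
      simp
  have e4 : 3 * rr ((3 * 1 : ℕ) : ℤ) * rr ((3 * (m / 1) : ℕ) : ℤ) +
      cc ((3 * 1 : ℕ) : ℤ) * cc ((3 * (m / 1) : ℕ) : ℤ) =
      6 * (rr (3 * m : ℕ) - cc (3 * m : ℕ)) := by
    have h6 : rr ((3 * 1 : ℕ) : ℤ) = 2 := rr_three.1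
    have h7 : cc ((3 * 1 : ℕ) : ℤ) = -6 := rr_three.2
    rw [h6, h7, Nat.div_one]
    ring
  rw [e4] at e1
  -- conclusion
  obtain ⟨u, hu⟩ := hU
  obtain ⟨w, hw⟩ := e3
  rw [hu, hw] at e1
  have e7 : (2 : ℤ) ^ (m.primeFactors.card + 1 + 1) * (12 * u) =
      2 * (6 * (rr (3 * m : ℕ) - cc (3 * m : ℕ)) + 2 ^ (m.primeFactors.card + 3) * w) := by
    rw [← e1]
    ring
  have e8 : 3 * (rr (3 * m : ℕ) - cc (3 * m : ℕ)) =
      2 ^ (m.primeFactors.card + 1 + 1) * (3 * u - w) := by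
    have : (2 : ℤ) ^ (m.primeFactors.card + 3) = 2 * 2 ^ (m.primeFactors.card + 1 + 1) := by ring
    rw [this] at e7
    linarith
  exact odd_dvd 3 (by decide) ⟨_, e8⟩

/-- the step for the class `Cls0` -/
theorem I0_step (hPC : S_PC) (hR : S_R) {n : ℕ}
    (hI0 : ∀ d, d < n → I0 d) (hI3 : ∀ d, d < n → I3 d) : I0 n := by
  intro hn
  obtain ⟨hs, h4, h3, h5, h5', h3', hgt⟩ := cls0_facts hn
  have hU := t_U32 hPC n hn
  have hmem : 1 ∈ n.divisors.filter (fun d => d % 4 = 1) := by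
    rw [mem_filter, Nat.mem_divisors]
    exact ⟨⟨one_dvd n, hs.ne_zero⟩, by norm_num⟩
  rw [← add_sum_erase _ _ hmem] at hU
  have e3 : (2 : ℤ) ^ (n.primeFactors.card + 2) ∣
      ∑ d ∈ (n.divisors.filter (fun d => d % 4 = 1)).erase 1,
      6 * (cp0 (3 * d : ℕ) (n / d : ℕ) : ℤ) := by
    refine dvd_sum fun d hd => ?_
    rw [mem_erase, mem_filter, Nat.mem_divisors] at hd
    obtain ⟨hd1, ⟨hdm, _⟩, hd4⟩ := hd
    obtain ⟨k1, k2, k3⟩ := div_facts hs.ne_zero hdm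
    have hs1 := hs.squarefree_of_dvd hdm
    have hs2 := hs.squarefree_of_dvd (Nat.div_dvd_of_dvd hdm)
    have ho := om_mul hs hdm
    have hd3 : ¬ 3 ∣ d := fun h => h3' (h.trans hdm)
    have h9 : ¬ 9 ∣ 3 * d := by
      intro h
      have h7 : 3 * 3 ∣ 3 * d := h
      exact hd3 (Nat.dvd_of_mul_dvd_mul_left (by norm_num) h7)
    generalize n / d = e at k1 k3 hs2 ho ⊢
    have he4 : e % 4 = 3 := by
      have h := Nat.mul_mod d e 4
      rw [k1, hd4] at h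
      omega
    have hd3c : d % 3 = 1 ∨ d % 3 = 2 := by omega
    rcases hd3c with hd3c | hd3c
    · have he3 : e % 3 = 2 := by
        have h := Nat.mul_mod d e 3
        rw [k1, hd3c] at h
        omega
      rw [t_REL32 (3 * d) e (Dvd.intro _ rfl) h9 he3]
      have hd5 : d % 5 = 0 ∨ d % 5 = 1 ∨ d % 5 = 2 ∨ d % 5 = 3 ∨ d % 5 = 4 := by omega
      by_cases h14 : d % 5 = 1 ∨ d % 5 = 4
      · have e5 : e % 5 = 2 ∨ e % 5 = 3 := by
          have h := Nat.mul_mod d e 5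
          rw [k1] at h
          have h' : e % 5 = 0 ∨ e % 5 = 1 ∨ e % 5 = 2 ∨ e % 5 = 3 ∨ e % 5 = 4 := by omega
          rcases h14 with h'' | h'' <;> rcases h' with h' | h' | h' | h' | h' <;>
            rw [h', h''] at h <;> omega
        have c1 : Cls3 d := ⟨hs1, hd4, hd3, h14⟩
        have c2 : Cls0 e := ⟨hs2, by omega⟩
        have l1 : d < n := by
          have : 1 < e := by omega
          nlinarith
        have l2 : e < n := by
          have : 1 < d := by omega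
          nlinarith
        have h := (par_mul (R3 hR c1) (hI3 d l1 c1) (R0 hR c2) (hI0 e l2 c2)).1
        have e6 : d.primeFactors.card + 1 + e.primeFactors.card + 1 =
            n.primeFactors.card + 2 := by omega
        rwa [e6] at h
      · have hd0 : d % 5 ≠ 0 := fun h => h5' ((Nat.dvd_of_mod_eq_zero h).trans hdm)
        have h6 : ((3 * d : ℕ) : ℤ) % 5 = 1 ∨ ((3 * d : ℕ) : ℤ) % 5 = 4 := by
          push_cast
          omega
        rw [(rr_none h6).1, (rr_none h6).2]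
        simp
    · have he3 : e % 3 = 1 := by
        have h := Nat.mul_mod d e 3
        rw [k1, hd3c] at h
        have h' : e % 3 = 0 ∨ e % 3 = 1 ∨ e % 3 = 2 := by omega
        rcases h' with h' | h' | h' <;> rw [h'] at h <;> omega
      rw [t_REL31 (3 * d) e (Dvd.intro _ rfl) h9 he3]
      simp
  have e4 : 6 * (cp0 ((3 * 1 : ℕ) : ℤ) ((n / 1 : ℕ) : ℤ) : ℤ) = 6 * (rr n - cc n) := by
    have h := t_REL32 (3 * 1) n (Dvd.intro _ rfl) (by norm_num) h3
    rw [Nat.div_one, h]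
    have h6 : rr ((3 * 1 : ℕ) : ℤ) = 2 := rr_three.1
    have h7 : cc ((3 * 1 : ℕ) : ℤ) = -6 := rr_three.2
    rw [h6, h7]
    ring
  obtain ⟨u, hu⟩ := hU
  obtain ⟨w, hw⟩ := e3
  rw [← mul_sum] at hw
  have e7 : 3 * (rr n - cc n) = 2 ^ (n.primeFactors.card + 1) * (3 * u - w) := by
    have h8 : (2 : ℤ) ^ (n.primeFactors.card + 2) = 2 * 2 ^ (n.primeFactors.card + 1) := by ring
    rw [h8] at hw
    linarith
  exact odd_dvd 3 (by decide) ⟨_, e7⟩

theorem I_all (hPC : S_PC) (hCP3 : S_CP3) (hR : S_R) (n : ℕ) : I0 n ∧ I3 n := by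
  induction n using Nat.strong_induction_on with
  | _ n ih =>
    exact ⟨I0_step hPC hR (fun d hd => (ih d hd).1) (fun d hd => (ih d hd).2),
      I3_step hPC hCP3 hR (fun d hd => (ih d hd).1) (fun d hd => (ih d hd).2)⟩

theorem t_U33 (hPC : S_PC) (hCP3 : S_CP3) (hR : S_R) : S_U33 := fun _ hm h1 =>
  U33_of hPC hCP3 hR hm h1 fun d _ => (I_all hPC hCP3 hR d).1

/-- PAR: the parity of the Gross sum -/
theorem t_PAR (hPC : S_PC) (hCP3 : S_CP3) (hR : S_R) : S_PAR := by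
  intro n hn
  obtain ⟨hs, h4, h3, h5, h5', h3', hgt⟩ := cls0_facts hn
  obtain ⟨g, hg, hg2⟩ := hR n hs h4 h5 hgt
  obtain ⟨k, hk⟩ := (I_all hPC hCP3 hR n).1 hn
  refine ⟨g - 2 * k, ?_, ?_⟩
  · rw [hg, pow_succ] at hk
    linarith
  · rw [← hg2]
    constructor
    · rintro ⟨j, hj⟩
      exact ⟨j + k, by linarith⟩
    · rintro ⟨j, hj⟩
      exact ⟨j - k, by linarith⟩

end Pool.Agent.Run7.h483.P15
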