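import Pool.Agent.Run7.h483.P15.Fd

/-!
# P15 (helper483): the double divisor sum
-/

set_option autoImplicit false

namespace Pool.Agent.Run7.h483.P15

open Finset

/-! ### Jacobi symbols -/

/-- the symbol as a homomorphism -/
def jm (p : ℕ) : ℤ →* ℤ where
  toFun x := jacobiSym x p
  map_one' := jacobiSym.one_left p
  map_mul' x y := jacobiSym.mul_left x y p

theorem jac_prod_left {ι : Type} (s : Finset ι) (f : ι → ℕ) (p : ℕ) :
    jacobiSym ((∏ i ∈ s, f i : ℕ) : ℤ) p = ∏ i ∈ s, jacobiSym (f i : ℤ) p := by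
  rw [Nat.cast_prod]
  exact map_prod (jm p) _ s

theorem jac_nz {p : ℕ} (hp : p.Prime) (x : ℕ) : jacobiSym (x : ℤ) p ≠ 0 ↔ ¬ p ∣ x := by
  rw [Ne, jacobiSym.eq_zero_iff, not_and_or, not_not, not_not]
  rw [Int.gcd_natCast_natCast]
  constructor
  · rintro (h | h)
    · exact absurd h hp.ne_zero
    · intro h2
      have h3 := Nat.dvd_gcd h2 (dvd_refl p)
      rw [h] at h3
      exact hp.one_lt.ne' (Nat.dvd_one.1 h3)
  · intro h
    right
    rw [← Nat.coprime_iff_gcd_eq_one, Nat.coprime_comm]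
    exact (Nat.Prime.coprime_iff_not_dvd hp).2 h

theorem jac_nz' {p : ℕ} (hp : p.Prime) (x : ℕ) : jacobiSym (-(x : ℤ)) p ≠ 0 ↔ ¬ p ∣ x := by
  rw [← jac_nz hp x]
  refine not_congr ?_
  rw [jacobiSym.eq_zero_iff, jacobiSym.eq_zero_iff, Int.neg_gcd]

theorem jac_sq {x : ℤ} {p : ℕ} (h : jacobiSym x p ≠ 0) : jacobiSym x p * jacobiSym x p = 1 := by
  rcases jacobiSym.trichotomy x p with h1 | h1 | h1
  · exact absurd h1 h
  · rw [h1]; norm_num
  · rw [h1]; norm_num

theorem prod_pF {n : ℕ} (hsq : Squarefree n) : ∏ p ∈ n.primeFactors, p = n :=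
  Nat.prod_primeFactors_of_squarefree hsq

theorem jac_prod_right (x : ℤ) (s : Finset ℕ) (hs : ∀ p ∈ s, p ≠ 0) :
    jacobiSym x (∏ p ∈ s, p) = ∏ p ∈ s, jacobiSym x p := by
  induction s using Finset.induction_on with
  | empty => simp
  | insert a s ha ih =>
    rw [prod_insert ha, prod_insert ha, jacobiSym.mul_right' x (hs a (mem_insert_self a s))
      (prod_ne_zero_iff.2 fun p hp => hs p (mem_insert_of_mem hp)),
      ih fun p hp => hs p (mem_insert_of_mem hp)]

theorem jac_prod (x : ℤ) {n : ℕ} (hsq : Squarefree n) :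
    jacobiSym x n = ∏ p ∈ n.primeFactors, jacobiSym x p := by
  rw [← jac_prod_right x n.primeFactors fun p hp => (Nat.prime_of_mem_primeFactors hp).ne_zero,
    prod_pF hsq]

theorem jac_div (x : ℤ) {n : ℕ} (hsq : Squarefree n) {q : ℕ} (hq : q ∈ n.primeFactors) :
    jacobiSym x (n / q) = ∏ p ∈ n.primeFactors.erase q, jacobiSym x p := by
  have h1 : n / q = ∏ p ∈ n.primeFactors.erase q, p := by
    have h2 := mul_prod_erase n.primeFactors (fun p => p) hq
    rw [prod_pF hsq] at h2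
    have h3 := (Nat.prime_of_mem_primeFactors hq).pos
    exact Nat.div_eq_of_eq_mul_right h3 h2.symm
  rw [h1]
  exact jac_prod_right x _ fun p hp => (Nat.prime_of_mem_primeFactors (mem_of_mem_erase hp)).ne_zero

/-! ### full parts -/

/-- the part of `m` composed of the primes in `U` -/
def G (m : ℕ) (U : Finset ℕ) : ℕ := ∏ q ∈ U, q ^ m.factorization q

theorem G_pos (m : ℕ) {U : Finset ℕ} (hU : ∀ q ∈ U, q.Prime) : 0 < G m U :=
  prod_pos fun q hq => pow_pos (hU q hq).pos _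

theorem pow_dvd_G (m : ℕ) {U : Finset ℕ} {q : ℕ} (hq : q ∈ U) : q ^ m.factorization q ∣ G m U :=
  dvd_prod_of_mem (fun q => q ^ m.factorization q) hq

theorem G_dvd {m z : ℕ} {U : Finset ℕ} (hU : ∀ q ∈ U, q.Prime)
    (h : ∀ q ∈ U, q ^ m.factorization q ∣ z) : G m U ∣ z := by
  refine Finset.prod_dvd_of_isRelPrime ?_ h
  intro p hp q hq hpq
  show IsRelPrime _ _
  rw [← Nat.coprime_iff_isRelPrime]
  exact Nat.Coprime.pow _ _ ((Nat.coprime_primes (hU p hp) (hU q hq)).2 hpq)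

theorem not_dvd_G (m : ℕ) {U : Finset ℕ} (hU : ∀ q ∈ U, q.Prime) {p : ℕ} (hp : p.Prime)
    (hpU : p ∉ U) : ¬ p ∣ G m U := by
  intro h
  obtain ⟨q, hq, h1⟩ := (Prime.dvd_finsetProd_iff hp.prime _).1 h
  have h2 := hp.dvd_of_dvd_pow h1
  rw [Nat.prime_dvd_prime_iff_eq hp (hU q hq)] at h2
  exact hpU (h2 ▸ hq)

theorem G_dvd_self (m : ℕ) {U : Finset ℕ} (hU : ∀ q ∈ U, q.Prime) : G m U ∣ m :=
  G_dvd hU fun q _ => Nat.ordProj_dvd m q

/-! ### the sum -/

/-- the weight at `p` -/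
def Ph (k l S T p a X : ℕ) : ℤ :=
  if p ∣ a ∧ p ∣ X then jacobiSym ((l * (T / X) * (S / a) : ℕ) : ℤ) p
  else jacobiSym (-((k * a * X : ℕ) : ℤ)) p

/-- the factor of a common prime -/
def cq (n k l S T q : ℕ) : ℤ :=
  jacobiSym (-((k * l * S * T / q ^ (S.factorization q + T.factorization q) : ℕ) : ℤ)) q *
    jacobiSym ((q ^ (S.factorization q + T.factorization q) : ℕ) : ℤ) (n / q)

variable {n k l S T : ℕ}

/-- the weight at `p` for a given set of primes -/
theorem Ph_val (hk : k.Coprime n) (hl : l.Coprime n) (hS : 0 < S) (hT : 0 < T)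
    (hJ : ∀ p ∈ n.primeFactors, (p ∣ S ↔ p ∣ T)) {U : Finset ℕ}
    (hU : U ⊆ n.primeFactors.filter (· ∣ S)) {a1 b1 : ℕ} (ha : a1.Coprime n) (hb : b1.Coprime n)
    (haS : G S U * a1 ∣ S) (hbT : G T U * b1 ∣ T) {p : ℕ} (hp : p ∈ n.primeFactors) :
    Ph k l S T p (G S U * a1) (G T U * b1) = jacobiSym (-((k * a1 * b1 : ℕ) : ℤ)) p *
      (∏ q ∈ U.erase p, jacobiSym ((q ^ (S.factorization q + T.factorization q) : ℕ) : ℤ) p) *
      (if p ∈ U then jacobiSym
        (-((k * l * S * T / p ^ (S.factorization p + T.factorization p) : ℕ) : ℤ)) p else 1) := by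
  have hpp := Nat.prime_of_mem_primeFactors hp
  have hpn := Nat.dvd_of_mem_primeFactors hp
  have hUp : ∀ q ∈ U, q.Prime := fun q hq =>
    Nat.prime_of_mem_primeFactors (mem_filter.1 (hU hq)).1
  have hpa : ¬ p ∣ a1 := fun h => hpp.one_lt.ne' (Nat.dvd_one.1 (ha ▸ Nat.dvd_gcd h hpn))
  have hpb : ¬ p ∣ b1 := fun h => hpp.one_lt.ne' (Nat.dvd_one.1 (hb ▸ Nat.dvd_gcd h hpn))
  have hpk : ¬ p ∣ k := fun h => hpp.one_lt.ne' (Nat.dvd_one.1 (hk ▸ Nat.dvd_gcd h hpn))
  have hGG : G S U * G T U = ∏ q ∈ U, q ^ (S.factorization q + T.factorization q) := by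
    unfold G
    rw [← prod_mul_distrib]
    exact prod_congr rfl fun q _ => (pow_add _ _ _).symm
  by_cases hpU : p ∈ U
  · rw [if_pos hpU]
    have hpS : p ∣ S := (mem_filter.1 (hU hpU)).2
    have hpT : p ∣ T := (hJ p hp).1 hpS
    have h1 : p ∣ G S U * a1 := by
      refine Dvd.dvd.mul_right ((dvd_pow_self p ?_).trans (pow_dvd_G S hpU)) _
      exact (hpp.factorization_pos_of_dvd hS.ne' hpS).ne'
    have h2 : p ∣ G T U * b1 := by
      refine Dvd.dvd.mul_right ((dvd_pow_self p ?_).trans (pow_dvd_G T hpU)) _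
      exact (hpp.factorization_pos_of_dvd hT.ne' hpT).ne'
    unfold Ph
    rw [if_pos ⟨h1, h2⟩]
    set Z := l * (T / (G T U * b1)) * (S / (G S U * a1)) with hZ
    set R := ∏ q ∈ U.erase p, q ^ (S.factorization q + T.factorization q) with hR
    have e1 : k * l * S * T = p ^ (S.factorization p + T.factorization p) * (Z * (k * a1 * b1) * R) := by
      obtain ⟨s, hs⟩ := haS
      obtain ⟨t, ht⟩ := hbT
      have hp1 : 0 < G S U * a1 := by
        rcases Nat.eq_zero_or_pos (G S U * a1) with h | h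
        · rw [h, zero_mul] at hs; omega
        · exact h
      have hp2 : 0 < G T U * b1 := by
        rcases Nat.eq_zero_or_pos (G T U * b1) with h | h
        · rw [h, zero_mul] at ht; omega
        · exact h
      have hs' : S / (G S U * a1) = s := Nat.div_eq_of_eq_mul_right hp1 hs
      have ht' : T / (G T U * b1) = t := Nat.div_eq_of_eq_mul_right hp2 ht
      have h3 : p ^ (S.factorization p + T.factorization p) * R = G S U * G T U := by
        rw [hGG]
        exact mul_prod_erase U (fun q => q ^ (S.factorization q + T.factorization q)) hpU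
      rw [hZ, hs', ht']
      calc k * l * S * T = k * l * (G S U * a1 * s) * (G T U * b1 * t) := by rw [← hs, ← ht]
        _ = (G S U * G T U) * (l * t * s * (k * a1 * b1)) := by ring
        _ = p ^ (S.factorization p + T.factorization p) * R * (l * t * s * (k * a1 * b1)) := by
            rw [h3]
        _ = _ := by ring
    have e2 : k * l * S * T / p ^ (S.factorization p + T.factorization p) = Z * (k * a1 * b1) * R :=
      Nat.div_eq_of_eq_mul_right (pow_pos hpp.pos _) e1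
    rw [e2]
    have hRp : ¬ p ∣ R := by
      intro h
      obtain ⟨q, hq, h3⟩ := (Prime.dvd_finsetProd_iff hpp.prime _).1 h
      have h4 := hpp.dvd_of_dvd_pow h3
      rw [Nat.prime_dvd_prime_iff_eq hpp (hUp q (mem_of_mem_erase hq))] at h4
      exact (ne_of_mem_erase hq) h4.symm
    have hABp : ¬ p ∣ k * a1 * b1 := by
      rw [hpp.dvd_mul, hpp.dvd_mul]
      tauto
    have q1 := jac_sq ((jac_nz hpp R).2 hRp)
    have q2 := jac_sq ((jac_nz' hpp (k * a1 * b1)).2 hABp)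
    have q3 : jacobiSym (-((Z * (k * a1 * b1) * R : ℕ) : ℤ)) p =
        jacobiSym (Z : ℤ) p * jacobiSym (-((k * a1 * b1 : ℕ) : ℤ)) p * jacobiSym (R : ℤ) p := by
      rw [← jacobiSym.mul_left, ← jacobiSym.mul_left]
      congr 1
      push_cast
      ring
    rw [q3, ← jac_prod_left, ← hR]
    calc jacobiSym (Z : ℤ) p = jacobiSym (Z : ℤ) p * 1 * 1 := by ring
      _ = jacobiSym (Z : ℤ) p * (jacobiSym (-((k * a1 * b1 : ℕ) : ℤ)) p *
          jacobiSym (-((k * a1 * b1 : ℕ) : ℤ)) p) * (jacobiSym (R : ℤ) p * jacobiSym (R : ℤ) p) := by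
          rw [q1, q2]
      _ = _ := by ring
  · rw [if_neg hpU, mul_one, erase_eq_of_notMem hpU, ← jac_prod_left, ← hGG]
    unfold Ph
    have h1 : ¬ p ∣ G S U * a1 := by
      rw [hpp.dvd_mul]
      rintro (h | h)
      · exact not_dvd_G S hUp hpp hpU h
      · exact hpa h
    rw [if_neg (fun h => h1 h.1), ← jacobiSym.mul_left]
    congr 1
    push_cast
    ring

/-- the product of the weights -/
theorem Ph_prod (hsq : Squarefree n) (hk : k.Coprime n) (hl : l.Coprime n) (hS : 0 < S) (hT : 0 < T)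
    (hJ : ∀ p ∈ n.primeFactors, (p ∣ S ↔ p ∣ T)) {U : Finset ℕ}
    (hU : U ⊆ n.primeFactors.filter (· ∣ S)) {a1 b1 : ℕ} (ha : a1.Coprime n) (hb : b1.Coprime n)
    (haS : G S U * a1 ∣ S) (hbT : G T U * b1 ∣ T) :
    ∏ p ∈ n.primeFactors, Ph k l S T p (G S U * a1) (G T U * b1) =
      jacobiSym (-(k : ℤ)) n * jacobiSym (a1 : ℤ) n * jacobiSym (b1 : ℤ) n *
        ∏ q ∈ U, cq n k l S T q := by
  have hUn : U ⊆ n.primeFactors := hU.trans (filter_subset _ _)
  rw [prod_congr rfl fun p hp => Ph_val hk hl hS hT hJ hU ha hb haS hbT hp, prod_mul_distrib,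
    prod_mul_distrib, ← jac_prod _ hsq]
  have e1 : jacobiSym (-((k * a1 * b1 : ℕ) : ℤ)) n =
      jacobiSym (-(k : ℤ)) n * jacobiSym (a1 : ℤ) n * jacobiSym (b1 : ℤ) n := by
    rw [← jacobiSym.mul_left, ← jacobiSym.mul_left]
    congr 1
    push_cast
    ring
  have e2 : ∏ p ∈ n.primeFactors, ∏ q ∈ U.erase p,
      jacobiSym ((q ^ (S.factorization q + T.factorization q) : ℕ) : ℤ) p =
      ∏ q ∈ U, jacobiSym ((q ^ (S.factorization q + T.factorization q) : ℕ) : ℤ) (n / q) := by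
    have h1 : ∀ q ∈ U, jacobiSym ((q ^ (S.factorization q + T.factorization q) : ℕ) : ℤ) (n / q) =
        ∏ p ∈ n.primeFactors.erase q,
          jacobiSym ((q ^ (S.factorization q + T.factorization q) : ℕ) : ℤ) p := fun q hq =>
      jac_div _ hsq (hUn hq)
    rw [prod_congr rfl h1]
    refine prod_comm' fun p q => ?_
    simp only [mem_erase]
    constructor
    · rintro ⟨h1, h2, h3⟩
      exact ⟨⟨h2.symm, h1⟩, h3⟩
    · rintro ⟨⟨h1, h2⟩, h3⟩
      exact ⟨h2, h1.symm, h3⟩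
  have e3 : ∏ p ∈ n.primeFactors, (if p ∈ U then jacobiSym
        (-((k * l * S * T / p ^ (S.factorization p + T.factorization p) : ℕ) : ℤ)) p else 1) =
      ∏ p ∈ U, jacobiSym
        (-((k * l * S * T / p ^ (S.factorization p + T.factorization p) : ℕ) : ℤ)) p := by
    rw [← prod_filter]
    refine prod_congr ?_ fun _ _ => rfl
    ext p
    rw [mem_filter]
    exact ⟨fun h => h.2, fun h => ⟨hUn h, h⟩⟩
  rw [e1, e2, e3]
  unfold cq
  rw [prod_mul_distrib]
  ring

/-- **the double divisor sum** -/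
theorem dsum (hsq : Squarefree n) (hk : k.Coprime n) (hl : l.Coprime n) (hS : 0 < S) (hT : 0 < T)
    (hJ : ∀ p ∈ n.primeFactors, (p ∣ S ↔ p ∣ T)) :
    ∑ a ∈ S.divisors, ∑ X ∈ T.divisors, ∏ p ∈ n.primeFactors, Ph k l S T p a X =
      jacobiSym (-(k : ℤ)) n * F n S * F n T *
        ∏ q ∈ n.primeFactors.filter (· ∣ S), (1 + cq n k l S T q) := by
  have hn0 : n ≠ 0 := hsq.ne_zero
  have hF : ∀ m : ℕ, F n m = ∑ d ∈ m.divisors.filter (fun d => d.Coprime n), jacobiSym (d : ℤ) n := by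
    intro m
    unfold F
    rw [sum_filter]
    refine sum_congr rfl fun d _ => ?_
    split_ifs with h
    · rfl
    · rw [jacobiSym.eq_zero_iff]
      exact ⟨hn0, fun h1 => h (by rwa [Int.gcd_natCast_natCast] at h1)⟩
  rw [hF S, hF T, prod_one_add, ← sum_product']
  set J := n.primeFactors.filter (· ∣ S) with hJd
  have hJp : ∀ q ∈ J, q.Prime := fun q hq => Nat.prime_of_mem_primeFactors (mem_filter.1 hq).1
  have e1 : jacobiSym (-(k : ℤ)) n * (∑ d ∈ S.divisors.filter (fun d => d.Coprime n), jacobiSym (d : ℤ) n) *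
      (∑ d ∈ T.divisors.filter (fun d => d.Coprime n), jacobiSym (d : ℤ) n) *
      (∑ U ∈ J.powerset, ∏ q ∈ U, cq n k l S T q) =
      ∑ x ∈ J.powerset ×ˢ (S.divisors.filter (fun d => d.Coprime n) ×ˢ
        T.divisors.filter (fun d => d.Coprime n)),
        jacobiSym (-(k : ℤ)) n * jacobiSym (x.2.1 : ℤ) n * jacobiSym (x.2.2 : ℤ) n *
          ∏ q ∈ x.1, cq n k l S T q := by
    rw [sum_product, mul_sum]
    refine sum_congr rfl fun U _ => ?_
    rw [sum_product, mul_assoc (jacobiSym (-(k : ℤ)) n), sum_mul_sum, mul_sum, sum_mul]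
    refine sum_congr rfl fun a _ => ?_
    rw [mul_sum, sum_mul]
    refine sum_congr rfl fun b _ => ?_
    ring
  rw [e1]
  symm
  have hcop : ∀ {a p : ℕ}, a.Coprime n → p ∈ n.primeFactors → ¬ p ∣ a := fun {a p} ha hp h =>
    (Nat.prime_of_mem_primeFactors hp).one_lt.ne'
      (Nat.dvd_one.1 (ha ▸ Nat.dvd_gcd h (Nat.dvd_of_mem_primeFactors hp)))
  have hGc : ∀ (m : ℕ) {U : Finset ℕ}, U ⊆ J → ∀ {a : ℕ}, a.Coprime n → (G m U).Coprime a := by
    intro m U hU a ha
    unfold G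
    refine Nat.Coprime.prod_left fun q hq => Nat.Coprime.pow_left _ ?_
    exact ((hJp q (hU hq)).coprime_iff_not_dvd).2 (hcop ha (mem_filter.1 (hU hq)).1)
  -- the primes of `U` from `a`
  have hmemU : ∀ {m : ℕ}, (∀ q ∈ J, q ∣ m) → m ≠ 0 → ∀ {U : Finset ℕ}, U ⊆ J → ∀ {a : ℕ},
      a.Coprime n → ∀ q ∈ J, (q ∣ G m U * a ↔ q ∈ U) := by
    intro m hm hm0 U hU a ha q hq
    have hqp := hJp q hq
    constructor
    · intro h
      by_contra hqU
      rcases (hqp.dvd_mul).1 h with h1 | h1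
      · exact not_dvd_G m (fun r hr => hJp r (hU hr)) hqp hqU h1
      · exact hcop ha (mem_filter.1 hq).1 h1
    · intro h
      refine Dvd.dvd.mul_right ((dvd_pow_self q ?_).trans (pow_dvd_G m h)) _
      exact (hqp.factorization_pos_of_dvd hm0 (hm q hq)).ne'
  have hJS : ∀ q ∈ J, q ∣ S := fun q hq => (mem_filter.1 hq).2
  have hJT : ∀ q ∈ J, q ∣ T := fun q hq => (hJ q (mem_filter.1 hq).1).1 (hJS q hq)
  refine sum_of_injOn (fun x : Finset ℕ × ℕ × ℕ => (G S x.1 * x.2.1, G T x.1 * x.2.2)) ?_ ?_ ?_ ?_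
  · rintro ⟨U, a, b⟩ hx ⟨U', a', b'⟩ hx' h
    simp only [mem_coe, mem_product, mem_powerset, mem_filter] at hx hx'
    simp only [Prod.mk.injEq] at h
    obtain ⟨hU, ⟨-, ha⟩, -, hb⟩ := hx
    obtain ⟨hU', ⟨-, ha'⟩, -, hb'⟩ := hx'
    have hUU : U = U' := by
      ext q
      constructor
      · intro hq
        rw [← hmemU hJS hS.ne' hU' ha' q (hU hq), ← h.1]
        exact (hmemU hJS hS.ne' hU ha q (hU hq)).2 hq
      · intro hq
        rw [← hmemU hJS hS.ne' hU ha q (hU' hq), h.1]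
        exact (hmemU hJS hS.ne' hU' ha' q (hU' hq)).2 hq
    subst hUU
    have hUp : ∀ q ∈ U, q.Prime := fun q hq => hJp q (hU hq)
    rw [Prod.mk.injEq, Prod.mk.injEq]
    exact ⟨rfl, Nat.eq_of_mul_eq_mul_left (G_pos S hUp) h.1,
      Nat.eq_of_mul_eq_mul_left (G_pos T hUp) h.2⟩
  · rintro ⟨U, a, b⟩ hx
    simp only [mem_coe, mem_product, mem_powerset, mem_filter, Nat.mem_divisors] at hx ⊢
    obtain ⟨hU, ⟨⟨ha1, -⟩, ha⟩, ⟨hb1, -⟩, hb⟩ := hx
    have hUp : ∀ q ∈ U, q.Prime := fun q hq => hJp q (hU hq)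
    exact ⟨⟨(hGc S hU ha).mul_dvd_of_dvd_of_dvd (G_dvd_self S hUp) ha1, hS.ne'⟩,
      (hGc T hU hb).mul_dvd_of_dvd_of_dvd (G_dvd_self T hUp) hb1, hT.ne'⟩
  · rintro ⟨a, X⟩ hx hxi
    simp only [mem_product, Nat.mem_divisors] at hx
    obtain ⟨⟨haS, -⟩, hXT, -⟩ := hx
    by_contra hne
    apply hxi
    have hne' : ∀ p ∈ n.primeFactors, Ph k l S T p a X ≠ 0 := prod_ne_zero_iff.1 hne
    have ha0 : a ≠ 0 := fun h => hS.ne' (by rw [h] at haS; exact zero_dvd_iff.1 haS)
    have hX0 : X ≠ 0 := fun h => hT.ne' (by rw [h] at hXT; exact zero_dvd_iff.1 hXT)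
    have key : ∀ p ∈ n.primeFactors, (p ∣ a ∧ p ∣ X ∧ ¬ p ∣ T / X ∧ ¬ p ∣ S / a) ∨
        (¬ p ∣ a ∧ ¬ p ∣ X) := by
      intro p hp
      have hpp := Nat.prime_of_mem_primeFactors hp
      have h := hne' p hp
      unfold Ph at h
      split_ifs at h with h1
      · rw [jac_nz hpp, hpp.dvd_mul, hpp.dvd_mul] at h
        left
        exact ⟨h1.1, h1.2, fun h2 => h (Or.inl (Or.inr h2)), fun h2 => h (Or.inr h2)⟩
      · rw [jac_nz' hpp, hpp.dvd_mul, hpp.dvd_mul] at h
        right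
        exact ⟨fun h2 => h (Or.inl (Or.inr h2)), fun h2 => h (Or.inr h2)⟩
    set U := J.filter (· ∣ a) with hUd
    have hUJ : U ⊆ J := filter_subset _ _
    have hUp : ∀ q ∈ U, q.Prime := fun q hq => hJp q (hUJ hq)
    -- a general fact
    have full : ∀ {m a : ℕ}, m ≠ 0 → a ∣ m → a ≠ 0 → (∀ q ∈ U, ¬ q ∣ m / a) →
        (∀ p ∈ n.primeFactors, p ∣ a → p ∈ U) →
        ∃ a1 : ℕ, a = G m U * a1 ∧ a1 ∣ m ∧ a1.Coprime n := by
      intro m a hm ham ha0 h1 h2
      have h3 : ∀ q ∈ U, q ^ m.factorization q ∣ a := by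
        intro q hq
        have hqp := hUp q hq
        have h4 : m = a * (m / a) := (Nat.mul_div_cancel' ham).symm
        have h5 : q ^ m.factorization q ∣ a * (m / a) := by
          rw [← h4]
          exact Nat.ordProj_dvd m q
        exact (Nat.Coprime.pow_left _ ((hqp.coprime_iff_not_dvd).2 (h1 q hq))).dvd_of_dvd_mul_right h5
      obtain ⟨a1, ha1⟩ := G_dvd (m := m) hUp h3
      refine ⟨a1, ha1, (Dvd.intro_left _ ha1.symm).trans ham, ?_⟩
      rw [Nat.Coprime, ← Nat.coprime_iff_gcd_eq_one]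
      refine Nat.Coprime.symm ?_
      rw [Nat.coprime_iff_gcd_eq_one]
      by_contra hg
      obtain ⟨p, hpp, hpg⟩ := Nat.exists_prime_and_dvd hg
      have hpn : p ∣ n := hpg.trans (Nat.gcd_dvd_left _ _)
      have hpa : p ∣ a1 := hpg.trans (Nat.gcd_dvd_right _ _)
      have hpm : p ∈ n.primeFactors := Nat.mem_primeFactors.2 ⟨hpp, hpn, hn0⟩
      have hpU := h2 p hpm (hpa.trans (Dvd.intro_left _ ha1.symm))
      have h6 : p ^ (m.factorization p + 1) ∣ m := by
        rw [pow_succ]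
        refine Dvd.dvd.trans (mul_dvd_mul (pow_dvd_G m hpU) hpa) ?_
        rw [← ha1]
        exact ham
      exact Nat.pow_succ_factorization_not_dvd hm hpp h6
    obtain ⟨a1, e1, h1, h2⟩ := full hS.ne' haS ha0 (by
      intro q hq
      have hqn := (mem_filter.1 (hUJ hq)).1
      rcases key q hqn with h | h
      · exact h.2.2.2
      · exact absurd (mem_filter.1 hq).2 h.1) (by
      intro p hp hpa
      exact mem_filter.2 ⟨mem_filter.2 ⟨hp, hpa.trans haS⟩, hpa⟩)
    obtain ⟨b1, e2, h3, h4⟩ := full hT.ne' hXT hX0 (by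
      intro q hq
      have hqn := (mem_filter.1 (hUJ hq)).1
      rcases key q hqn with h | h
      · exact h.2.2.1
      · exact absurd (mem_filter.1 hq).2 h.1) (by
      intro p hp hpX
      rcases key p hp with h | h
      · exact mem_filter.2 ⟨mem_filter.2 ⟨hp, h.1.trans haS⟩, h.1⟩
      · exact absurd hpX h.2)
    refine ⟨(U, a1, b1), ?_, ?_⟩
    · simp only [mem_coe, mem_product, mem_powerset, mem_filter, Nat.mem_divisors]
      exact ⟨hUJ, ⟨⟨h1, hS.ne'⟩, h2⟩, ⟨h3, hT.ne'⟩, h4⟩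
    · show (G S U * a1, G T U * b1) = (a, X)
      rw [← e1, ← e2]
  · rintro ⟨U, a, b⟩ hx
    simp only [mem_product, mem_powerset, mem_filter, Nat.mem_divisors] at hx
    obtain ⟨hU, ⟨⟨ha1, -⟩, ha⟩, ⟨hb1, -⟩, hb⟩ := hx
    have hUp : ∀ q ∈ U, q.Prime := fun q hq => hJp q (hU hq)
    exact (Ph_prod hsq hk hl hS hT hJ hU ha hb
      ((hGc S hU ha).mul_dvd_of_dvd_of_dvd (G_dvd_self S hUp) ha1)
      ((hGc T hU hb).mul_dvd_of_dvd_of_dvd (G_dvd_self T hUp) hb1)).symm

end Pool.Agent.Run7.h483.P15
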