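import Pool.Agent.N969.P15.Defs

/-!
# P15 (helper483): divisor sums of a Jacobi symbol
-/

set_option autoImplicit false

namespace Pool.Agent.Run7.h483.P15

open Finset
open Pool.Agent.Z700 (hh fac)

/-- the sum of the character over the divisors -/
def F (n m : ℕ) : ℤ := ∑ d ∈ m.divisors, jacobiSym (d : ℤ) n

/-- the local sum -/
def fl (n l v : ℕ) : ℤ := ∑ j ∈ range (v + 1), (jacobiSym (l : ℤ) n) ^ j

theorem fl_zero (n l : ℕ) : fl n l 0 = 1 := by
  unfold fl
  simp

/-- the character as an arithmetic function -/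
def gf (n : ℕ) : ArithmeticFunction ℤ := ⟨fun d => if d = 0 then 0 else jacobiSym (d : ℤ) n, by simp⟩

theorem gf_apply (n : ℕ) {d : ℕ} (hd : d ≠ 0) : gf n d = jacobiSym (d : ℤ) n := by
  show (if d = 0 then 0 else jacobiSym (d : ℤ) n) = _
  rw [if_neg hd]

theorem gf_mult (n : ℕ) : (gf n).IsMultiplicative := by
  refine ArithmeticFunction.IsMultiplicative.iff_ne_zero.2 ⟨?_, ?_⟩
  · rw [gf_apply n one_ne_zero, Nat.cast_one, jacobiSym.one_left]
  · intro a b ha hb _
    rw [gf_apply n (mul_ne_zero ha hb), gf_apply n ha, gf_apply n hb, Nat.cast_mul,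
      jacobiSym.mul_left]

/-- the sum over the divisors as an arithmetic function -/
noncomputable def Ff (n : ℕ) : ArithmeticFunction ℤ := (ArithmeticFunction.zeta : ArithmeticFunction ℤ) * gf n

theorem Ff_apply (n m : ℕ) : Ff n m = F n m := by
  unfold Ff F
  rw [ArithmeticFunction.coe_zeta_mul_apply]
  refine sum_congr rfl fun d hd => ?_
  rw [gf_apply n (Nat.pos_of_mem_divisors hd).ne']

theorem F_pp (n l v : ℕ) (hl : l.Prime) : F n (l ^ v) = fl n l v := by
  unfold F fl
  rw [Nat.sum_divisors_prime_pow hl]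
  refine sum_congr rfl fun j _ => ?_
  rw [Nat.cast_pow, jacobiSym.pow_left]

/-- the divisor sum as a product over the primes -/
theorem F_prod (n : ℕ) {m : ℕ} (hm : m ≠ 0) (P : Finset ℕ) (hP : ∀ p ∈ P, p.Prime)
    (hmP : m.primeFactors ⊆ P) : F n m = ∏ l ∈ P, fl n l (m.factorization l) := by
  have hmul : (Ff n).IsMultiplicative := ArithmeticFunction.isMultiplicative_zeta.natCast.mul (gf_mult n)
  have h1 := hmul.multiplicative_factorization (Ff n) hm
  rw [Ff_apply] at h1
  rw [h1, Finsupp.prod, Nat.support_factorization]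
  refine (prod_subset hmP fun p hp hpm => ?_).trans ?_
  · rw [Nat.factorization_eq_zero_of_not_dvd (fun h => hpm (Nat.mem_primeFactors.2 ⟨hP p hp, h, hm⟩)),
      pow_zero, Ff_apply]
    simp [F]
  · refine prod_congr rfl fun p hp => ?_
    rw [Ff_apply, F_pp n p _ (hP p hp)]

end Pool.Agent.Run7.h483.P15
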