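import Pool.Agent.Run7.h483.P15.Par2
import Pool.Agent.Run7.h135.P15.R
import Pool.Agent.Run7.h238.P.CP3

/-!
# P15 (helper483): PAR and U33 without hypotheses
-/

set_option autoImplicit false

namespace Pool.Agent.Run7.h483.P15

open Pool.Agent.N969.P15 (S_PAR S_U33 S_U32)

theorem PAR : S_PAR := t_PAR _root_.Run7.h238.P.pc _root_.Run7.h238.P.t_CP3
  Pool.Agent.Run7.h135.P15.r

theorem U33 : S_U33 := t_U33 _root_.Run7.h238.P.pc _root_.Run7.h238.P.t_CP3
  Pool.Agent.Run7.h135.P15.r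

theorem U32 : S_U32 := t_U32 _root_.Run7.h238.P.pc

end Pool.Agent.Run7.h483.P15
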