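import Pool.Agent.Run7.h483.P15.REL
import Pool.Agent.Run7.h483.P15.Ds

/-!
# P15 (helper483): integral combinations of characters of the subsets of a set of primes
-/

set_option autoImplicit false

namespace Pool.Agent.Run7.h483.P15

open Finset
open Pool.Agent.N969.P15 (tw lrest loc)
open Pool.Agent.Z700 (hh fac)

/-- the character of a sign function -/
def ch (χ : ℕ → ℤ) (A : Finset ℕ) : ℤ := ∏ p ∈ A, χ p

/-- the characters -/
def Ch : Submonoid (Finset ℕ → ℤ) where
  carrier := {f | ∃ χ : ℕ → ℤ, (∀ p, χ p = 1 ∨ χ p = -1) ∧ f = ch χ}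
  one_mem' := ⟨fun _ => 1, fun _ => Or.inl rfl, by funext A; simp [ch]⟩
  mul_mem' := by
    rintro _ _ ⟨χ, hχ, rfl⟩ ⟨ψ, hψ, rfl⟩
    refine ⟨fun p => χ p * ψ p, fun p => ?_, ?_⟩
    · rcases hχ p with h | h <;> rcases hψ p with h' | h' <;> simp [h, h']
    · funext A
      simp [ch, prod_mul_distrib]

/-- the ring of combinations of characters -/
def Gr : Subring (Finset ℕ → ℤ) := Subring.closure (Ch : Set (Finset ℕ → ℤ))

/-- the good functions on the subsets of `P` with a condition -/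
def Gd (P : Finset ℕ) (c : Finset ℕ → Prop) (f : Finset ℕ → ℤ) : Prop :=
  ∃ g ∈ Gr, ∀ A, A ⊆ P → c A → f A = g A

variable {P : Finset ℕ} {c : Finset ℕ → Prop}

theorem Gd.congr {f f' : Finset ℕ → ℤ} (h : Gd P c f) (he : ∀ A, A ⊆ P → c A → f' A = f A) :
    Gd P c f' := by
  obtain ⟨g, hg, h1⟩ := h
  exact ⟨g, hg, fun A hA hc => (he A hA hc).trans (h1 A hA hc)⟩

theorem Gd.mono {c' : Finset ℕ → Prop} {f : Finset ℕ → ℤ} (h : Gd P c f)
    (hcc : ∀ A, A ⊆ P → c' A → c A) : Gd P c' f := by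
  obtain ⟨g, hg, h1⟩ := h
  exact ⟨g, hg, fun A hA hc => h1 A hA (hcc A hA hc)⟩

theorem Gd.add {f f' : Finset ℕ → ℤ} (h : Gd P c f) (h' : Gd P c f') :
    Gd P c (fun A => f A + f' A) := by
  obtain ⟨g, hg, h1⟩ := h
  obtain ⟨g', hg', h1'⟩ := h'
  refine ⟨g + g', Gr.add_mem hg hg', fun A hA hc => ?_⟩
  show f A + f' A = g A + g' A
  rw [h1 A hA hc, h1' A hA hc]

theorem Gd.mul {f f' : Finset ℕ → ℤ} (h : Gd P c f) (h' : Gd P c f') :
    Gd P c (fun A => f A * f' A) := by
  obtain ⟨g, hg, h1⟩ := h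
  obtain ⟨g', hg', h1'⟩ := h'
  refine ⟨g * g', Gr.mul_mem hg hg', fun A hA hc => ?_⟩
  show f A * f' A = g A * g' A
  rw [h1 A hA hc, h1' A hA hc]

theorem Gd.const (k : ℤ) : Gd P c (fun _ => k) :=
  ⟨(k : Finset ℕ → ℤ), intCast_mem Gr k, fun A _ _ => by simp⟩

theorem Gd.prod {ι : Type} (s : Finset ι) (f : ι → Finset ℕ → ℤ) (h : ∀ i ∈ s, Gd P c (f i)) :
    Gd P c (fun A => ∏ i ∈ s, f i A) := by
  classical
  induction s using Finset.induction_on with
  | empty => exact (Gd.const 1).congr fun A _ _ => by simp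
  | insert a s ha ih =>
    refine ((h a (mem_insert_self a s)).mul (ih fun i hi => h i (mem_insert_of_mem hi))).congr ?_
    intro A _ _
    rw [prod_insert ha]

theorem Gd.sum {ι : Type} (s : Finset ι) (f : ι → Finset ℕ → ℤ) (h : ∀ i ∈ s, Gd P c (f i)) :
    Gd P c (fun A => ∑ i ∈ s, f i A) := by
  classical
  induction s using Finset.induction_on with
  | empty => exact (Gd.const 0).congr fun A _ _ => by simp
  | insert a s ha ih =>
    refine ((h a (mem_insert_self a s)).add (ih fun i hi => h i (mem_insert_of_mem hi))).congr ?_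
    intro A _ _
    rw [sum_insert ha]

theorem Gd.pow {f : Finset ℕ → ℤ} (h : Gd P c f) (j : ℕ) : Gd P c (fun A => f A ^ j) := by
  induction j with
  | zero => exact (Gd.const 1).congr fun A _ _ => by simp
  | succ j ih => exact (ih.mul h).congr fun A _ _ => by rw [pow_succ]

/-- the characters are good -/
theorem Gd.char (χ : ℕ → ℤ) (hχ : ∀ p ∈ P, χ p = 1 ∨ χ p = -1) :
    Gd P c (fun A => ∏ p ∈ A, χ p) := by
  refine ⟨ch fun p => if χ p = 1 then 1 else -1, Subring.subset_closure ⟨_, fun p => ?_, rfl⟩, ?_⟩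
  · by_cases h : χ p = 1
    · left; rw [if_pos h]
    · right; rw [if_neg h]
  · intro A hA _
    unfold ch
    refine prod_congr rfl fun p hp => ?_
    dsimp only
    rcases hχ p (hA hp) with h | h
    · rw [h, if_pos rfl]
    · rw [h, if_neg (by norm_num)]

/-- the sum of a combination of characters over the subsets -/
theorem Gr_sum {g : Finset ℕ → ℤ} (hg : g ∈ Gr) (P : Finset ℕ) :
    (2 : ℤ) ^ P.card ∣ ∑ A ∈ P.powerset, g A := by
  have h1 : g ∈ AddSubgroup.closure (Ch : Set (Finset ℕ → ℤ)) := by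
    have h2 := Subring.mem_closure_iff.1 hg
    rwa [Submonoid.closure_eq] at h2
  refine AddSubgroup.closure_induction (p := fun g _ => (2 : ℤ) ^ P.card ∣ ∑ A ∈ P.powerset, g A)
    ?_ ?_ ?_ ?_ h1
  · rintro _ ⟨χ, hχ, rfl⟩
    unfold ch
    have h2 : ∑ A ∈ P.powerset, ∏ p ∈ A, χ p = ∏ p ∈ P, (1 + χ p) := (prod_one_add P).symm
    rw [h2, ← prod_const]
    refine prod_dvd_prod_of_dvd _ _ fun p _ => ?_
    rcases hχ p with h | h
    · rw [h]; norm_num
    · rw [h]; norm_num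
  · simp
  · intro x y _ _ hx hy
    simp only [Pi.add_apply, sum_add_distrib]
    exact dvd_add hx hy
  · intro x _ hx
    simp only [Pi.neg_apply, sum_neg_distrib]
    exact (dvd_neg).2 hx

/-- the sum over the subsets with the condition -/
theorem Gd.total [DecidablePred c] {f : Finset ℕ → ℤ} (h : Gd P c f)
    (hc : Gd P (fun _ => True) (fun A => if c A then 2 else 0)) :
    (2 : ℤ) ^ P.card ∣ 2 * ∑ A ∈ P.powerset.filter c, f A := by
  obtain ⟨g, hg, h1⟩ := h
  obtain ⟨u, hu, h2⟩ := hc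
  have h3 := Gr_sum (Gr.mul_mem hu hg) P
  convert h3 using 1
  rw [sum_filter, mul_sum]
  refine sum_congr rfl fun A hA => ?_
  have h4 := h2 A (mem_powerset.1 hA) trivial
  simp only [Pi.mul_apply]
  rw [← h4]
  dsimp only
  by_cases h5 : c A
  · rw [if_pos h5, if_pos h5, h1 A (mem_powerset.1 hA) h5]
  · rw [if_neg h5, if_neg h5]
    ring

/-- the sum over the subsets with two conditions -/
theorem Gd.total2 [DecidablePred c] {c' : Finset ℕ → Prop} [DecidablePred c'] {f : Finset ℕ → ℤ}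
    (h : Gd P c f) (hc : Gd P (fun _ => True) (fun A => if c A then 2 else 0))
    (hc' : Gd P c (fun A => if c' A then 2 else 0)) :
    (2 : ℤ) ^ P.card ∣ 4 * ∑ A ∈ P.powerset.filter (fun A => c A ∧ c' A), f A := by
  have h1 := (hc'.mul h).total hc
  convert h1 using 1
  rw [sum_filter, sum_filter, mul_sum, mul_sum]
  refine sum_congr rfl fun A _ => ?_
  by_cases h5 : c A
  · by_cases h6 : c' A
    · rw [if_pos ⟨h5, h6⟩, if_pos h5, if_pos h6]
      ring
    · rw [if_neg (fun h => h6 h.2), if_pos h5, if_neg h6]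
      ring
  · rw [if_neg (fun h => h5 h.1), if_neg h5]
    ring

/-! ### the signs modulo `4`, `8` and `3` -/

theorem ch4 (A : Finset ℕ) (hA : ∀ p ∈ A, p % 2 = 1) :
    ∏ p ∈ A, (if p % 4 = 1 then (1 : ℤ) else -1) = (if (∏ p ∈ A, p) % 4 = 1 then 1 else -1) ∧
      (∏ p ∈ A, p) % 2 = 1 := by
  induction A using Finset.induction_on with
  | empty => simp
  | insert a s ha ih =>
    obtain ⟨h1, h2⟩ := ih fun p hp => hA p (mem_insert_of_mem hp)
    have h3 := hA a (mem_insert_self a s)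
    rw [prod_insert ha, prod_insert ha, h1]
    have h4 : a % 4 = 1 ∨ a % 4 = 3 := by omega
    have h5 : (∏ p ∈ s, p) % 4 = 1 ∨ (∏ p ∈ s, p) % 4 = 3 := by omega
    constructor
    · rcases h4 with h4 | h4 <;> rcases h5 with h5 | h5 <;> simp [Nat.mul_mod, h4, h5]
    · rw [Nat.mul_mod, h2, h3]

theorem ch8 (A : Finset ℕ) (hA : ∀ p ∈ A, p % 2 = 1) :
    ∏ p ∈ A, (if p % 8 = 1 ∨ p % 8 = 7 then (1 : ℤ) else -1) =
      (if (∏ p ∈ A, p) % 8 = 1 ∨ (∏ p ∈ A, p) % 8 = 7 then 1 else -1) ∧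
      (∏ p ∈ A, p) % 2 = 1 := by
  induction A using Finset.induction_on with
  | empty => simp
  | insert a s ha ih =>
    obtain ⟨h1, h2⟩ := ih fun p hp => hA p (mem_insert_of_mem hp)
    have h3 := hA a (mem_insert_self a s)
    rw [prod_insert ha, prod_insert ha, h1]
    have h4 : a % 8 = 1 ∨ a % 8 = 3 ∨ a % 8 = 5 ∨ a % 8 = 7 := by omega
    have h5 : (∏ p ∈ s, p) % 8 = 1 ∨ (∏ p ∈ s, p) % 8 = 3 ∨ (∏ p ∈ s, p) % 8 = 5 ∨
      (∏ p ∈ s, p) % 8 = 7 := by omega
    constructor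
    · rcases h4 with h4 | h4 | h4 | h4 <;> rcases h5 with h5 | h5 | h5 | h5 <;>
        simp [Nat.mul_mod, h4, h5]
    · rw [Nat.mul_mod, h2, h3]

theorem ch3 (A : Finset ℕ) (hA : ∀ p ∈ A, p % 3 ≠ 0) :
    ∏ p ∈ A, (if p % 3 = 1 then (1 : ℤ) else -1) = (if (∏ p ∈ A, p) % 3 = 1 then 1 else -1) ∧
      (∏ p ∈ A, p) % 3 ≠ 0 := by
  induction A using Finset.induction_on with
  | empty => simp
  | insert a s ha ih =>
    obtain ⟨h1, h2⟩ := ih fun p hp => hA p (mem_insert_of_mem hp)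
    have h3 := hA a (mem_insert_self a s)
    rw [prod_insert ha, prod_insert ha, h1]
    have h4 : a % 3 = 1 ∨ a % 3 = 2 := by omega
    have h5 : (∏ p ∈ s, p) % 3 = 1 ∨ (∏ p ∈ s, p) % 3 = 2 := by omega
    constructor
    · rcases h4 with h4 | h4 <;> rcases h5 with h5 | h5 <;> simp [Nat.mul_mod, h4, h5]
    · rcases h4 with h4 | h4 <;> rcases h5 with h5 | h5 <;> simp [Nat.mul_mod, h4, h5]

/-- the condition modulo `4` -/
def c4 (A : Finset ℕ) : Prop := (∏ p ∈ A, p) % 4 = 3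

instance : DecidablePred c4 := fun A => by unfold c4; infer_instance

/-- the condition modulo `3` -/
def c3 (A : Finset ℕ) : Prop := (∏ p ∈ A, p) % 3 = 2

instance : DecidablePred c3 := fun A => by unfold c3; infer_instance

theorem gd_c4 (hP : ∀ p ∈ P, p % 2 = 1) : Gd P c (fun A => if c4 A then 2 else 0) := by
  refine ((Gd.const 1).add ((Gd.const (-1)).mul (Gd.char (fun p => if p % 4 = 1 then (1 : ℤ) else -1)
    fun p _ => ?_))).congr ?_
  · by_cases h : p % 4 = 1
    · left; exact if_pos h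
    · right; exact if_neg h
  · intro A hA _
    obtain ⟨h1, h2⟩ := ch4 A fun p hp => hP p (hA hp)
    rw [h1]
    unfold c4
    have h5 : (∏ p ∈ A, p) % 4 = 1 ∨ (∏ p ∈ A, p) % 4 = 3 := by omega
    rcases h5 with h5 | h5 <;> simp [h5]

theorem gd_c3 (hP : ∀ p ∈ P, p % 3 ≠ 0) : Gd P c (fun A => if c3 A then 2 else 0) := by
  refine ((Gd.const 1).add ((Gd.const (-1)).mul (Gd.char (fun p => if p % 3 = 1 then (1 : ℤ) else -1)
    fun p _ => ?_))).congr ?_
  · by_cases h : p % 3 = 1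
    · left; exact if_pos h
    · right; exact if_neg h
  · intro A hA _
    obtain ⟨h1, h2⟩ := ch3 A fun p hp => hP p (hA hp)
    rw [h1]
    unfold c3
    have h5 : (∏ p ∈ A, p) % 3 = 1 ∨ (∏ p ∈ A, p) % 3 = 2 := by omega
    rcases h5 with h5 | h5 <;> simp [h5]

theorem gd_mem (q : ℕ) : Gd P c (fun A => if q ∈ A then 2 else 0) := by
  refine ((Gd.const 1).add ((Gd.const (-1)).mul (Gd.char (fun p => if p = q then (-1 : ℤ) else 1)
    fun p _ => ?_))).congr ?_
  · by_cases h : p = q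
    · right; exact if_pos h
    · left; exact if_neg h
  · intro A hA _
    rw [prod_ite_eq']
    by_cases h : q ∈ A <;> simp [h]

/-! ### the local factors -/

theorem dvd_prodP {A : Finset ℕ} (hA : ∀ p ∈ A, p.Prime) {l : ℕ} (hl : l.Prime) :
    l ∣ ∏ p ∈ A, p ↔ l ∈ A := by
  constructor
  · intro h
    obtain ⟨q, hq, h1⟩ := (Prime.dvd_finsetProd_iff hl.prime _).1 h
    rw [Nat.prime_dvd_prime_iff_eq hl (hA q hq)] at h1
    exact h1 ▸ hq
  · exact fun h => dvd_prod_of_mem (fun p => p) h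

theorem jac_pm {l x : ℕ} (hl : l.Prime) (h : ¬ l ∣ x) :
    jacobiSym (x : ℤ) l = 1 ∨ jacobiSym (x : ℤ) l = -1 := by
  rcases jacobiSym.trichotomy (x : ℤ) l with h1 | h1 | h1
  · exact absurd h1 ((jac_nz hl x).2 h)
  · exact Or.inl h1
  · exact Or.inr h1

theorem jac_neg_nat (x l : ℕ) : jacobiSym (-(x : ℤ)) l = jacobiSym (-1) l * jacobiSym (x : ℤ) l := by
  rw [← jacobiSym.mul_left]
  congr 1
  ring

theorem gd_jac {l : ℕ} (hl : l.Prime) (hP : ∀ p ∈ P, p.Prime) (hlP : l ∉ P) :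
    Gd P c (fun A => jacobiSym (-((∏ p ∈ A, p : ℕ) : ℤ)) l) := by
  refine ((Gd.const (jacobiSym (-1) l)).mul (Gd.char (fun p => jacobiSym (p : ℤ) l) ?_)).congr ?_
  · intro p hp
    refine jac_pm hl fun h => hlP ?_
    rw [Nat.prime_dvd_prime_iff_eq hl (hP p hp)] at h
    exact h ▸ hp
  · intro A _ _
    rw [jac_neg_nat, jac_prod_left A (fun p => p) l]

/-- the symbol at a prime of `P` with an odd valuation -/
def hc (l D : ℕ) (A : Finset ℕ) : ℤ :=
  if l ∈ A then jacobiSym (-(((∏ p ∈ A, p) / l * (D / l ^ D.factorization l) : ℕ) : ℤ)) l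
  else jacobiSym (-((∏ p ∈ A, p : ℕ) : ℤ)) l

theorem gd_hc {l D : ℕ} (hl : l.Prime) (hP : ∀ p ∈ P, p.Prime) (hD : D ≠ 0) :
    Gd P c (hc l D) := by
  refine ((Gd.const (jacobiSym (-1) l)).mul (Gd.char (fun p => if p = l then
    jacobiSym ((D / l ^ D.factorization l : ℕ) : ℤ) l else jacobiSym (p : ℤ) l) ?_)).congr ?_
  · intro p hp
    by_cases h : p = l
    · rw [if_pos h]
      exact jac_pm hl (Nat.not_dvd_ordCompl hl hD)
    · rw [if_neg h]
      refine jac_pm hl fun h1 => h ?_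
      rw [Nat.prime_dvd_prime_iff_eq hl (hP p hp)] at h1
      exact h1.symm
  · intro A _ _
    unfold hc
    by_cases h : l ∈ A
    · rw [if_pos h, jac_neg_nat, Nat.cast_mul, jacobiSym.mul_left, ← mul_prod_erase A (fun p => p) h,
        Nat.mul_div_cancel_left _ hl.pos, jac_prod_left (A.erase l) (fun p => p) l,
        ← mul_prod_erase A _ h, if_pos rfl]
      have h1 : ∏ p ∈ A.erase l, (if p = l then
          jacobiSym ((D / l ^ D.factorization l : ℕ) : ℤ) l else jacobiSym (p : ℤ) l) =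
          ∏ p ∈ A.erase l, jacobiSym (p : ℤ) l :=
        prod_congr rfl fun p hp => if_neg (ne_of_mem_erase hp)
      rw [h1]
      ring
    · rw [if_neg h, jac_neg_nat, jac_prod_left A (fun p => p) l]
      congr 1
      exact prod_congr rfl fun p hp => (if_neg (fun h' : p = l => h (h' ▸ hp))).symm

theorem gd_fac {l D : ℕ} (hl : l.Prime) (hP : ∀ p ∈ P, p.Prime) (hD : D ≠ 0)
    (hv : l ∈ P → D.factorization l = 1) :
    Gd P c (fun A => fac (∏ p ∈ A, p) D l) := by
  by_cases hlP : l ∈ P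
  · have h1 := hv hlP
    refine ((Gd.const 1).add (gd_hc (l := l) (D := D) hl hP hD)).congr ?_
    intro A hA _
    have hd := dvd_prodP (fun p hp => hP p (hA hp)) hl
    unfold fac hc
    by_cases h : l ∈ A
    · rw [if_pos (hd.2 h), if_pos h]
      unfold hh
      rw [h1, if_neg (by decide)]
    · rw [if_neg (fun h' => h (hd.1 h')), if_neg h, h1]
      simp [sum_range_succ]
  · refine (Gd.sum (range (D.factorization l + 1))
      (fun j A => (jacobiSym (-((∏ p ∈ A, p : ℕ) : ℤ)) l) ^ j)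
      fun j _ => (gd_jac hl hP hlP).pow j).congr ?_
    intro A hA _
    have hd := dvd_prodP (fun p hp => hP p (hA hp)) hl
    unfold fac
    rw [if_neg fun h' => hlP (hA (hd.1 h'))]

theorem gd_tw (D : ℕ) (hP : ∀ p ∈ P, p % 2 = 1) : Gd P c4 (fun A => tw (∏ p ∈ A, p) D) := by
  refine (Gd.sum (range (D.factorization 2 - 1))
    (fun j A => (∏ p ∈ A, (if p % 8 = 1 ∨ p % 8 = 7 then (1 : ℤ) else -1)) ^ j)
    fun j _ => (Gd.char (fun p => if p % 8 = 1 ∨ p % 8 = 7 then (1 : ℤ) else -1) ?_).pow j).congr ?_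
  · intro p _
    by_cases h : p % 8 = 1 ∨ p % 8 = 7
    · left; exact if_pos h
    · right; exact if_neg h
  · intro A hA hcA
    unfold tw
    refine sum_congr rfl fun j _ => ?_
    obtain ⟨h1, h2⟩ := ch8 A fun p hp => hP p (hA hp)
    rw [h1]
    unfold c4 at hcA
    congr 1
    have h5 : (∏ p ∈ A, p) % 8 = 3 ∨ (∏ p ∈ A, p) % 8 = 7 := by omega
    rcases h5 with h5 | h5 <;> simp [h5]

/-- the local densities away from `3` are good -/
theorem gd_lrest {D : ℕ} (hP : ∀ p ∈ P, p.Prime) (hP2 : 2 ∉ P) (hD : D ≠ 0)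
    (hv : ∀ l ∈ P, l ∣ D → l ≠ 3 → D.factorization l = 1) :
    Gd P c4 (fun A => lrest (∏ p ∈ A, p) D) := by
  have hodd : ∀ p ∈ P, p % 2 = 1 := by
    intro p hp
    rcases (hP p hp).eq_two_or_odd with h | h
    · exact absurd (h ▸ hp) hP2
    · exact h
  unfold lrest
  by_cases h5 : Odd (D.factorization 5)
  · simp only [if_pos h5]
    refine (gd_tw D hodd).mul (Gd.prod _ _ fun l hl => ?_)
    have h1 := mem_of_mem_erase hl
    have h3 : l ≠ 3 := ne_of_mem_erase h1
    have h4 := mem_of_mem_erase (mem_of_mem_erase h1)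
    exact gd_fac (Nat.prime_of_mem_primeFactors h4) hP hD
      fun hlP => hv l hlP (Nat.dvd_of_mem_primeFactors h4) h3
  · simp only [if_neg h5]
    exact Gd.const 0

/-- the local densities are good -/
theorem gd_loc {D : ℕ} (hP : ∀ p ∈ P, p.Prime) (hP2 : 2 ∉ P) (hD : D ≠ 0)
    (hv : ∀ l ∈ P, l ∣ D → D.factorization l = 1) :
    Gd P c4 (fun A => loc (∏ p ∈ A, p) D) := by
  have hodd : ∀ p ∈ P, p % 2 = 1 := by
    intro p hp
    rcases (hP p hp).eq_two_or_odd with h | h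
    · exact absurd (h ▸ hp) hP2
    · exact h
  unfold loc
  by_cases h5 : Odd (D.factorization 5)
  · simp only [if_pos h5]
    refine (gd_tw D hodd).mul (Gd.prod _ _ fun l hl => ?_)
    have h4 := mem_of_mem_erase (mem_of_mem_erase hl)
    exact gd_fac (Nat.prime_of_mem_primeFactors h4) hP hD
      fun hlP => hv l hlP (Nat.dvd_of_mem_primeFactors h4)
  · simp only [if_neg h5]
    exact Gd.const 0

/-! ### the divisors as subsets -/

/-- the sum over the divisors of a squarefree number -/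
theorem sum_div {m : ℕ} (hm : Squarefree m) (f : ℕ → ℤ) :
    ∑ d ∈ m.divisors, f d = ∑ A ∈ m.primeFactors.powerset, f (∏ p ∈ A, p) := by
  refine sum_nbij' (fun d => d.primeFactors) (fun A => ∏ p ∈ A, p) ?_ ?_ ?_ ?_ ?_
  · intro d hd
    exact mem_powerset.2 (Nat.primeFactors_mono (Nat.dvd_of_mem_divisors hd) hm.ne_zero)
  · intro A hA
    refine Nat.mem_divisors.2 ⟨?_, hm.ne_zero⟩
    have h1 := prod_dvd_prod_of_subset A m.primeFactors (fun p => p) (mem_powerset.1 hA)
    rwa [prod_pF hm] at h1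
  · intro d hd
    exact prod_pF (hm.squarefree_of_dvd (Nat.dvd_of_mem_divisors hd))
  · intro A hA
    exact Nat.primeFactors_prod fun p hp => Nat.prime_of_mem_primeFactors (mem_powerset.1 hA hp)
  · intro d hd
    rw [prod_pF (hm.squarefree_of_dvd (Nat.dvd_of_mem_divisors hd))]

end Pool.Agent.Run7.h483.P15
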