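import Pool.Agent.Run7.h483.P15.Gd

/-!
# P15 (helper483): the pairs with given inner products and the local densities
-/

set_option autoImplicit false

namespace Pool.Agent.Run7.h483.P15

open Finset
open Pool.Agent.N969.P15 (V3 ip vec rr rr0 cc cp cp0 cp3 tw lrest loc loc3 S_PC S_CP3)
open Pool.Agent.Z700 (hh fac)

/-! ### sums over the pairs -/

theorem ip_Ioo {n1 n2 B : ℤ} (hB : n1 * n2 < B ^ 2) (hB0 : 0 < B) {v w : V3} (hv : v ∈ vec n1)
    (hw : w ∈ vec n2) : ip v w ∈ Ioo (-B) B := by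
  rw [mem_vec] at hv hw
  rw [mem_Ioo]
  obtain ⟨k, hk0, hk⟩ := det_pair v w
  rw [hv, hw] at hk
  have h3 : ip v w ^ 2 < B ^ 2 := by linarith
  exact abs_lt.1 (abs_lt_of_sq_lt_sq h3 hB0.le)

theorem sum_pairs {n1 n2 B : ℤ} (hB : n1 * n2 < B ^ 2) (hB0 : 0 < B) (G : ℤ → V3 → V3 → ℤ) :
    ∑ b ∈ Ioo (-B) B, ∑ v ∈ vec n1, ∑ w ∈ vec n2, (if ip v w = b then G b v w else 0) =
    ∑ v ∈ vec n1, ∑ w ∈ vec n2, G (ip v w) v w := by
  rw [sum_comm]
  refine sum_congr rfl fun v hv => ?_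
  rw [sum_comm]
  refine sum_congr rfl fun w hw => ?_
  rw [sum_ite_eq, if_pos (ip_Ioo hB hB0 hv hw)]

theorem cp_sum (n1 b n2 : ℤ) :
    (cp n1 b n2 : ℤ) = ∑ v ∈ vec n1, ∑ w ∈ vec n2, if ip v w = b then 1 else 0 := by
  unfold cp
  rw [card_filter, sum_product]
  push_cast
  rfl

theorem cp3_sum (n1 b n2 : ℤ) :
    (cp3 n1 b n2 : ℤ) = ∑ v ∈ vec n1, ∑ w ∈ vec n2,
      if ip v w = b then (if ∀ i, (3 : ℤ) ∣ v i + b * w i then 1 else 0) else 0 := by
  unfold cp3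
  rw [card_filter, sum_product]
  push_cast
  refine sum_congr rfl fun v _ => sum_congr rfl fun w _ => ?_
  by_cases h : ip v w = b
  · simp only [h, true_and, if_true]
  · simp only [h, false_and, if_false]

/-- all the pairs -/
theorem cp_all {n1 n2 B : ℤ} (hB : n1 * n2 < B ^ 2) (hB0 : 0 < B) :
    ∑ b ∈ Ioo (-B) B, (cp n1 b n2 : ℤ) = rr n1 * rr n2 := by
  rw [sum_congr rfl fun b _ => cp_sum n1 b n2, sum_pairs hB hB0 fun _ _ _ => 1]
  unfold rr
  simp

/-- the pairs with inner product divisible by `3` -/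
theorem cp0_all {n1 n2 B : ℤ} (hB : n1 * n2 < B ^ 2) (hB0 : 0 < B) :
    (cp0 n1 n2 : ℤ) = ∑ b ∈ Ioo (-B) B, if (3 : ℤ) ∣ b then (cp n1 b n2 : ℤ) else 0 := by
  have h1 : ∀ b : ℤ, (if (3 : ℤ) ∣ b then (cp n1 b n2 : ℤ) else 0) =
      ∑ v ∈ vec n1, ∑ w ∈ vec n2, if ip v w = b then (if (3 : ℤ) ∣ b then 1 else 0) else 0 := by
    intro b
    rw [cp_sum]
    by_cases h : (3 : ℤ) ∣ b
    · simp only [h, if_true]
    · simp only [h, if_false, ite_self, sum_const_zero]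
  rw [sum_congr rfl fun b _ => h1 b, sum_pairs hB hB0 fun b _ _ => if (3 : ℤ) ∣ b then 1 else 0]
  unfold cp0
  rw [card_filter, sum_product]
  push_cast
  rfl

/-- the pairs with a common line -/
theorem tot22 {n1 n2 B : ℤ} (a1 : n1 % 3 = 2) (a2 : n2 % 3 = 2) (hB : n1 * n2 < B ^ 2)
    (hB0 : 0 < B) :
    3 * ∑ b ∈ Ioo (-B) B, (if (3 : ℤ) ∣ b then 0 else ((cp n1 b n2 : ℤ) + cp3 n1 b n2)) =
      3 * rr n1 * rr n2 + cc n1 * cc n2 := by
  have h1 : ∀ b : ℤ, (if (3 : ℤ) ∣ b then 0 else ((cp n1 b n2 : ℤ) + cp3 n1 b n2)) =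
      ∑ v ∈ vec n1, ∑ w ∈ vec n2, if ip v w = b then (if (3 : ℤ) ∣ b then 0 else
        (1 + if ∀ i, (3 : ℤ) ∣ v i + b * w i then (1 : ℤ) else 0)) else 0 := by
    intro b
    rw [cp_sum, cp3_sum]
    by_cases h : (3 : ℤ) ∣ b
    · simp only [h, if_true, ite_self, sum_const_zero]
    · simp only [h, if_false]
      rw [← sum_add_distrib]
      refine sum_congr rfl fun v _ => ?_
      rw [← sum_add_distrib]
      refine sum_congr rfl fun w _ => ?_
      by_cases h' : ip v w = b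
      · simp only [h', if_true]
      · simp only [h', if_false, add_zero]
  rw [sum_congr rfl fun b _ => h1 b, sum_pairs hB hB0 fun b v w => if (3 : ℤ) ∣ b then 0 else
        (1 + if ∀ i, (3 : ℤ) ∣ v i + b * w i then (1 : ℤ) else 0)]
  have h2 : ∑ v ∈ vec n1, ∑ w ∈ vec n2, (if (3 : ℤ) ∣ ip v w then 0 else
      (1 + if ∀ i, (3 : ℤ) ∣ v i + ip v w * w i then (1 : ℤ) else 0)) =
      ∑ v ∈ vec n1, ∑ w ∈ vec n2, LL v w := by
    refine sum_congr rfl fun v hv => sum_congr rfl fun w hw => ?_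
    rw [mem_vec] at hv hw
    have k1 : LL v w = lin ((v 0 : ℤ) : ZMod 3) ((v 1 : ℤ) : ZMod 3) ((v 2 : ℤ) : ZMod 3)
      ((w 0 : ℤ) : ZMod 3) ((w 1 : ℤ) : ZMod 3) ((w 2 : ℤ) : ZMod 3) := rfl
    rw [k1, finF _ _ _ _ _ _ (by rw [← ip_z, hv]; exact cast2 a1)
      (by rw [← ip_z, hw]; exact cast2 a2), ← ip_z]
    by_cases h : (3 : ℤ) ∣ ip v w
    · rw [if_pos h, if_pos ((dvd3 _).1 h)]
    · rw [if_neg h, if_neg (fun h' => h ((dvd3 _).2 h'))]
      congr 1
      have hall : (∀ i, (3 : ℤ) ∣ v i + ip v w * w i) ↔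
          (((v 0 : ℤ) : ZMod 3) + ((ip v w : ℤ) : ZMod 3) * ((w 0 : ℤ) : ZMod 3) = 0 ∧
            ((v 1 : ℤ) : ZMod 3) + ((ip v w : ℤ) : ZMod 3) * ((w 1 : ℤ) : ZMod 3) = 0 ∧
            ((v 2 : ℤ) : ZMod 3) + ((ip v w : ℤ) : ZMod 3) * ((w 2 : ℤ) : ZMod 3) = 0) := by
        have hi : ∀ i, (3 : ℤ) ∣ v i + ip v w * w i ↔
            ((v i : ℤ) : ZMod 3) + ((ip v w : ℤ) : ZMod 3) * ((w i : ℤ) : ZMod 3) = 0 := by
          intro i
          rw [dvd3]
          push_cast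
          rfl
        simp only [hi]
        constructor
        · intro h
          exact ⟨h 0, h 1, h 2⟩
        · rintro ⟨g0, g1, g2⟩ i
          fin_cases i
          · exact g0
          · exact g1
          · exact g2
      simp only [hall]
  rw [h2, sum_LL]
  have c1 : cc (n1 : ℤ) = rr n1 - 2 * rr0 n1 := by
    unfold cc
    rw [if_neg (by omega)]
  have c2 : cc (n2 : ℤ) = rr n2 - 2 * rr0 n2 := by
    unfold cc
    rw [if_neg (by omega)]
  have d1 := three_two a1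
  have d2 := three_two a2
  rw [c1, c2, ← N0_eq, ← N0_eq]
  have e1 : 3 * N1 n1 = 2 * rr n1 - N0 n1 := by linarith
  have e2 : 3 * N1 n2 = 2 * rr n2 - N0 n2 := by linarith
  have e3 : 3 * (N0 n1 * N0 n2 + 3 * (N1 n1 * N1 n2)) =
      3 * (N0 n1 * N0 n2) + (3 * N1 n1) * (3 * N1 n2) := by ring
  rw [e3, e1, e2]
  ring

/-! ### the sums over the inner products -/

theorem sum_even (f : ℤ → ℤ) (hf : ∀ b, f (-b) = f b) (h0 : f 0 = 0) (B : ℤ) :
    ∑ b ∈ Ioo (-B) B, f b = 2 * ∑ b ∈ Ioo 0 B, f b := by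
  by_cases hB : 0 < B
  · have h1 : Ioo (-B) B = (Ioo 0 B).image (fun b => -b) ∪ insert 0 (Ioo 0 B) := by
      ext b
      simp only [mem_union, mem_image, mem_insert, mem_Ioo]
      constructor
      · intro h
        by_cases h2 : b < 0
        · exact Or.inl ⟨-b, by omega, by omega⟩
        · right
          by_cases h3 : b = 0
          · exact Or.inl h3
          · right; omega
      · rintro (⟨a, h1, h2⟩ | h1 | h1) <;> omega
    have h2 : Disjoint ((Ioo 0 B).image (fun b => -b)) (insert 0 (Ioo 0 B)) := by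
      rw [disjoint_left]
      intro b hb hb'
      simp only [mem_image, mem_insert, mem_Ioo] at hb hb'
      obtain ⟨a, h1, h2⟩ := hb
      omega
    rw [h1, sum_union h2, sum_insert (by simp), h0, sum_image (fun a _ b _ h => neg_injective h)]
    simp only [hf]
    ring
  · rw [Ioo_eq_empty (by omega), Ioo_eq_empty (by omega)]
    simp

theorem sum_three (f : ℤ → ℤ) (B : ℤ) :
    ∑ b ∈ Ioo 0 (3 * B), (if (3 : ℤ) ∣ b then f b else 0) = ∑ c ∈ Ioo 0 B, f (3 * c) := by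
  rw [← sum_filter]
  refine sum_nbij' (fun b => b / 3) (fun c => 3 * c) ?_ ?_ ?_ ?_ ?_
  · intro b hb
    simp only [mem_filter, mem_Ioo] at hb ⊢
    omega
  · intro c hc
    simp only [mem_filter, mem_Ioo] at hc ⊢
    omega
  · intro b hb
    simp only [mem_filter, mem_Ioo] at hb
    omega
  · intro c _
    omega
  · intro b hb
    simp only [mem_filter, mem_Ioo] at hb
    congr 1
    omega

/-! ### the local densities -/

theorem loc_zero (n1 : ℕ) : loc n1 0 = 0 := by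
  unfold loc
  simp

theorem lrest_zero (n1 : ℕ) : lrest n1 0 = 0 := by
  unfold lrest
  simp

theorem lrest_no5 (n1 : ℕ) {D : ℕ} (h : ¬ 5 ∣ D) : lrest n1 D = 0 := by
  unfold lrest
  rw [Nat.factorization_eq_zero_of_not_dvd h]
  simp

theorem loc_no5 (n1 : ℕ) {D : ℕ} (h : ¬ 5 ∣ D) : loc n1 D = 0 := by
  unfold loc
  rw [Nat.factorization_eq_zero_of_not_dvd h]
  simp

theorem lrest_no2 (n1 : ℕ) {D : ℕ} (h : ¬ 2 ∣ D) : lrest n1 D = 0 := by
  unfold lrest tw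
  rw [Nat.factorization_eq_zero_of_not_dvd h]
  simp

theorem loc_no2 (n1 : ℕ) {D : ℕ} (h : ¬ 2 ∣ D) : loc n1 D = 0 := by
  unfold loc tw
  rw [Nat.factorization_eq_zero_of_not_dvd h]
  simp

/-- `loc` with the factor at `3` -/
theorem loc_three (n1 : ℕ) {D : ℕ} (hD : D ≠ 0) (h3 : 3 ∣ D) :
    loc n1 D = fac n1 D 3 * lrest n1 D := by
  unfold loc lrest
  by_cases h : Odd (D.factorization 5)
  · rw [if_pos h, if_pos h]
    have h1 : 3 ∈ (D.primeFactors.erase 2).erase 5 := by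
      simp only [mem_erase, ne_eq, Nat.mem_primeFactors]
      exact ⟨by norm_num, by norm_num, by norm_num, h3, hD⟩
    rw [← mul_prod_erase _ _ h1, erase_right_comm (a := 5) (b := 3)]
    ring
  · rw [if_neg h, if_neg h, mul_zero]

theorem jac_two3 {n1 : ℕ} (h : n1 % 3 = 2) : jacobiSym (-(n1 : ℤ)) 3 = 1 := by
  rw [jacobiSym.mod_left]
  have : (-(n1 : ℤ)) % ((3 : ℕ) : ℤ) = 1 := by omega
  rw [this]
  exact jacobiSym.one_left 3

theorem jac_one3 {n1 : ℕ} (h : n1 % 3 = 1) : jacobiSym (-(n1 : ℤ)) 3 = -1 := by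
  rw [jacobiSym.mod_left]
  have : (-(n1 : ℤ)) % ((3 : ℕ) : ℤ) = 2 := by omega
  rw [this]
  norm_num

theorem loc_two {n1 : ℕ} (h1 : n1 % 3 = 2) (D : ℕ) :
    loc n1 D = ((D.factorization 3 : ℤ) + 1) * lrest n1 D := by
  by_cases hD : D = 0
  · rw [hD, loc_zero, lrest_zero, mul_zero]
  by_cases h3 : 3 ∣ D
  · rw [loc_three n1 hD h3]
    congr 1
    unfold fac
    rw [if_neg (by omega), jac_two3 h1]
    simp
  · rw [Nat.factorization_eq_zero_of_not_dvd h3]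
    unfold loc lrest
    have h4 : 3 ∉ D.primeFactors.erase 2 := by
      intro h
      exact h3 (Nat.dvd_of_mem_primeFactors (mem_of_mem_erase h))
    rw [erase_eq_of_notMem h4]
    simp

theorem nine_fact {E l : ℕ} (hE : E ≠ 0) (hl : l.Prime) (h3 : l ≠ 3) :
    (9 * E).factorization l = E.factorization l := by
  rw [Nat.factorization_mul (by norm_num) hE]
  simp only [Finsupp.coe_add, Pi.add_apply, Nat.add_eq_right]
  refine Nat.factorization_eq_zero_of_not_dvd fun h => h3 ?_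
  have h1 : l ∣ 3 ^ 2 := by norm_num; exact h
  exact (Nat.prime_dvd_prime_iff_eq hl Nat.prime_three).1 (hl.dvd_of_dvd_pow h1)

theorem nine_fact3 {E : ℕ} (hE : E ≠ 0) : (9 * E).factorization 3 = E.factorization 3 + 2 := by
  have h9 : (9 : ℕ) = 3 ^ 2 := by norm_num
  rw [h9, Nat.factorization_mul (by norm_num) hE]
  simp only [Finsupp.coe_add, Pi.add_apply]
  rw [Nat.Prime.factorization_pow Nat.prime_three]
  simp [add_comm]

theorem lrest_nine (n1 E : ℕ) : lrest n1 (9 * E) = lrest n1 E := by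
  by_cases hE : E = 0
  · rw [hE]
  unfold lrest tw
  rw [nine_fact hE Nat.prime_five (by norm_num), nine_fact hE Nat.prime_two (by norm_num)]
  by_cases h : Odd (E.factorization 5)
  · rw [if_pos h, if_pos h]
    congr 1
    have hs : (((9 * E).primeFactors.erase 2).erase 3).erase 5 =
        ((E.primeFactors.erase 2).erase 3).erase 5 := by
      ext l
      simp only [mem_erase, ne_eq, Nat.mem_primeFactors]
      constructor
      · rintro ⟨h5, h3, h2, hl, hd, _⟩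
        refine ⟨h5, h3, h2, hl, ?_, hE⟩
        rcases (Nat.Prime.dvd_mul hl).1 hd with h' | h'
        · exfalso
          have h1 : l ∣ 3 ^ 2 := by norm_num; exact h'
          exact h3 ((Nat.prime_dvd_prime_iff_eq hl Nat.prime_three).1 (hl.dvd_of_dvd_pow h1))
        · exact h'
      · rintro ⟨h5, h3, h2, hl, hd, _⟩
        exact ⟨h5, h3, h2, hl, Dvd.dvd.mul_left hd 9, by positivity⟩
    rw [hs]
    refine prod_congr rfl fun l hl => ?_
    have h3 : l ≠ 3 := ne_of_mem_erase (mem_of_mem_erase hl)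
    have hlE := mem_of_mem_erase (mem_of_mem_erase (mem_of_mem_erase hl))
    have hlp := Nat.prime_of_mem_primeFactors hlE
    have hj9 : jacobiSym ((9 : ℕ) : ℤ) l = 1 := by
      have h1 : ((9 : ℕ) : ℤ) = 3 ^ 2 := by norm_num
      rw [h1]
      refine jacobiSym.sq_one' ?_
      rw [Int.gcd_eq_natAbs]
      exact (Nat.coprime_primes Nat.prime_three hlp).2 (Ne.symm h3)
    have hf := nine_fact hE hlp h3
    have hq : 9 * E / l ^ E.factorization l = 9 * (E / l ^ E.factorization l) :=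
      Nat.mul_div_assoc 9 (Nat.ordProj_dvd E l)
    unfold fac hh
    rw [hf, hq]
    have e1 : ∀ x : ℕ, jacobiSym (-((9 * x : ℕ) : ℤ)) l = jacobiSym (-(x : ℤ)) l := by
      intro x
      rw [jac_neg_nat, jac_neg_nat, Nat.cast_mul, jacobiSym.mul_left, hj9, one_mul]
    have e2 : n1 / l * (9 * (E / l ^ E.factorization l)) =
        9 * (n1 / l * (E / l ^ E.factorization l)) := by ring
    rw [e2, e1, e1]
  · rw [if_neg h, if_neg h]

/-! ### the pair counts -/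

/-- the difference as a natural number -/
def dd (N : ℕ) (b : ℤ) : ℕ := ((N : ℤ) - b ^ 2).toNat

theorem dd_neg (N : ℕ) (b : ℤ) : dd N (-b) = dd N b := by
  unfold dd
  rw [neg_sq]

theorem cp_zero {n1 n2 : ℕ} {b : ℤ} (h : (n1 : ℤ) * n2 < b ^ 2) :
    cp n1 b n2 = 0 ∧ cp3 n1 b n2 = 0 := by
  constructor
  · unfold cp
    rw [card_eq_zero, filter_eq_empty_iff]
    intro q hq h1
    rw [mem_product, mem_vec, mem_vec] at hq
    obtain ⟨k, hk0, hk⟩ := det_pair q.1 q.2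
    rw [hq.1, hq.2, h1] at hk
    linarith
  · unfold cp3
    rw [card_eq_zero, filter_eq_empty_iff]
    rintro q hq ⟨h1, _⟩
    rw [mem_product, mem_vec, mem_vec] at hq
    obtain ⟨k, hk0, hk⟩ := det_pair q.1 q.2
    rw [hq.1, hq.2, h1] at hk
    linarith

theorem tri {N : ℕ} (hN : ¬ IsSquare N) (b : ℤ) :
    (N : ℤ) < b ^ 2 ∨ (0 < dd N b ∧ (dd N b : ℤ) = N - b ^ 2) := by
  rcases lt_trichotomy (N : ℤ) (b ^ 2) with h | h | h
  · exact Or.inl h
  · exfalso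
    apply hN
    refine ⟨b.natAbs, ?_⟩
    have h1 : ((b.natAbs * b.natAbs : ℕ) : ℤ) = b ^ 2 := by
      push_cast
      rw [← sq, sq_abs]
    exact_mod_cast h.trans h1.symm
  · right
    unfold dd
    constructor
    · omega
    · omega

theorem cp_loc (hPC : S_PC) {n1 n2 : ℕ} (hs : Squarefree n1) (h4 : n1 % 4 = 3) (h5 : ¬ 5 ∣ n1)
    (hN : ¬ IsSquare (n1 * n2)) (b : ℤ) : (cp n1 b n2 : ℤ) = 6 * loc n1 (dd (n1 * n2) b) := by
  rcases tri hN b with h | ⟨h1, h2⟩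
  · push_cast at h
    rw [(cp_zero h).1]
    unfold dd
    have : ((n1 * n2 : ℕ) : ℤ) - b ^ 2 ≤ 0 := by push_cast; linarith
    rw [Int.toNat_of_nonpos this, loc_zero]
    simp
  · exact hPC n1 n2 b _ hs h4 h5 h1 (by rw [h2]; push_cast; ring)

theorem cp3_loc (hCP3 : S_CP3) {n1 n2 : ℕ} (hs : Squarefree n1) (h4 : n1 % 4 = 3)
    (h3 : n1 % 3 = 2) (h3' : n2 % 3 = 2) (h5 : ¬ 5 ∣ n1)
    (hN : ¬ IsSquare (n1 * n2)) {b : ℤ} (hb : ¬ (3 : ℤ) ∣ b) :
    (cp n1 b n2 : ℤ) + cp3 n1 b n2 = 12 * loc3 n1 (dd (n1 * n2) b) := by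
  rcases tri hN b with h | ⟨h1, h2⟩
  · push_cast at h
    rw [(cp_zero h).1, (cp_zero h).2]
    unfold dd
    have : ((n1 * n2 : ℕ) : ℤ) - b ^ 2 ≤ 0 := by push_cast; linarith
    rw [Int.toNat_of_nonpos this]
    unfold loc3
    rw [lrest_zero]
    simp
  · exact hCP3 n1 n2 b _ hs h4 h3 h3' h5 hb h1 (by rw [h2]; push_cast; ring)

/-- the sum of the densities, both signs -/
theorem sumA (hPC : S_PC) (hCP3 : S_CP3) {n1 n2 : ℕ} (hs : Squarefree n1) (h4 : n1 % 4 = 3)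
    (h3 : n1 % 3 = 2) (h3' : n2 % 3 = 2) (h5 : ¬ 5 ∣ n1) (hN : ¬ IsSquare (n1 * n2)) {B : ℤ}
    (hB : (n1 : ℤ) * n2 < B ^ 2) (hB0 : 0 < B) :
    36 * ∑ b ∈ Ioo (-B) B, lrest n1 (dd (n1 * n2) b) = 3 * rr n1 * rr n2 - cc n1 * cc n2 := by
  have e1 := cp_all hB hB0
  have e2 := tot22 (n1 := (n1 : ℤ)) (n2 := (n2 : ℤ)) (by omega) (by omega) hB hB0
  have e3 : ∀ b ∈ Ioo (-B) B, 12 * lrest n1 (dd (n1 * n2) b) = 2 * (cp n1 b n2 : ℤ) -
      (if (3 : ℤ) ∣ b then 0 else ((cp n1 b n2 : ℤ) + cp3 n1 b n2)) := by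
    intro b _
    by_cases hb : (3 : ℤ) ∣ b
    · rw [if_pos hb, cp_loc hPC hs h4 h5 hN, loc_two h3]
      rcases tri hN b with h | ⟨k1, k2⟩
      · have h0 : dd (n1 * n2) b = 0 := by
          unfold dd
          exact Int.toNat_of_nonpos (by linarith)
        rw [h0, lrest_zero]
        ring
      · have h0 : (dd (n1 * n2) b).factorization 3 = 0 := by
          refine Nat.factorization_eq_zero_of_not_dvd fun h => ?_
          have h6 : (3 : ℤ) ∣ (dd (n1 * n2) b : ℤ) := by exact_mod_cast h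
          rw [k2] at h6
          obtain ⟨k, rfl⟩ := hb
          have h7 : (3 : ℤ) ∣ ((n1 * n2 : ℕ) : ℤ) := by
            have : ((n1 * n2 : ℕ) : ℤ) = ((n1 * n2 : ℕ) : ℤ) - (3 * k) ^ 2 + 3 * (3 * k ^ 2) := by ring
            rw [this]
            exact dvd_add h6 (Dvd.intro _ rfl)
          have h8 : (3 : ℕ) ∣ n1 * n2 := by exact_mod_cast h7
          rcases (Nat.Prime.dvd_mul Nat.prime_three).1 h8 with h9 | h9 <;> omega
        rw [h0]
        push_cast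
        ring
    · rw [if_neg hb, cp3_loc hCP3 hs h4 h3 h3' h5 hN hb, cp_loc hPC hs h4 h5 hN, loc_two h3]
      unfold loc3
      ring
  have e4 : 12 * ∑ b ∈ Ioo (-B) B, lrest n1 (dd (n1 * n2) b) =
      2 * ∑ b ∈ Ioo (-B) B, (cp n1 b n2 : ℤ) -
      ∑ b ∈ Ioo (-B) B, (if (3 : ℤ) ∣ b then 0 else ((cp n1 b n2 : ℤ) + cp3 n1 b n2)) := by
    rw [mul_sum, mul_sum, ← sum_sub_distrib]
    exact sum_congr rfl e3
  rw [e1] at e4
  linarith

/-- the sum of the densities with the valuation at `3` -/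
theorem sumB (hPC : S_PC) {n1 n2 : ℕ} (hs : Squarefree n1) (h4 : n1 % 4 = 3)
    (h3 : n1 % 3 = 2) (h5 : ¬ 5 ∣ n1) (hN : ¬ IsSquare (n1 * n2)) {B : ℤ}
    (hB : (n1 : ℤ) * n2 < B ^ 2) (hB0 : 0 < B) :
    6 * ∑ b ∈ Ioo (-B) B, (((dd (n1 * n2) b).factorization 3 : ℤ) + 1) *
      lrest n1 (dd (n1 * n2) b) = rr n1 * rr n2 := by
  rw [← cp_all hB hB0, mul_sum]
  refine sum_congr rfl fun b _ => ?_
  rw [cp_loc hPC hs h4 h5 hN, loc_two h3]

end Pool.Agent.Run7.h483.P15
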