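import Pool.Agent.Run7.h483.P15.U

/-!
# P15 (helper483): U32, U33 and PAR, the parity of the Gross sums
-/

set_option autoImplicit false

namespace Pool.Agent.Run7.h483.P15

open Finset
open Pool.Agent.N969.P15 (V3 ip vec rr rr0 cc cp cp0 cp3 tw lrest loc loc3 S_PC S_CP3 Cls0 Cls3 Qc
  S_R S_PAR S_U33 S_U32 S_REL33 S_REL32 S_REL31)
open Pool.Agent.Z700 (hh fac)

/-! ### small facts -/

theorem odd_dvd {a : ℕ} {x : ℤ} (k : ℤ) (hk : Odd k) (h : (2 : ℤ) ^ a ∣ k * x) : (2 : ℤ) ^ a ∣ x := by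
  refine IsCoprime.dvd_of_dvd_mul_left ?_ h
  refine IsCoprime.pow_left ?_
  rw [Int.isCoprime_iff_gcd_eq_one]
  have h1 : Int.gcd 2 k = Int.gcd k 2 := Int.gcd_comm 2 k
  rw [h1]
  exact Int.isCoprime_iff_gcd_eq_one.1 (Int.isCoprime_iff_gcd_eq_one.2 (by
    obtain ⟨j, hj⟩ := hk
    rw [hj]
    have : IsCoprime (2 * j + 1) 2 := ⟨1, -j, by ring⟩
    exact Int.isCoprime_iff_gcd_eq_one.1 this))

theorem par_mul {a b : ℕ} {x y x' y' : ℤ} (h1 : (2 : ℤ) ^ a ∣ x) (h2 : (2 : ℤ) ^ (a + 1) ∣ x - x')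
    (h3 : (2 : ℤ) ^ b ∣ y) (h4 : (2 : ℤ) ^ (b + 1) ∣ y - y') :
    (2 : ℤ) ^ (a + b + 1) ∣ 3 * x * y + x' * y' ∧ (2 : ℤ) ^ (a + b + 1) ∣ 3 * x * y - x' * y' := by
  obtain ⟨g, rfl⟩ := h1
  obtain ⟨k, hk⟩ := h2
  obtain ⟨h, rfl⟩ := h3
  obtain ⟨l, hl⟩ := h4
  have e1 : x' = 2 ^ a * g - 2 ^ (a + 1) * k := by linarith
  have e2 : y' = 2 ^ b * h - 2 ^ (b + 1) * l := by linarith
  rw [e1, e2]
  exact ⟨⟨2 * g * h - g * l - k * h + 2 * k * l, by ring⟩,
    ⟨g * h + g * l + k * h - 2 * k * l, by ring⟩⟩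

/-- no vectors of norm `± 1` modulo `5` -/
theorem no_vec {n : ℤ} (h : n % 5 = 1 ∨ n % 5 = 4) : vec n = ∅ := by
  rw [eq_empty_iff_forall_notMem]
  intro v hv
  rw [mem_vec, ip_self] at hv
  have h1 : n = 3 * (v 0 + 3 * v 1 + 3 * v 2) ^ 2 - 5 * (4 * v 0 * v 1 + 4 * v 0 * v 2 +
      4 * v 1 ^ 2 + 4 * v 2 ^ 2 + 12 * v 1 * v 2) := by
    rw [← hv]
    unfold Q3
    ring
  generalize 4 * v 0 * v 1 + 4 * v 0 * v 2 + 4 * v 1 ^ 2 + 4 * v 2 ^ 2 + 12 * v 1 * v 2 = t at h1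
  generalize v 0 + 3 * v 1 + 3 * v 2 = s at h1
  have h2 : s ^ 2 % 5 = 0 ∨ s ^ 2 % 5 = 1 ∨ s ^ 2 % 5 = 4 := by
    have h3 : s % 5 = 0 ∨ s % 5 = 1 ∨ s % 5 = 2 ∨ s % 5 = 3 ∨ s % 5 = 4 := by omega
    rcases h3 with h3 | h3 | h3 | h3 | h3 <;> simp [pow_two, Int.mul_emod, h3]
  generalize s ^ 2 = u at h1 h2
  omega

theorem rr_none {n : ℤ} (h : n % 5 = 1 ∨ n % 5 = 4) : rr n = 0 ∧ cc n = 0 := by
  unfold cc rr rr0
  rw [no_vec h]
  simp

theorem vec3 : (vec 3).card = 2 ∧ ((vec 3).filter fun v => (3 : ℤ) ∣ v 1 + v 2).card = 2 := by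
  have h1 : vec 3 = {![1, 0, 0], ![-1, 0, 0]} := by
    ext v
    rw [mem_vec, ip_self, mem_insert, mem_singleton]
    constructor
    · intro h
      have h2 : 3 * Q3 (v 0) (v 1) (v 2) = (3 * v 0 - v 1 - v 2) ^ 2 + 10 * (v 1 - v 2) ^ 2 +
          10 * v 1 ^ 2 + 10 * v 2 ^ 2 := by
        unfold Q3
        ring
      have g1 := sq_nonneg (3 * v 0 - v 1 - v 2)
      have g2 := sq_nonneg (v 1 - v 2)
      have g3 := sq_nonneg (v 1)
      have g4 := sq_nonneg (v 2)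
      have g5 : (v 1) ^ 2 < 1 := by linarith
      have g6 : (v 2) ^ 2 < 1 := by linarith
      have h3 : v 1 = 0 := by
        by_contra h
        have : 1 ≤ (v 1) ^ 2 := by
          have := sq_pos_of_ne_zero h
          omega
        omega
      have h4 : v 2 = 0 := by
        by_contra h
        have : 1 ≤ (v 2) ^ 2 := by
          have := sq_pos_of_ne_zero h
          omega
        omega
      rw [h3, h4] at h
      have h5 : v 0 * v 0 = 1 := by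
        unfold Q3 at h
        linarith
      rcases mul_self_eq_one_iff.1 h5 with h6 | h6
      · left
        exact v3_ext (by simpa using h6) (by simpa using h3) (by simpa using h4)
      · right
        exact v3_ext (by simpa using h6) (by simpa using h3) (by simpa using h4)
    · rintro (rfl | rfl) <;> simp [Q3]
  rw [h1]
  decide

theorem rr_three : rr 3 = 2 ∧ cc 3 = -6 := by
  have h := vec3
  unfold cc rr rr0
  rw [h.1, h.2]
  norm_num

/-! ### the number of prime factors -/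

theorem om_mul {m d : ℕ} (hm : Squarefree m) (hd : d ∣ m) :
    d.primeFactors.card + (m / d).primeFactors.card = m.primeFactors.card := by
  have h1 : d * (m / d) = m := Nat.mul_div_cancel' hd
  have h2 : d.Coprime (m / d) := by
    have h3 := hm
    rw [← h1, Nat.squarefree_mul_iff] at h3
    exact h3.1
  have h4 := h2.primeFactors_mul
  rw [h1] at h4
  rw [h4, card_union_of_disjoint h2.disjoint_primeFactors]

/-! ### the counts with inner product divisible by three -/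

theorem cp0_loc (hPC : S_PC) {n1 n2 : ℕ} (hs : Squarefree n1) (h4 : n1 % 4 = 3) (h5 : ¬ 5 ∣ n1)
    (h5' : ¬ 5 ∣ n1 * n2) (hN : ¬ IsSquare (n1 * n2)) {B : ℤ} (hB : (n1 : ℤ) * n2 < (3 * B) ^ 2)
    (hB0 : 0 < B) :
    (cp0 n1 n2 : ℤ) = 12 * ∑ c ∈ Ioo 0 B, loc n1 (dd (n1 * n2) (3 * c)) := by
  rw [cp0_all hB (by linarith : (0 : ℤ) < 3 * B)]
  have h1 : ∀ b : ℤ, (if (3 : ℤ) ∣ b then (cp n1 b n2 : ℤ) else 0) =
      if (3 : ℤ) ∣ b then 6 * loc n1 (dd (n1 * n2) b) else 0 := by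
    intro b
    rw [cp_loc hPC hs h4 h5 hN]
  rw [sum_congr rfl fun b _ => h1 b,
    sum_even (fun b : ℤ => if (3 : ℤ) ∣ b then 6 * loc n1 (dd (n1 * n2) b) else 0),
    sum_three (fun b : ℤ => 6 * loc n1 (dd (n1 * n2) b)), ← mul_sum]
  · ring
  · intro b
    simp only [dvd_neg, dd_neg]
  · rw [if_pos (dvd_zero _)]
    have h2 : dd (n1 * n2) 0 = n1 * n2 := by
      unfold dd
      rw [zero_pow two_ne_zero, sub_zero, Int.toNat_natCast]
    rw [h2, loc_no5 n1 h5', mul_zero]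

/-! ### U32 -/

theorem cls0_facts {n : ℕ} (h : Cls0 n) : Squarefree n ∧ n % 4 = 3 ∧ n % 3 = 2 ∧
    (n % 5 = 2 ∨ n % 5 = 3) ∧ ¬ 5 ∣ n ∧ ¬ 3 ∣ n ∧ 3 < n := by
  obtain ⟨h1, h2⟩ := h
  refine ⟨h1, ?_, ?_, ?_, ?_, ?_, ?_⟩ <;> omega

theorem div_facts {m d : ℕ} (hm : m ≠ 0) (hd : d ∣ m) : d * (m / d) = m ∧ 0 < d ∧ 0 < m / d := by
  have h1 : d * (m / d) = m := Nat.mul_div_cancel' hd
  have h2 : 0 < d := Nat.pos_of_dvd_of_pos hd (Nat.pos_of_ne_zero hm)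
  refine ⟨h1, h2, ?_⟩
  rcases Nat.eq_zero_or_pos (m / d) with h | h
  · rw [h, mul_zero] at h1
    exact absurd h1.symm hm
  · exact h

theorem t_U32 (hPC : S_PC) : S_U32 := by
  intro n hn
  obtain ⟨hs, h4, h3, h5, h5', h3', hgt⟩ := cls0_facts hn
  have hs3 : Squarefree (3 * n) := sq3 hs h3'
  have hns : ¬ IsSquare (3 * n) := nsq hs3 (by omega)
  have e1 : ∀ d ∈ n.divisors.filter (fun d => d % 4 = 1), (cp0 (3 * d : ℕ) (n / d : ℕ) : ℤ) =
      12 * ∑ c ∈ Ioo 0 ((n : ℤ) + 1), loc (3 * d) (dd (3 * n) (3 * c)) := by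
    intro d hd
    rw [mem_filter, Nat.mem_divisors] at hd
    obtain ⟨k1, k2, k3⟩ := div_facts hs.ne_zero hd.1.1
    have k4 : 3 * d * (n / d) = 3 * n := by rw [mul_assoc, k1]
    have k5 : ¬ 5 ∣ 3 * n := by omega
    have k6 : ((3 * d : ℕ) : ℤ) * ((n / d : ℕ) : ℤ) < (3 * ((n : ℤ) + 1)) ^ 2 := by
      have : ((3 * d : ℕ) : ℤ) * ((n / d : ℕ) : ℤ) = 3 * n := by exact_mod_cast k4
      rw [this]
      nlinarith [Int.natCast_nonneg n]
    have h := cp0_loc hPC (n1 := 3 * d) (n2 := n / d)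
      (hs3.squarefree_of_dvd (Nat.mul_dvd_mul_left 3 hd.1.1)) (by omega)
      (fun h => k5 (h.trans (Nat.mul_dvd_mul_left 3 hd.1.1))) (by rw [k4]; exact k5)
      (by rw [k4]; exact hns) k6 (by omega)
    rw [k4] at h
    exact h
  rw [sum_congr rfl e1, ← mul_sum, sum_comm]
  have h12 : (12 : ℤ) * ∑ c ∈ Ioo 0 ((n : ℤ) + 1), ∑ d ∈ n.divisors.filter (fun d => d % 4 = 1),
      loc (3 * d) (dd (3 * n) (3 * c)) = 2 * (3 * ∑ c ∈ Ioo 0 ((n : ℤ) + 1),
        2 * ∑ d ∈ n.divisors.filter (fun d => d % 4 = 1), loc (3 * d) (dd (3 * n) (3 * c))) := by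
    rw [← mul_sum]
    ring
  rw [h12, pow_succ, mul_comm ((2 : ℤ) ^ n.primeFactors.card) 2]
  refine mul_dvd_mul_left 2 (Dvd.dvd.mul_left (dvd_sum fun c _ => ?_) 3)
  exact termT hs h3' (by omega) (3 * c)

/-! ### U33 -/

theorem cls3_facts {m : ℕ} (h : Cls3 m) : Squarefree m ∧ m % 4 = 1 ∧ ¬ 3 ∣ m ∧ ¬ 5 ∣ m ∧
    m % 2 = 1 := by
  obtain ⟨h1, h2, h3, h4⟩ := h
  refine ⟨h1, h2, h3, ?_, ?_⟩ <;> omega

theorem nsq9 {m : ℕ} (hm : Squarefree m) (h1 : 1 < m) : ¬ IsSquare (9 * m) := by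
  rintro ⟨r, hr⟩
  have h2 : 3 ∣ r * r := by
    rw [← hr]
    exact Dvd.dvd.mul_right (by norm_num) m
  have h3 : 3 ∣ r := by
    rcases (Nat.Prime.dvd_mul Nat.prime_three).1 h2 with h | h <;> exact h
  obtain ⟨s, rfl⟩ := h3
  exact nsq hm h1 ⟨s, by nlinarith⟩

/-- the sum of the counts over the divisors -/
theorem sumU (hPC : S_PC) {m : ℕ} (hm : Cls3 m) (h1 : 1 < m) :
    ∑ d ∈ m.divisors.filter (fun d => d % 4 = 1), (cp0 (3 * d : ℕ) (3 * (m / d) : ℕ) : ℤ) =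
      12 * ∑ c ∈ Ioo 0 ((m : ℤ) + 1), At m c := by
  obtain ⟨hs, h4, h3, h5, h2⟩ := cls3_facts hm
  have hs3 : Squarefree (3 * m) := sq3 hs h3
  have hns : ¬ IsSquare (9 * m) := nsq9 hs h1
  have e1 : ∀ d ∈ m.divisors.filter (fun d => d % 4 = 1),
      (cp0 (3 * d : ℕ) (3 * (m / d) : ℕ) : ℤ) =
      12 * ∑ c ∈ Ioo 0 ((m : ℤ) + 1), loc (3 * d) (9 * dd m c) := by
    intro d hd
    rw [mem_filter, Nat.mem_divisors] at hd
    obtain ⟨k1, k2, k3⟩ := div_facts hs.ne_zero hd.1.1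
    have k4 : 3 * d * (3 * (m / d)) = 9 * m := by
      have : 3 * d * (3 * (m / d)) = 9 * (d * (m / d)) := by ring
      rw [this, k1]
    have k5 : ¬ 5 ∣ 3 * m := by omega
    have k6 : ((3 * d : ℕ) : ℤ) * ((3 * (m / d) : ℕ) : ℤ) < (3 * ((m : ℤ) + 1)) ^ 2 := by
      have : ((3 * d : ℕ) : ℤ) * ((3 * (m / d) : ℕ) : ℤ) = 9 * m := by exact_mod_cast k4
      rw [this]
      nlinarith [Int.natCast_nonneg m]
    have h := cp0_loc hPC (n1 := 3 * d) (n2 := 3 * (m / d))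
      (hs3.squarefree_of_dvd (Nat.mul_dvd_mul_left 3 hd.1.1)) (by omega)
      (fun h => k5 (h.trans (Nat.mul_dvd_mul_left 3 hd.1.1))) (by rw [k4]; omega)
      (by rw [k4]; exact hns) k6 (by omega)
    rw [k4] at h
    simp only [dd_nine] at h
    exact h
  rw [sum_congr rfl e1, ← mul_sum, sum_comm]
  rfl

/-- the hypothesis of the induction for the class `Cls0` -/
def I0 (n : ℕ) : Prop := Cls0 n → (2 : ℤ) ^ (n.primeFactors.card + 1) ∣ rr n - cc n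

/-- the hypothesis of the induction for the class `Cls3` -/
def I3 (m : ℕ) : Prop := Cls3 m →
  (2 : ℤ) ^ (m.primeFactors.card + 1 + 1) ∣ rr (3 * m : ℕ) - cc (3 * m : ℕ)

theorem R0 (hR : S_R) {n : ℕ} (hn : Cls0 n) : (2 : ℤ) ^ n.primeFactors.card ∣ rr n := by
  obtain ⟨hs, h4, h3, h5, h5', h3', hgt⟩ := cls0_facts hn
  obtain ⟨g, hg, _⟩ := hR n hs h4 h5 hgt
  exact ⟨g, hg⟩

theorem R3 (hR : S_R) {m : ℕ} (hm : Cls3 m) :
    (2 : ℤ) ^ (m.primeFactors.card + 1) ∣ rr (3 * m : ℕ) := by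
  obtain ⟨hs, h4, h3, h5, h2⟩ := cls3_facts hm
  by_cases h1 : m = 1
  · subst h1
    have h6 : rr ((3 * 1 : ℕ) : ℤ) = 2 := rr_three.1
    rw [h6]
    simp
  · have hpos : 0 < m := Nat.pos_of_ne_zero hs.ne_zero
    obtain ⟨g, hg, _⟩ := hR (3 * m) (sq3 hs h3) (by omega) (by
      rcases hm.2.2.2 with h | h <;> omega) (by omega)
    rw [card3 hs.ne_zero h3] at hg
    exact ⟨g, hg⟩

/-- the factors of a number `1` modulo `12` in the class -/
theorem split0 {m d : ℕ} (hm : Cls3 m) (h13 : m % 3 = 1) (hd : d ∣ m) (hq : d % 4 = 3 ∧ d % 3 = 2) :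
    (m / d) % 4 = 3 ∧ (m / d) % 3 = 2 ∧ (((d : ℤ) % 5 = 1 ∨ (d : ℤ) % 5 = 4) ∨
      (Cls0 d ∧ Cls0 (m / d) ∧ d < m ∧ m / d < m)) := by
  obtain ⟨hs, h4, h3, h5, h2⟩ := cls3_facts hm
  obtain ⟨k1, k2, k3⟩ := div_facts hs.ne_zero hd
  have hs1 := hs.squarefree_of_dvd hd
  have hs2 := hs.squarefree_of_dvd (Nat.div_dvd_of_dvd hd)
  generalize hee : m / d = e at k1 k3 hs2 ⊢
  have e4 : e % 4 = 3 := by
    have h := Nat.mul_mod d e 4
    rw [k1, hq.1] at h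
    have h' : e % 4 = 0 ∨ e % 4 = 1 ∨ e % 4 = 2 ∨ e % 4 = 3 := by omega
    rcases h' with h' | h' | h' | h' <;> rw [h'] at h <;> omega
  have e3 : e % 3 = 2 := by
    have h := Nat.mul_mod d e 3
    rw [k1, hq.2] at h
    have h' : e % 3 = 0 ∨ e % 3 = 1 ∨ e % 3 = 2 := by omega
    rcases h' with h' | h' | h' <;> rw [h'] at h <;> omega
  refine ⟨e4, e3, ?_⟩
  have hd5 : d % 5 = 0 ∨ d % 5 = 1 ∨ d % 5 = 2 ∨ d % 5 = 3 ∨ d % 5 = 4 := by omega
  have hm5 := hm.2.2.2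
  by_cases h14 : d % 5 = 1 ∨ d % 5 = 4
  · left; omega
  · right
    have hd0 : d % 5 ≠ 0 := fun h => h5 ((Nat.dvd_of_mod_eq_zero h).trans hd)
    have hd23 : d % 5 = 2 ∨ d % 5 = 3 := by omega
    have e5 : e % 5 = 2 ∨ e % 5 = 3 := by
      have h := Nat.mul_mod d e 5
      rw [k1] at h
      have h' : e % 5 = 0 ∨ e % 5 = 1 ∨ e % 5 = 2 ∨ e % 5 = 3 ∨ e % 5 = 4 := by omega
      rcases hd23 with h'' | h'' <;> rcases h' with h' | h' | h' | h' | h' <;>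
        rw [h', h''] at h <;> omega
    refine ⟨⟨hs1, ?_⟩, ⟨hs2, ?_⟩, ?_, ?_⟩
    · omega
    · omega
    · have : 1 < e := by omega
      nlinarith
    · have : 1 < d := by omega
      nlinarith

theorem Ct_zero {m : ℕ} (h5 : ¬ 5 ∣ m) : Ct m 0 = 0 := by
  unfold Ct
  have h2 : dd m 0 = m := by
    unfold dd
    simp
  rw [h2]
  exact sum_eq_zero fun d _ => lrest_no5 d h5

theorem Ct_neg (m : ℕ) (c : ℤ) : Ct m (-c) = Ct m c := by
  unfold Ct
  rw [dd_neg]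

/-- the total of the terms -/
theorem H1 (hPC : S_PC) (hCP3 : S_CP3) (hR : S_R) {m : ℕ} (hm : Cls3 m) (h1 : 1 < m)
    (h13 : m % 3 = 1) (hI : ∀ d, d < m → I0 d) :
    (2 : ℤ) ^ (m.primeFactors.card + 2) ∣ 72 * ∑ c ∈ Ioo 0 ((m : ℤ) + 1), Ct m c := by
  obtain ⟨hs, h4, h3, h5, h2⟩ := cls3_facts hm
  have hns := nsq hs h1
  have e1 : (72 : ℤ) * ∑ c ∈ Ioo 0 ((m : ℤ) + 1), Ct m c =
      36 * ∑ c ∈ Ioo (-((m : ℤ) + 1)) ((m : ℤ) + 1), Ct m c := by
    rw [sum_even (Ct m) (Ct_neg m) (Ct_zero h5)]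
    ring
  have e2 : (36 : ℤ) * ∑ c ∈ Ioo (-((m : ℤ) + 1)) ((m : ℤ) + 1), Ct m c =
      ∑ d ∈ m.divisors.filter (fun d => d % 4 = 3 ∧ d % 3 = 2),
        (3 * rr d * rr (m / d : ℕ) - cc d * cc (m / d : ℕ)) := by
    unfold Ct
    rw [sum_comm, mul_sum]
    refine sum_congr rfl fun d hd => ?_
    rw [mem_filter, Nat.mem_divisors] at hd
    obtain ⟨k1, k2, k3⟩ := div_facts hs.ne_zero hd.1.1
    obtain ⟨j1, j2, _⟩ := split0 hm h13 hd.1.1 hd.2
    have k6 : (d : ℤ) * ((m / d : ℕ) : ℤ) < ((m : ℤ) + 1) ^ 2 := by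
      have : (d : ℤ) * ((m / d : ℕ) : ℤ) = m := by exact_mod_cast k1
      rw [this]
      nlinarith [Int.natCast_nonneg m]
    have h := sumA hPC hCP3 (n1 := d) (n2 := m / d) (hs.squarefree_of_dvd hd.1.1) hd.2.1 hd.2.2 j2
      (fun h => h5 (h.trans hd.1.1)) (by rw [k1]; exact hns) k6 (by omega)
    rw [k1] at h
    exact h
  rw [e1, e2, sym_div hs.ne_zero hns (fun d => d % 4 = 3 ∧ d % 3 = 2)
    (fun d hd hq => ⟨(split0 hm h13 hd hq).1, (split0 hm h13 hd hq).2.1⟩)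
    (fun d => 3 * rr d * rr (m / d : ℕ) - cc d * cc (m / d : ℕ)) (fun d hd _ => by
      rw [Nat.div_div_self hd hs.ne_zero]
      ring)]
  have e3 : (2 : ℤ) ^ (m.primeFactors.card + 2) = 2 * 2 ^ (m.primeFactors.card + 1) := by ring
  rw [e3]
  refine mul_dvd_mul_left 2 (dvd_sum fun d hd => ?_)
  rw [mem_filter, Nat.mem_divisors] at hd
  obtain ⟨_, _, h | ⟨c1, c2, l1, l2⟩⟩ := split0 hm h13 hd.1.1 hd.2.1
  · rw [(rr_none h).1, (rr_none h).2]
    simp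
  · rw [← om_mul hs hd.1.1]
    exact (par_mul (R0 hR c1) (hI d l1 c1) (R0 hR c2) (hI (m / d) l2 c2)).2

/-- the total of the terms with the valuations at three -/
theorem H2 (hPC : S_PC) (hR : S_R) {m : ℕ} (hm : Cls3 m) (h1 : 1 < m)
    (h13 : m % 3 = 1) :
    (2 : ℤ) ^ (m.primeFactors.card + 1) ∣
      12 * ∑ c ∈ Ioo 0 ((m : ℤ) + 1), (((dd m c).factorization 3 : ℤ) + 1) * Ct m c := by
  obtain ⟨hs, h4, h3, h5, h2⟩ := cls3_facts hm
  have hns := nsq hs h1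
  have e1 : (12 : ℤ) * ∑ c ∈ Ioo 0 ((m : ℤ) + 1), (((dd m c).factorization 3 : ℤ) + 1) * Ct m c =
      6 * ∑ c ∈ Ioo (-((m : ℤ) + 1)) ((m : ℤ) + 1),
        (((dd m c).factorization 3 : ℤ) + 1) * Ct m c := by
    rw [sum_even (fun c => (((dd m c).factorization 3 : ℤ) + 1) * Ct m c)
      (fun c => by rw [dd_neg, Ct_neg])
      (by rw [Ct_zero h5, mul_zero])]
    ring
  have e2 : (6 : ℤ) * ∑ c ∈ Ioo (-((m : ℤ) + 1)) ((m : ℤ) + 1),
        (((dd m c).factorization 3 : ℤ) + 1) * Ct m c =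
      ∑ d ∈ m.divisors.filter (fun d => d % 4 = 3 ∧ d % 3 = 2), rr d * rr (m / d : ℕ) := by
    unfold Ct
    have e0 : ∀ c : ℤ, (((dd m c).factorization 3 : ℤ) + 1) *
        ∑ d ∈ m.divisors.filter (fun d => d % 4 = 3 ∧ d % 3 = 2), lrest d (dd m c) =
        ∑ d ∈ m.divisors.filter (fun d => d % 4 = 3 ∧ d % 3 = 2),
          (((dd m c).factorization 3 : ℤ) + 1) * lrest d (dd m c) := fun c => mul_sum _ _ _
    rw [sum_congr rfl fun c _ => e0 c, sum_comm, mul_sum]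
    refine sum_congr rfl fun d hd => ?_
    rw [mem_filter, Nat.mem_divisors] at hd
    obtain ⟨k1, k2, k3⟩ := div_facts hs.ne_zero hd.1.1
    have k6 : (d : ℤ) * ((m / d : ℕ) : ℤ) < ((m : ℤ) + 1) ^ 2 := by
      have : (d : ℤ) * ((m / d : ℕ) : ℤ) = m := by exact_mod_cast k1
      rw [this]
      nlinarith [Int.natCast_nonneg m]
    have h := sumB hPC (n1 := d) (n2 := m / d) (hs.squarefree_of_dvd hd.1.1) hd.2.1 hd.2.2
      (fun h => h5 (h.trans hd.1.1)) (by rw [k1]; exact hns) k6 (by omega)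
    rw [k1] at h
    exact h
  rw [e1, e2, sym_div hs.ne_zero hns (fun d => d % 4 = 3 ∧ d % 3 = 2)
    (fun d hd hq => ⟨(split0 hm h13 hd hq).1, (split0 hm h13 hd hq).2.1⟩)
    (fun d => rr d * rr (m / d : ℕ)) (fun d hd _ => by
      rw [Nat.div_div_self hd hs.ne_zero]
      ring), pow_succ, mul_comm ((2 : ℤ) ^ m.primeFactors.card) 2]
  refine mul_dvd_mul_left 2 (dvd_sum fun d hd => ?_)
  rw [mem_filter, Nat.mem_divisors] at hd
  obtain ⟨_, _, h | ⟨c1, c2, l1, l2⟩⟩ := split0 hm h13 hd.1.1 hd.2.1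
  · rw [(rr_none h).1]
    simp
  · rw [← om_mul hs hd.1.1, pow_add]
    exact mul_dvd_mul (R0 hR c1) (R0 hR c2)

theorem U33_of (hPC : S_PC) (hCP3 : S_CP3) (hR : S_R) {m : ℕ} (hm : Cls3 m) (h1 : 1 < m)
    (hI : ∀ d, d < m → I0 d) :
    (2 : ℤ) ^ (m.primeFactors.card + 2) ∣
      ∑ d ∈ m.divisors.filter (fun d => d % 4 = 1), (cp0 (3 * d : ℕ) (3 * (m / d) : ℕ) : ℤ) := by
  obtain ⟨hs, h4, h3, h5, h2⟩ := cls3_facts hm
  rw [sumU hPC hm h1]
  have key : (2 : ℤ) ^ m.primeFactors.card ∣ ∑ c ∈ Ioo 0 ((m : ℤ) + 1), At m c := by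
    by_cases h13 : m % 3 = 1
    · have g1 := H1 hPC hCP3 hR hm h1 h13 hI
      have g2 := H2 hPC hR hm h1 h13
      have k1 : (2 : ℤ) ^ m.primeFactors.card ∣ 2 * ∑ c ∈ Ioo 0 ((m : ℤ) + 1), Ct m c := by
        have e1 : (72 : ℤ) * ∑ c ∈ Ioo 0 ((m : ℤ) + 1), Ct m c =
            4 * (9 * (2 * ∑ c ∈ Ioo 0 ((m : ℤ) + 1), Ct m c)) := by ring
        have e2 : (2 : ℤ) ^ (m.primeFactors.card + 2) = 4 * 2 ^ m.primeFactors.card := by ring
        rw [e1, e2] at g1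
        exact odd_dvd 9 (by decide) (Int.dvd_of_mul_dvd_mul_left (by norm_num) g1)
      have k2 : (2 : ℤ) ^ m.primeFactors.card ∣
          2 * ∑ c ∈ Ioo 0 ((m : ℤ) + 1), (((dd m c).factorization 3 : ℤ) + 1) * Ct m c := by
        have e1 : (12 : ℤ) * ∑ c ∈ Ioo 0 ((m : ℤ) + 1),
            (((dd m c).factorization 3 : ℤ) + 1) * Ct m c =
            2 * (3 * (2 * ∑ c ∈ Ioo 0 ((m : ℤ) + 1),
              (((dd m c).factorization 3 : ℤ) + 1) * Ct m c)) := by ring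
        have e2 : (2 : ℤ) ^ (m.primeFactors.card + 1) = 2 * 2 ^ m.primeFactors.card := by ring
        rw [e1, e2] at g2
        exact odd_dvd 3 (by decide) (Int.dvd_of_mul_dvd_mul_left (by norm_num) g2)
      -- the difference of the even terms
      have k3 : (2 : ℤ) ^ m.primeFactors.card ∣ ∑ c ∈ Ioo 0 ((m : ℤ) + 1),
          (2 * ((((dd m c).factorization 3 : ℤ) + 1) * Ct m c) -
            if Even ((dd m c).factorization 3) then 2 * Ct m c else 0) := by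
        refine dvd_sum fun c _ => ?_
        have h6 := Ct_div hs h2 h3 c
        by_cases hv : Even ((dd m c).factorization 3)
        · rw [if_pos hv]
          obtain ⟨j, hj⟩ := hv
          have e1 : 2 * ((((dd m c).factorization 3 : ℤ) + 1) * Ct m c) - 2 * Ct m c =
              4 * Ct m c * j := by
            rw [hj]
            push_cast
            ring
          rw [e1]
          exact Dvd.dvd.mul_right h6 _
        · rw [if_neg hv]
          rw [Nat.not_even_iff_odd] at hv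
          obtain ⟨j, hj⟩ := hv
          have e1 : 2 * ((((dd m c).factorization 3 : ℤ) + 1) * Ct m c) - 0 =
              4 * Ct m c * (j + 1) := by
            rw [hj]
            push_cast
            ring
          rw [e1]
          exact Dvd.dvd.mul_right h6 _
      have k4 : (2 : ℤ) ^ m.primeFactors.card ∣ ∑ c ∈ Ioo 0 ((m : ℤ) + 1),
          (At m c + if Even ((dd m c).factorization 3) then 0 else 2 * Ct m c) := by
        refine dvd_sum fun c _ => ?_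
        by_cases hv : Even ((dd m c).factorization 3)
        · rw [if_pos hv, add_zero]
          exact At_even hs h2 h3 c hv
        · rw [if_neg hv]
          exact At_odd hs h2 h3 c (Nat.not_even_iff_odd.1 hv)
      have e5 : ∑ c ∈ Ioo 0 ((m : ℤ) + 1), At m c = ∑ c ∈ Ioo 0 ((m : ℤ) + 1),
          (At m c + if Even ((dd m c).factorization 3) then 0 else 2 * Ct m c) -
          2 * ∑ c ∈ Ioo 0 ((m : ℤ) + 1), Ct m c +
          2 * ∑ c ∈ Ioo 0 ((m : ℤ) + 1), (((dd m c).factorization 3 : ℤ) + 1) * Ct m c -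
          ∑ c ∈ Ioo 0 ((m : ℤ) + 1), (2 * ((((dd m c).factorization 3 : ℤ) + 1) * Ct m c) -
            if Even ((dd m c).factorization 3) then 2 * Ct m c else 0) := by
        rw [mul_sum, mul_sum, ← sum_sub_distrib, ← sum_add_distrib, ← sum_sub_distrib]
        refine sum_congr rfl fun c _ => ?_
        by_cases hv : Even ((dd m c).factorization 3)
        · rw [if_pos hv, if_pos hv]
          ring
        · rw [if_neg hv, if_neg hv]
          ring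
      rw [e5]
      exact dvd_sub (dvd_add (dvd_sub k4 k1) k2) k3
    · refine dvd_sum fun c _ => At_even hs h2 h3 c ?_
      by_cases h0 : dd m c = 0
      · rw [h0]
        simp
      · have h6 : ¬ 3 ∣ dd m c := by
          intro h
          have h7 : (dd m c : ℤ) = m - c ^ 2 := by
            unfold dd at h0 ⊢
            omega
          have h8 : (3 : ℤ) ∣ (dd m c : ℤ) := by exact_mod_cast h
          rw [h7] at h8
          have h9 : c ^ 2 % 3 = 0 ∨ c ^ 2 % 3 = 1 := by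
            have h3 : c % 3 = 0 ∨ c % 3 = 1 ∨ c % 3 = 2 := by omega
            rcases h3 with h3 | h3 | h3 <;> simp [pow_two, Int.mul_emod, h3]
          generalize c ^ 2 = u at h8 h9
          omega
        rw [Nat.factorization_eq_zero_of_not_dvd h6]
        exact Even.zero
  have e2 : (2 : ℤ) ^ (m.primeFactors.card + 2) = 4 * 2 ^ m.primeFactors.card := by ring
  have e1 : (12 : ℤ) * ∑ c ∈ Ioo 0 ((m : ℤ) + 1), At m c =
      4 * (3 * ∑ c ∈ Ioo 0 ((m : ℤ) + 1), At m c) := by ring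
  rw [e1, e2]
  exact mul_dvd_mul_left 4 (Dvd.dvd.mul_left key 3)

end Pool.Agent.Run7.h483.P15
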