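import Pool.Agent.Run7.h483.P15.Pa

/-!
# P15 (helper483): the powers of two dividing the sums over the divisors
-/

set_option autoImplicit false

namespace Pool.Agent.Run7.h483.P15

open Finset
open Pool.Agent.N969.P15 (V3 ip vec rr rr0 cc cp cp0 cp3 tw lrest loc loc3 S_PC S_CP3)
open Pool.Agent.Z700 (hh fac)

/-! ### from subsets to divisors -/

theorem pF3 {n : ℕ} (hn : n ≠ 0) : (3 * n).primeFactors = insert 3 n.primeFactors := by
  rw [Nat.primeFactors_mul (by norm_num) hn, Nat.Prime.primeFactors Nat.prime_three]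
  rfl

theorem three_nm {n : ℕ} (h3 : ¬ 3 ∣ n) : 3 ∉ n.primeFactors :=
  fun h => h3 (Nat.dvd_of_mem_primeFactors h)

theorem card3 {n : ℕ} (hn : n ≠ 0) (h3 : ¬ 3 ∣ n) :
    (3 * n).primeFactors.card = n.primeFactors.card + 1 := by
  rw [pF3 hn, card_insert_of_notMem (three_nm h3)]

theorem sq3 {n : ℕ} (hn : Squarefree n) (h3 : ¬ 3 ∣ n) : Squarefree (3 * n) := by
  rw [Nat.squarefree_mul_iff]
  exact ⟨(Nat.Prime.coprime_iff_not_dvd Nat.prime_three).2 h3, Nat.prime_three.squarefree, hn⟩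

variable {n : ℕ}

theorem conv1 (hn : Squarefree n) (h3 : ¬ 3 ∣ n) (F : ℕ → ℤ) :
    ∑ A ∈ (3 * n).primeFactors.powerset.filter (fun A => c4 A ∧ 3 ∈ A), F (∏ p ∈ A, p) =
    ∑ d ∈ n.divisors.filter (fun d => d % 4 = 1), F (3 * d) := by
  rw [sum_filter, sum_filter, sum_div hn, pF3 hn.ne_zero, sum_powerset_insert (three_nm h3)]
  have h1 : ∑ t ∈ n.primeFactors.powerset, (if c4 t ∧ 3 ∈ t then F (∏ p ∈ t, p) else 0) = 0 := by
    refine sum_eq_zero fun t ht => if_neg fun h => three_nm h3 (mem_powerset.1 ht h.2)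
  rw [h1, zero_add]
  refine sum_congr rfl fun t ht => ?_
  have h2 : ∏ p ∈ insert 3 t, p = 3 * ∏ p ∈ t, p :=
    prod_insert fun h => three_nm h3 (mem_powerset.1 ht h)
  have h4 : (c4 (insert 3 t) ∧ 3 ∈ insert 3 t) ↔ (∏ p ∈ t, p) % 4 = 1 := by
    rw [and_iff_left (mem_insert_self 3 t)]
    unfold c4
    rw [h2]
    omega
  by_cases h : (∏ p ∈ t, p) % 4 = 1
  · rw [if_pos h, if_pos (h4.2 h), h2]
  · rw [if_neg h, if_neg (fun h' => h (h4.1 h'))]

theorem conv2 (hn : Squarefree n) (h3 : ¬ 3 ∣ n) (F : ℕ → ℤ) :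
    ∑ A ∈ (3 * n).primeFactors.powerset.filter (fun A => c4 A ∧ 3 ∉ A), F (∏ p ∈ A, p) =
    ∑ d ∈ n.divisors.filter (fun d => d % 4 = 3), F d := by
  rw [sum_filter, sum_filter, sum_div hn, pF3 hn.ne_zero, sum_powerset_insert (three_nm h3)]
  have h1 : ∑ t ∈ n.primeFactors.powerset, (if c4 (insert 3 t) ∧ 3 ∉ insert 3 t then
      F (∏ p ∈ insert 3 t, p) else 0) = 0 := by
    refine sum_eq_zero fun t ht => if_neg fun h => h.2 (mem_insert_self 3 t)
  rw [h1, add_zero]
  refine sum_congr rfl fun t ht => ?_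
  unfold c4
  have h4 : ((∏ p ∈ t, p) % 4 = 3 ∧ 3 ∉ t) ↔ (∏ p ∈ t, p) % 4 = 3 :=
    and_iff_left fun h => three_nm h3 (mem_powerset.1 ht h)
  simp only [h4]

theorem conv3 (hn : Squarefree n) (F : ℕ → ℤ) :
    ∑ A ∈ n.primeFactors.powerset.filter (fun A => c4 A ∧ c3 A), F (∏ p ∈ A, p) =
    ∑ d ∈ n.divisors.filter (fun d => d % 4 = 3 ∧ d % 3 = 2), F d := by
  rw [sum_filter, sum_filter, sum_div hn]
  rfl

/-! ### valuations -/

theorem val_one {N l : ℕ} {b : ℤ} (hN : Squarefree N) (hl : l.Prime) (hlN : l ∣ N)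
    (h0 : dd N b ≠ 0) (hd : l ∣ dd N b) : (dd N b).factorization l = 1 := by
  have h1 : (dd N b : ℤ) = N - b ^ 2 := by
    unfold dd at h0 ⊢
    omega
  have h2 : 1 ≤ (dd N b).factorization l := hl.factorization_pos_of_dvd h0 hd
  by_contra h3
  have h4 : 2 ≤ (dd N b).factorization l := by omega
  have h5 : l ^ 2 ∣ dd N b := (pow_dvd_pow l h4).trans (Nat.ordProj_dvd _ _)
  have hlz : Prime (l : ℤ) := Nat.prime_iff_prime_int.1 hl
  have h6 : (l : ℤ) ∣ b := by
    have h7 : (l : ℤ) ∣ b ^ 2 := by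
      have h8 : b ^ 2 = (N : ℤ) - dd N b := by rw [h1]; ring
      rw [h8]
      exact dvd_sub (by exact_mod_cast hlN) (by exact_mod_cast hd)
    exact hlz.dvd_of_dvd_pow h7
  have h9 : ((l : ℤ)) ^ 2 ∣ (N : ℤ) := by
    have h8 : (N : ℤ) = dd N b + b ^ 2 := by rw [h1]; ring
    rw [h8]
    exact dvd_add (by exact_mod_cast h5) (pow_dvd_pow_of_dvd h6 2)
  have h10 : l * l ∣ N := by
    rw [← sq]
    exact_mod_cast h9
  exact hl.one_lt.ne' (Nat.isUnit_iff.1 (hN l h10))

theorem dd_nine (m : ℕ) (c : ℤ) : dd (9 * m) (3 * c) = 9 * dd m c := by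
  unfold dd
  have h : ((9 * m : ℕ) : ℤ) - (3 * c) ^ 2 = 9 * ((m : ℤ) - c ^ 2) := by
    push_cast
    ring
  rw [h]
  generalize (m : ℤ) - c ^ 2 = x
  omega

theorem two_nm (h2 : n % 2 = 1) : 2 ∉ n.primeFactors := by
  intro h
  have := Nat.dvd_of_mem_primeFactors h
  omega

/-! ### the terms of U32 -/

/-- the powers of two for the sum over the divisors, a squarefree determinant -/
theorem termT (hn : Squarefree n) (h3 : ¬ 3 ∣ n) (h2 : n % 2 = 1) (b : ℤ) :
    (2 : ℤ) ^ n.primeFactors.card ∣ 2 * ∑ d ∈ n.divisors.filter (fun d => d % 4 = 1),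
      loc (3 * d) (dd (3 * n) b) := by
  by_cases h0 : dd (3 * n) b = 0
  · rw [h0]
    simp [loc_zero]
  have hP : ∀ p ∈ (3 * n).primeFactors, p.Prime := fun p hp => Nat.prime_of_mem_primeFactors hp
  have hP2 : 2 ∉ (3 * n).primeFactors := two_nm (by omega)
  have hodd : ∀ p ∈ (3 * n).primeFactors, p % 2 = 1 := by
    intro p hp
    rcases (hP p hp).eq_two_or_odd with h | h
    · exact absurd (h ▸ hp) hP2
    · exact h
  have h1 := (gd_loc (D := dd (3 * n) b) hP hP2 h0 fun l hl hd =>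
    val_one (sq3 hn h3) (hP l hl) (Nat.dvd_of_mem_primeFactors hl) h0 hd).total2
      (gd_c4 hodd) (gd_mem 3)
  rw [conv1 hn h3 fun d => loc d (dd (3 * n) b), card3 hn.ne_zero h3, pow_succ] at h1
  have h4 : (4 : ℤ) * ∑ d ∈ n.divisors.filter (fun d => d % 4 = 1), loc (3 * d) (dd (3 * n) b) =
      (2 * ∑ d ∈ n.divisors.filter (fun d => d % 4 = 1), loc (3 * d) (dd (3 * n) b)) * 2 := by ring
  rw [h4] at h1
  exact Int.dvd_of_mul_dvd_mul_right (by norm_num) h1

/-! ### the terms of U33 -/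

/-- the sum over the divisors `d ≡ 1 mod 4` -/
noncomputable def At (m : ℕ) (c : ℤ) : ℤ :=
  ∑ d ∈ m.divisors.filter (fun d => d % 4 = 1), loc (3 * d) (9 * dd m c)

/-- the sum over the divisors `d ≡ 3 mod 4`, `d ≡ 2 mod 3` -/
noncomputable def Ct (m : ℕ) (c : ℤ) : ℤ :=
  ∑ d ∈ m.divisors.filter (fun d => d % 4 = 3 ∧ d % 3 = 2), lrest d (dd m c)

theorem Ct_div {m : ℕ} (hm : Squarefree m) (h2 : m % 2 = 1) (h3 : ¬ 3 ∣ m) (c : ℤ) :
    (2 : ℤ) ^ m.primeFactors.card ∣ 4 * Ct m c := by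
  unfold Ct
  by_cases h0 : dd m c = 0
  · rw [h0]
    simp [lrest_zero]
  have hP : ∀ p ∈ m.primeFactors, p.Prime := fun p hp => Nat.prime_of_mem_primeFactors hp
  have hP2 : 2 ∉ m.primeFactors := two_nm h2
  have hodd : ∀ p ∈ m.primeFactors, p % 2 = 1 := by
    intro p hp
    rcases (hP p hp).eq_two_or_odd with h | h
    · exact absurd (h ▸ hp) hP2
    · exact h
  have h1 := (gd_lrest (D := dd m c) hP hP2 h0 fun l hl hd _ =>
    val_one hm (hP l hl) (Nat.dvd_of_mem_primeFactors hl) h0 hd).total2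
      (gd_c4 hodd) (gd_c3 fun p hp h => three_nm h3 (by
        have h5 : 3 ∣ p := Nat.dvd_of_mod_eq_zero h
        rw [Nat.prime_dvd_prime_iff_eq Nat.prime_three (hP p hp)] at h5
        exact h5 ▸ hp))
  rwa [conv3 hm fun d => lrest d (dd m c)] at h1

theorem nine_val {m : ℕ} (hm : Squarefree m) {c : ℤ} (h0 : dd m c ≠ 0) (l : ℕ)
    (hl : l ∈ (3 * m).primeFactors) (hd : l ∣ 9 * dd m c) (h3 : l ≠ 3) :
    (9 * dd m c).factorization l = 1 := by
  have hlp := Nat.prime_of_mem_primeFactors hl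
  have hlm : l ∣ m := by
    rcases (Nat.Prime.dvd_mul hlp).1 (Nat.dvd_of_mem_primeFactors hl) with h | h
    · exact absurd ((Nat.prime_dvd_prime_iff_eq hlp Nat.prime_three).1 h) h3
    · exact h
  have hld : l ∣ dd m c := by
    rcases (Nat.Prime.dvd_mul hlp).1 hd with h | h
    · exfalso
      have h1 : l ∣ 3 ^ 2 := by norm_num; exact h
      exact h3 ((Nat.prime_dvd_prime_iff_eq hlp Nat.prime_three).1 (hlp.dvd_of_dvd_pow h1))
    · exact h
  rw [nine_fact h0 hlp h3]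
  exact val_one hm hlp hlm h0 hld

theorem At_even {m : ℕ} (hm : Squarefree m) (h2 : m % 2 = 1) (h3 : ¬ 3 ∣ m) (c : ℤ)
    (hv : Even ((dd m c).factorization 3)) :
    (2 : ℤ) ^ m.primeFactors.card ∣ At m c := by
  unfold At
  by_cases h0 : dd m c = 0
  · rw [h0]
    simp [loc_zero]
  have h90 : 9 * dd m c ≠ 0 := by positivity
  have h39 : 3 ∣ 9 * dd m c := Dvd.dvd.mul_right (by norm_num) _
  have hP : ∀ p ∈ (3 * m).primeFactors, p.Prime := fun p hp => Nat.prime_of_mem_primeFactors hp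
  have hP2 : 2 ∉ (3 * m).primeFactors := two_nm (by omega)
  have hodd : ∀ p ∈ (3 * m).primeFactors, p % 2 = 1 := by
    intro p hp
    rcases (hP p hp).eq_two_or_odd with h | h
    · exact absurd (h ▸ hp) hP2
    · exact h
  -- the factor at three
  have hev : Even ((9 * dd m c).factorization 3) := by
    rw [nine_fact3 h0]
    exact hv.add (by decide)
  have hf : ∀ d : ℕ, fac (3 * d) (9 * dd m c) 3 =
      1 + jacobiSym (-((9 * dd m c / 3 ^ (9 * dd m c).factorization 3 : ℕ) : ℤ)) 3 := by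
    intro d
    unfold fac hh
    rw [if_pos (Dvd.intro _ rfl), if_pos hev]
  have h1 := (gd_lrest (D := 9 * dd m c) hP hP2 h90 fun l hl hd hl3 =>
    nine_val hm h0 l hl hd hl3).total2 (gd_c4 hodd) (gd_mem 3)
  rw [conv1 hm h3 fun d => lrest d (9 * dd m c), card3 hm.ne_zero h3, pow_succ] at h1
  have h4 : ∑ d ∈ m.divisors.filter (fun d => d % 4 = 1), loc (3 * d) (9 * dd m c) =
      (1 + jacobiSym (-((9 * dd m c / 3 ^ (9 * dd m c).factorization 3 : ℕ) : ℤ)) 3) *
      ∑ d ∈ m.divisors.filter (fun d => d % 4 = 1), lrest (3 * d) (9 * dd m c) := by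
    rw [mul_sum]
    refine sum_congr rfl fun d _ => ?_
    rw [loc_three _ h90 h39, hf]
  rw [h4]
  have h5 : (4 : ℤ) * ∑ d ∈ m.divisors.filter (fun d => d % 4 = 1), lrest (3 * d) (9 * dd m c) =
      (2 * ∑ d ∈ m.divisors.filter (fun d => d % 4 = 1), lrest (3 * d) (9 * dd m c)) * 2 := by ring
  rw [h5] at h1
  have h6 := Int.dvd_of_mul_dvd_mul_right (by norm_num) h1
  have h7 : ¬ 3 ∣ 9 * dd m c / 3 ^ (9 * dd m c).factorization 3 :=
    Nat.not_dvd_ordCompl Nat.prime_three h90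
  have h8 : jacobiSym (-((9 * dd m c / 3 ^ (9 * dd m c).factorization 3 : ℕ) : ℤ)) 3 = 1 ∨
      jacobiSym (-((9 * dd m c / 3 ^ (9 * dd m c).factorization 3 : ℕ) : ℤ)) 3 = -1 := by
    have h9 := (jac_nz' Nat.prime_three _).2 h7
    rcases jacobiSym.trichotomy (-((9 * dd m c / 3 ^ (9 * dd m c).factorization 3 : ℕ) : ℤ)) 3
      with h | h | h
    · exact absurd h h9
    · exact Or.inl h
    · exact Or.inr h
  rcases h8 with h8 | h8
  · rw [h8]
    exact h6
  · rw [h8]
    simp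

theorem At_odd {m : ℕ} (hm : Squarefree m) (h2 : m % 2 = 1) (h3 : ¬ 3 ∣ m) (c : ℤ)
    (hv : Odd ((dd m c).factorization 3)) :
    (2 : ℤ) ^ m.primeFactors.card ∣ At m c + 2 * Ct m c := by
  have h0 : dd m c ≠ 0 := by
    intro h
    rw [h] at hv
    simp at hv
  have h90 : 9 * dd m c ≠ 0 := by positivity
  have h39 : 3 ∣ 9 * dd m c := Dvd.dvd.mul_right (by norm_num) _
  have hP : ∀ p ∈ (3 * m).primeFactors, p.Prime := fun p hp => Nat.prime_of_mem_primeFactors hp
  have hP2 : 2 ∉ (3 * m).primeFactors := two_nm (by omega)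
  have hodd : ∀ p ∈ (3 * m).primeFactors, p % 2 = 1 := by
    intro p hp
    rcases (hP p hp).eq_two_or_odd with h | h
    · exact absurd (h ▸ hp) hP2
    · exact h
  have hov : ¬ Even ((9 * dd m c).factorization 3) := by
    rw [nine_fact3 h0, Nat.not_even_iff_odd]
    exact hv.add_even (by decide)
  have h1 := ((((Gd.const 1).add (gd_hc (l := 3) (D := 9 * dd m c) Nat.prime_three hP h90))).mul
    (gd_lrest (D := 9 * dd m c) hP hP2 h90 fun l hl hd hl3 => nine_val hm h0 l hl hd hl3)).total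
      (gd_c4 hodd)
  rw [card3 hm.ne_zero h3, pow_succ, mul_comm ((2 : ℤ) ^ m.primeFactors.card) 2] at h1
  have h4 := Int.dvd_of_mul_dvd_mul_left (by norm_num) h1
  have h5 : ∑ A ∈ (3 * m).primeFactors.powerset.filter c4,
      (1 + hc 3 (9 * dd m c) A) * lrest (∏ p ∈ A, p) (9 * dd m c) =
      At m c + 2 * Ct m c := by
    have h6 : ∑ A ∈ (3 * m).primeFactors.powerset.filter c4,
        (1 + hc 3 (9 * dd m c) A) * lrest (∏ p ∈ A, p) (9 * dd m c) =
        ∑ A ∈ (3 * m).primeFactors.powerset.filter (fun A => c4 A ∧ 3 ∈ A),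
          loc (∏ p ∈ A, p) (9 * dd m c) +
        ∑ A ∈ (3 * m).primeFactors.powerset.filter (fun A => c4 A ∧ 3 ∉ A),
          (1 + jacobiSym (-((∏ p ∈ A, p : ℕ) : ℤ)) 3) * lrest (∏ p ∈ A, p) (9 * dd m c) := by
      rw [sum_filter, sum_filter, sum_filter, ← sum_add_distrib]
      refine sum_congr rfl fun A hA => ?_
      by_cases hc4 : c4 A
      · by_cases h3A : 3 ∈ A
        · have hdv : 3 ∣ ∏ p ∈ A, p :=
            (dvd_prodP (fun p hp => hP p (mem_powerset.1 hA hp)) Nat.prime_three).2 h3A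
          rw [if_pos hc4, if_pos ⟨hc4, h3A⟩, if_neg (fun h => h.2 h3A), loc_three _ h90 h39,
            add_zero]
          congr 1
          unfold hc fac hh
          rw [if_pos h3A, if_pos hdv, if_neg hov]
        · rw [if_pos hc4, if_neg (fun h => h3A h.2), if_pos ⟨hc4, h3A⟩, zero_add]
          congr 1
          unfold hc
          rw [if_neg h3A]
      · rw [if_neg hc4, if_neg (fun h => hc4 h.1), if_neg (fun h => hc4 h.1), add_zero]
    rw [h6, conv1 hm h3 fun d => loc d (9 * dd m c),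
      conv2 hm h3 fun d => (1 + jacobiSym (-(d : ℤ)) 3) * lrest d (9 * dd m c)]
    unfold At Ct
    congr 1
    rw [mul_sum, ← filter_filter, sum_filter (fun d => d % 3 = 2)]
    refine sum_congr rfl fun d hd => ?_
    rw [mem_filter, Nat.mem_divisors] at hd
    have hd3 : ¬ 3 ∣ d := fun h => h3 (h.trans hd.1.1)
    rw [lrest_nine]
    by_cases hd2 : d % 3 = 2
    · rw [if_pos hd2, jac_two3 hd2]
      ring
    · rw [if_neg hd2, jac_one3 (by omega)]
      ring
  rwa [h5] at h4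

/-! ### symmetric sums over the divisors -/

theorem nsq {m : ℕ} (hm : Squarefree m) (h1 : 1 < m) : ¬ IsSquare m := by
  rintro ⟨r, hr⟩
  have h2 := Nat.isUnit_iff.1 (hm r ⟨1, by rw [mul_one]; exact hr⟩)
  rw [h2] at hr
  omega

/-- a symmetric sum over the divisors of a number which is not a square -/
theorem sym_div {m : ℕ} (hm : m ≠ 0) (hns : ¬ IsSquare m) (q : ℕ → Prop) [DecidablePred q]
    (hq : ∀ d, d ∣ m → q d → q (m / d)) (f : ℕ → ℤ) (hf : ∀ d, d ∣ m → q d → f (m / d) = f d) :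
    ∑ d ∈ m.divisors.filter q, f d = 2 * ∑ d ∈ m.divisors.filter (fun d => q d ∧ d < m / d), f d := by
  have h1 : ∑ d ∈ m.divisors.filter q, f d =
      ∑ d ∈ m.divisors.filter (fun d => q d ∧ d < m / d), f d +
      ∑ d ∈ m.divisors.filter (fun d => q d ∧ m / d < d), f d := by
    rw [sum_filter, sum_filter, sum_filter, ← sum_add_distrib]
    refine sum_congr rfl fun d hd => ?_
    rw [Nat.mem_divisors] at hd
    by_cases hqd : q d
    · have h2 : d ≠ m / d := by
        intro h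
        apply hns
        refine ⟨d, ?_⟩
        have h3 := Nat.mul_div_cancel' hd.1
        rw [← h] at h3
        exact h3.symm
      rcases lt_or_gt_of_ne h2 with h | h
      · rw [if_pos hqd, if_pos ⟨hqd, h⟩, if_neg (fun h' => absurd h'.2 (by omega)), add_zero]
      · rw [if_pos hqd, if_neg (fun h' => absurd h'.2 (by omega)), if_pos ⟨hqd, h⟩, zero_add]
    · rw [if_neg hqd, if_neg (fun h => hqd h.1), if_neg (fun h => hqd h.1), add_zero]
  have h2 : ∑ d ∈ m.divisors.filter (fun d => q d ∧ m / d < d), f d =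
      ∑ d ∈ m.divisors.filter (fun d => q d ∧ d < m / d), f d := by
    have hinv : ∀ d, d ∣ m → m / (m / d) = d := fun d hd => Nat.div_div_self hd hm
    refine sum_nbij' (fun d => m / d) (fun d => m / d) ?_ ?_ ?_ ?_ ?_
    · intro d hd
      rw [mem_filter, Nat.mem_divisors] at hd ⊢
      refine ⟨⟨Nat.div_dvd_of_dvd hd.1.1, hm⟩, hq d hd.1.1 hd.2.1, ?_⟩
      rw [hinv d hd.1.1]
      exact hd.2.2
    · intro d hd
      rw [mem_filter, Nat.mem_divisors] at hd ⊢
      refine ⟨⟨Nat.div_dvd_of_dvd hd.1.1, hm⟩, hq d hd.1.1 hd.2.1, ?_⟩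
      rw [hinv d hd.1.1]
      exact hd.2.2
    · intro d hd
      rw [mem_filter, Nat.mem_divisors] at hd
      exact hinv d hd.1.1
    · intro d hd
      rw [mem_filter, Nat.mem_divisors] at hd
      exact hinv d hd.1.1
    · intro d hd
      rw [mem_filter, Nat.mem_divisors] at hd
      exact (hf d hd.1.1 hd.2.1).symm
  rw [h1, h2]
  ring

end Pool.Agent.Run7.h483.P15
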